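import Mathlib

/-!
Final choice of parameters.
-/

namespace Pool.Agent.BaxterLIS

open Filter Topology

/-- subexponential growth of every stretched order -/
def SubStr (F : ℕ → ℝ) : Prop :=
  ∀ η c : ℝ, 0 < η → 0 < c → Tendsto (fun n : ℕ => F n * Real.exp (-c * (n:ℝ) ^ η)) atTop (𝓝 0)

lemma subStr_poly (K : ℝ) (k : ℕ) : SubStr (fun n => K * ((n:ℝ) + 2) ^ k) := by
  intro η c hη hc
  have h1 := tendsto_rpow_mul_exp_neg_mul_atTop_nhds_zero (k / η) c hc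
  have h2 : Tendsto (fun n : ℕ => (n:ℝ) ^ η) atTop atTop :=
    (tendsto_rpow_atTop hη).comp tendsto_natCast_atTop_atTop
  have h3 := (h1.comp h2).const_mul (|K| * 3 ^ k)
  rw [mul_zero] at h3
  apply squeeze_zero_norm' _ h3
  filter_upwards [eventually_ge_atTop 1] with n hn
  have hn' : (1:ℝ) ≤ n := by exact_mod_cast hn
  have e1 : ((n:ℝ) ^ η) ^ (k / η) = (n:ℝ) ^ k := by
    rw [← Real.rpow_mul (by positivity), mul_div_cancel₀ _ hη.ne', Real.rpow_natCast]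
  simp only [Function.comp]
  rw [e1, norm_mul, norm_mul, Real.norm_eq_abs, Real.norm_eq_abs, Real.norm_eq_abs, abs_of_pos (Real.exp_pos _),
    abs_of_nonneg (by positivity : (0:ℝ) ≤ ((n:ℝ) + 2) ^ k)]
  have e2 : ((n:ℝ) + 2) ^ k ≤ 3 ^ k * (n:ℝ) ^ k := by
    rw [← mul_pow]; gcongr; linarith
  calc |K| * ((n:ℝ) + 2) ^ k * Real.exp (-c * (n:ℝ) ^ η) ≤
      |K| * (3 ^ k * (n:ℝ) ^ k) * Real.exp (-c * (n:ℝ) ^ η) := by gcongr
    _ = _ := by ring

/-- **Choice of parameters.** -/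
theorem asym {h₀ C K : ℕ} {δ ρ : ℝ} (hC : 2 ≤ C) (hδ : 0 < δ)
    (hρ0 : 0 < ρ) (hρ1 : ρ < 1) (total : ℕ → ℝ) (bad : ℕ → ℝ → ℝ) (F : ℕ → ℝ)
    (hF : SubStr F) (hF0 : ∀ n, 0 ≤ F n)
    (htot : ∀ n, 1 ≤ n → 0 < total n) (hbad0 : ∀ n r, 0 ≤ bad n r)
    (hmono : ∀ n r r', r ≤ r' → bad n r ≤ bad n r')
    (hmain : ∀ n j q : ℕ, 1 ≤ n → q * (K * (h₀ * C ^ j) ^ 2 + 4) ≤ 2 * (n - 1) →
      bad n (((1 + δ) * C) ^ j) ≤ ρ ^ q * F n * total n) :
    ∃ α : ℝ, 1 / 2 < α ∧ Tendsto (fun n : ℕ => bad n ((n:ℝ) ^ α) / total n) atTop (𝓝 0) := by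
  have hC' : (2:ℝ) ≤ C := by exact_mod_cast hC
  have hL : 0 < Real.log C := Real.log_pos (by linarith)
  set ε : ℝ := Real.log (1 + δ) / Real.log C with hε
  have hε0 : 0 < ε := div_pos (Real.log_pos (by linarith)) hL
  have hlogδ : Real.log (1 + δ) = ε * Real.log C := by rw [hε]; field_simp
  set d : ℝ := ε / (2 * (1 + ε)) with hd
  have hd0 : 0 < d := by positivity
  have hd1 : d < 1 := by
    rw [hd, div_lt_one (by positivity)]; linarith
  have hprod : (1 - d) * (1 + ε) = 1 + ε / 2 := by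
    rw [hd]; field_simp; ring
  -- the exponent
  refine ⟨1 / 2 + ε / 8, by linarith, ?_⟩
  set M : ℝ := K * h₀ ^ 2 + 4 with hM
  have hM0 : 0 < M := by positivity
  -- c
  set c : ℝ := -Real.log ρ / M with hc
  have hlogρ : Real.log ρ < 0 := Real.log_neg hρ0 hρ1
  have hc0 : 0 < c := div_pos (by linarith) hM0
  have hlim := (hF d c hd0 hc0).const_mul (ρ⁻¹)
  rw [mul_zero] at hlim
  refine tendsto_of_tendsto_of_tendsto_of_le_of_le' tendsto_const_nhds hlim ?_ ?_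
  · filter_upwards [eventually_ge_atTop 1] with n hn
    exact div_nonneg (hbad0 _ _) (htot n hn).le
  -- eventually n^(ε/8) ≥ C^(1+ε)
  have hev : ∀ᶠ n : ℕ in atTop, (C:ℝ) ^ (1 + ε) ≤ (n:ℝ) ^ (ε / 8) :=
    ((tendsto_rpow_atTop (by positivity : 0 < ε / 8)).comp tendsto_natCast_atTop_atTop).eventually_ge_atTop _
  filter_upwards [eventually_ge_atTop 2, hev] with n hn hnC
  have hn1 : 1 ≤ n := by omega
  have hn' : (2:ℝ) ≤ n := by exact_mod_cast hn
  have hnpos : (0:ℝ) < n := by linarith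
  have hlogn : 0 < Real.log n := Real.log_pos (by linarith)
  set j : ℕ := ⌊(1 - d) * Real.log n / (2 * Real.log C)⌋₊ with hj
  have hj1 : (j:ℝ) * Real.log C ≤ (1 - d) * Real.log n / 2 := by
    have h1 : (j:ℝ) ≤ (1 - d) * Real.log n / (2 * Real.log C) := by
      rw [hj]
      apply Nat.floor_le
      have : 0 < 1 - d := by linarith
      positivity
    have h2 := mul_le_mul_of_nonneg_right h1 hL.le
    calc (j:ℝ) * Real.log C ≤ (1 - d) * Real.log n / (2 * Real.log C) * Real.log C := h2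
      _ = _ := by field_simp
  have hj2 : (1 - d) * Real.log n / 2 ≤ ((j:ℝ) + 1) * Real.log C := by
    have h1 : (1 - d) * Real.log n / (2 * Real.log C) < (j:ℝ) + 1 := by
      rw [hj]; exact Nat.lt_floor_add_one _
    have h2 := mul_le_mul_of_nonneg_right h1.le hL.le
    calc (1 - d) * Real.log n / 2 = (1 - d) * Real.log n / (2 * Real.log C) * Real.log C := by
          field_simp
      _ ≤ _ := h2
  -- r_j ≥ n^α
  have hr : (n:ℝ) ^ (1 / 2 + ε / 8) ≤ ((1 + δ) * C) ^ j := by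
    have e1 : ((1 + δ) * (C:ℝ)) ^ j = Real.exp (j * Real.log C * (1 + ε)) := by
      have h1 : (1 + δ) * (C:ℝ) = Real.exp (Real.log C * (1 + ε)) := by
        have h2 : Real.log C * (1 + ε) = Real.log (1 + δ) + Real.log C := by rw [hlogδ]; ring
        rw [h2, Real.exp_add, Real.exp_log (by linarith), Real.exp_log (by linarith)]
      rw [h1, ← Real.exp_nat_mul]; ring_nf
    have e2 : (n:ℝ) ^ (1 / 2 + ε / 8) = Real.exp (Real.log n * (1 / 2 + ε / 8)) :=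
      Real.rpow_def_of_pos hnpos _
    have e3 : Real.log C * (1 + ε) ≤ Real.log n * (ε / 8) := by
      have h1 := Real.log_le_log (by positivity) hnC
      rwa [Real.log_rpow (by linarith), Real.log_rpow hnpos, mul_comm, mul_comm (ε / 8)] at h1
    rw [e1, e2, Real.exp_le_exp]
    have e4 : (1 - d) * Real.log n / 2 * (1 + ε) ≤ ((j:ℝ) + 1) * Real.log C * (1 + ε) :=
      mul_le_mul_of_nonneg_right hj2 (by linarith)
    have e5 : (1 - d) * Real.log n / 2 * (1 + ε) = Real.log n * (1 / 2 + ε / 4) := by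
      have : (1 - d) * Real.log n / 2 * (1 + ε) = ((1 - d) * (1 + ε)) * Real.log n / 2 := by ring
      rw [this, hprod]; ring
    rw [e5] at e4
    nlinarith
  -- the window
  set m : ℕ := K * (h₀ * C ^ j) ^ 2 + 4 with hm
  have hmpos : 0 < m := by positivity
  set q : ℕ := (2 * (n - 1)) / m with hq
  have hqm : q * m ≤ 2 * (n - 1) := Nat.div_mul_le_self _ _
  have h1 := hmain n j q hn1 hqm
  have h2 := (hmono n _ _ hr).trans h1
  -- m ≤ M n^(1-d)
  have hCj : ((C:ℝ) ^ j) ^ 2 ≤ (n:ℝ) ^ (1 - d) := by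
    have e1 : ((C:ℝ) ^ j) ^ 2 = Real.exp (2 * (j * Real.log C)) := by
      rw [← Real.exp_log (by linarith : (0:ℝ) < C), ← Real.exp_nat_mul, ← Real.exp_nat_mul,
        Real.exp_log (by linarith : (0:ℝ) < C)]
      push_cast; ring_nf
    rw [e1, Real.rpow_def_of_pos hnpos, Real.exp_le_exp]
    linarith
  have hone : (1:ℝ) ≤ (n:ℝ) ^ (1 - d) := Real.one_le_rpow (by linarith) (by linarith)
  have hmle : (m:ℝ) ≤ M * (n:ℝ) ^ (1 - d) := by
    rw [hm, hM]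
    push_cast
    have e1 : (K:ℝ) * (h₀ * (C:ℝ) ^ j) ^ 2 ≤ K * h₀ ^ 2 * (n:ℝ) ^ (1 - d) := by
      calc (K:ℝ) * (h₀ * (C:ℝ) ^ j) ^ 2 = K * h₀ ^ 2 * ((C:ℝ) ^ j) ^ 2 := by ring
        _ ≤ _ := by gcongr
    nlinarith
  -- q ≥ n^d / M - 1
  have hqge : (n:ℝ) ^ d / M - 1 ≤ q := by
    have e1 : 2 * (n - 1) < q * m + m := by
      have := Nat.lt_div_mul_add (a := 2 * (n - 1)) hmpos
      rwa [hq]
    have e2 : (n:ℝ) ≤ (q + 1) * m := by
      have : n ≤ (q + 1) * m := by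
        have : (q + 1) * m = q * m + m := by ring
        omega
      exact_mod_cast this
    have e3 : (n:ℝ) ≤ (q + 1) * (M * (n:ℝ) ^ (1 - d)) := e2.trans (by gcongr)
    have e4 : (n:ℝ) = (n:ℝ) ^ d * (n:ℝ) ^ (1 - d) := by
      rw [← Real.rpow_add hnpos]; simp
    have e5 : (n:ℝ) ^ d * (n:ℝ) ^ (1 - d) ≤ ((q + 1) * M) * (n:ℝ) ^ (1 - d) := by
      rw [← e4]; calc (n:ℝ) ≤ _ := e3
        _ = _ := by ring
    have e6 : (n:ℝ) ^ d ≤ (q + 1) * M := le_of_mul_le_mul_right e5 (by linarith)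
    have e7 : (n:ℝ) ^ d / M ≤ q + 1 := by rw [div_le_iff₀ hM0]; exact e6
    linarith
  -- conclusion
  have hρq : ρ ^ q ≤ ρ⁻¹ * Real.exp (-c * (n:ℝ) ^ d) := by
    have e1 : ρ ^ q = Real.exp (q * Real.log ρ) := by
      rw [Real.exp_nat_mul, Real.exp_log hρ0]
    have e2 : ρ⁻¹ = Real.exp (-Real.log ρ) := by rw [Real.exp_neg, Real.exp_log hρ0]
    rw [e1, e2, ← Real.exp_add, Real.exp_le_exp]
    have e3 : c * (n:ℝ) ^ d = -Real.log ρ * ((n:ℝ) ^ d / M) := by rw [hc]; ring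
    have e4 : (q:ℝ) * Real.log ρ ≤ ((n:ℝ) ^ d / M - 1) * Real.log ρ :=
      mul_le_mul_of_nonpos_right hqge hlogρ.le
    calc (q:ℝ) * Real.log ρ ≤ ((n:ℝ) ^ d / M - 1) * Real.log ρ := e4
      _ = -Real.log ρ + -c * (n:ℝ) ^ d := by
        have : -c * (n:ℝ) ^ d = -(c * (n:ℝ) ^ d) := by ring
        rw [this, e3]; ring
  have ht := htot n hn1
  calc bad n ((n:ℝ) ^ (1 / 2 + ε / 8)) / total n ≤ (ρ ^ q * F n * total n) / total n := by gcongr
    _ = ρ ^ q * F n := by field_simp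
    _ ≤ (ρ⁻¹ * Real.exp (-c * (n:ℝ) ^ d)) * F n := by
      apply mul_le_mul_of_nonneg_right hρq (hF0 n)
    _ = ρ⁻¹ * (F n * Real.exp (-c * (n:ℝ) ^ d)) := by ring

end Pool.Agent.BaxterLIS
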