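import Pool.Agent.BaxterLIS.Count
import Pool.Agent.BaxterLIS.Asym

/-!
The theorem for Baxter permutations.
-/

namespace Pool.Agent.BaxterLIS

open Filter Topology

lemma ratio_tendsto (P : (n : ℕ) → Equiv.Perm (Fin n) → Prop) (α : ℝ)
    (hpos : ∀ n, 1 ≤ n → 0 < {σ : Equiv.Perm (Fin n) | P n σ}.ncard)
    (h : Tendsto (fun n : ℕ => (({σ : Equiv.Perm (Fin n) | P n σ ∧ ¬ ∃ s : Finset (Fin n),
          StrictMonoOn (fun i => σ i) (s : Set (Fin n)) ∧ (n : ℝ) ^ α ≤ (s.card : ℝ)}.ncard : ℕ) : ℝ) /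
        ({σ : Equiv.Perm (Fin n) | P n σ}.ncard : ℝ)) atTop (𝓝 0)) :
    Tendsto
        (fun n : ℕ =>
          (({σ : Equiv.Perm (Fin n) | P n σ ∧ ∃ s : Finset (Fin n),
              StrictMonoOn (fun i => σ i) (s : Set (Fin n)) ∧ (n : ℝ) ^ α ≤ (s.card : ℝ)}.ncard : ℝ) /
            ({σ : Equiv.Perm (Fin n) | P n σ}.ncard : ℝ)))
        atTop (𝓝 1) := by
  have h1 := (tendsto_const_nhds (x := (1:ℝ))).sub h
  rw [sub_zero] at h1
  apply h1.congr'
  filter_upwards [eventually_ge_atTop 1] with n hn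
  set A := {σ : Equiv.Perm (Fin n) | P n σ ∧ ∃ s : Finset (Fin n),
              StrictMonoOn (fun i => σ i) (s : Set (Fin n)) ∧ (n : ℝ) ^ α ≤ (s.card : ℝ)} with hA
  set B := {σ : Equiv.Perm (Fin n) | P n σ ∧ ¬ ∃ s : Finset (Fin n),
          StrictMonoOn (fun i => σ i) (s : Set (Fin n)) ∧ (n : ℝ) ^ α ≤ (s.card : ℝ)} with hB
  have hU : {σ : Equiv.Perm (Fin n) | P n σ} = A ∪ B := by
    ext σ
    simp only [hA, hB, Set.mem_union, Set.mem_ofPred_eq]
    constructor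
    · intro h
      by_cases hc : ∃ s : Finset (Fin n),
          StrictMonoOn (fun i => σ i) (s : Set (Fin n)) ∧ (n : ℝ) ^ α ≤ (s.card : ℝ)
      · exact Or.inl ⟨h, hc⟩
      · exact Or.inr ⟨h, hc⟩
    · rintro (h | h)
      · exact h.1
      · exact h.1
  have hd : Disjoint A B := by
    rw [Set.disjoint_left]
    intro σ h1 h2
    exact h2.2 h1.2
  have hcard : {σ : Equiv.Perm (Fin n) | P n σ}.ncard = A.ncard + B.ncard := by
    rw [hU, Set.ncard_union_eq hd (Set.toFinite _) (Set.toFinite _)]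
  have hp := hpos n hn
  have hp' : (0:ℝ) < ({σ : Equiv.Perm (Fin n) | P n σ}.ncard : ℝ) := by exact_mod_cast hp
  have hcard' : ({σ : Equiv.Perm (Fin n) | P n σ}.ncard : ℝ) = A.ncard + B.ncard := by
    exact_mod_cast hcard
  rw [eq_div_iff hp'.ne', sub_mul, div_mul_cancel₀ _ hp'.ne', hcard']
  ring

/-- **Main theorem (Baxter)** -/
theorem baxter_main : ∃ α : ℝ, 1 / 2 < α ∧
    Tendsto
        (fun n : ℕ =>
          (({σ : Equiv.Perm (Fin n) | IsBaxter n σ ∧ ∃ s : Finset (Fin n),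
              StrictMonoOn (fun i => σ i) (s : Set (Fin n)) ∧ (n : ℝ) ^ α ≤ (s.card : ℝ)}.ncard : ℝ) /
            ({σ : Equiv.Perm (Fin n) | IsBaxter n σ}.ncard : ℝ)))
        atTop (𝓝 1) := by
  obtain ⟨h₀, C, δ, hh₀, hC, hδ, hg⟩ := growth
  have htot : ∀ n, 1 ≤ n → (0:ℝ) < ({σ : Equiv.Perm (Fin n) | IsBaxter n σ}.ncard : ℝ) := by
    intro n hn
    have h1 := baxter_card_ge hn
    by_contra hc
    have h2 : ({σ : Equiv.Perm (Fin n) | IsBaxter n σ}.ncard : ℝ) = 0 :=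
      le_antisymm (not_lt.mp hc) (Nat.cast_nonneg _)
    rw [h2, mul_zero] at h1
    have := pow_pos (by norm_num : (0:ℝ) < 8) n
    linarith
  have hmono : ∀ (n : ℕ) (r r' : ℝ), r ≤ r' →
      ((BadSet n r).ncard : ℝ) ≤ ((BadSet n r').ncard : ℝ) := by
    intro n r r' hr
    have : (BadSet n r).ncard ≤ (BadSet n r').ncard := by
      apply Set.ncard_le_ncard _ (Set.toFinite _)
      rintro σ ⟨h1, h2⟩
      refine ⟨h1, ?_⟩
      rintro ⟨s, s1, s2⟩
      exact h2 ⟨s, s1, hr.trans s2⟩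
    exact_mod_cast this
  have hmain : ∀ n j q : ℕ, 1 ≤ n → q * (400 * (h₀ * C ^ j) ^ 2 + 4) ≤ 2 * (n - 1) →
      ((BadSet n (((1 + δ) * C) ^ j)).ncard : ℝ) ≤
        (31 / 32) ^ q * (8 * ((n:ℝ) + 2) ^ 12) * ({σ : Equiv.Perm (Fin n) | IsBaxter n σ}.ncard : ℝ) := by
    intro n j q hn hq
    have hh : 1 ≤ h₀ * C ^ j := Nat.succ_le_of_lt (by positivity)
    have h1 := bad_card_le (q := q) hn hh (hg j) hq
    have h2 := baxter_card_ge hn
    have h3 : (8:ℝ) ^ n = 8 * 8 ^ (n - 1) := by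
      rw [← pow_succ']; congr 1; omega
    rw [h3] at h2
    calc ((BadSet n (((1 + δ) * C) ^ j)).ncard : ℝ) ≤ 8 ^ (n - 1) * (31 / 32) ^ q := h1
      _ ≤ (8 * (n + 2) ^ 12 * ({σ : Equiv.Perm (Fin n) | IsBaxter n σ}.ncard : ℝ)) * (31 / 32) ^ q := by
        gcongr
        linarith
      _ = _ := by ring
  obtain ⟨α, hα, hlim⟩ := asym (h₀ := h₀) (C := C) (K := 400) (δ := δ) (ρ := 31 / 32) hC hδ
    (by norm_num) (by norm_num)
    (fun n => ({σ : Equiv.Perm (Fin n) | IsBaxter n σ}.ncard : ℝ))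
    (fun n r => ((BadSet n r).ncard : ℝ))
    (fun n => 8 * ((n:ℝ) + 2) ^ 12) (subStr_poly 8 12) (fun n => by positivity)
    htot (fun n r => Nat.cast_nonneg _) hmono hmain
  refine ⟨α, hα, ratio_tendsto IsBaxter α ?_ hlim⟩
  intro n hn
  exact_mod_cast htot n hn

end Pool.Agent.BaxterLIS
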