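import Pool.Agent.BaxterLIS.Time

/-!
Blocks of the machine: total mass one, Laplace transforms, tails.
-/

namespace Pool.Agent.BaxterLIS

open scoped ENNReal
open Filter Topology Mode

lemma tsum_le_of_split {F : List Bool → ℝ≥0∞} {G : List Bool → List Bool → ℝ≥0∞}
    (h : ∀ w, F w ≠ 0 → ∃ u v, w = u ++ v ∧ F w ≤ G u v) :
    ∑' w, F w ≤ ∑' u, ∑' v, G u v := by
  classical
  choose! a b hab using h
  have e1 : ∑' w, F w = ∑' w : Function.support F, F w :=
    (tsum_subtype_support F).symm
  rw [e1, ← ENNReal.tsum_prod (f := G)]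
  let φ : Function.support F → List Bool × List Bool := fun w => (a w, b w)
  have hφ : Function.Injective φ := by
    intro x y hxy
    have h1 := (hab x x.2).1
    have h2 := (hab y y.2).1
    have h3 : a x = a y ∧ b x = b y := by simpa [φ] using hxy
    apply Subtype.ext
    rw [h1, h2, h3.1, h3.2]
  calc ∑' w : Function.support F, F w ≤ ∑' w : Function.support F, G (φ w).1 (φ w).2 :=
        ENNReal.tsum_le_tsum fun w => (hab w w.2).2
    _ ≤ ∑' p : List Bool × List Bool, G p.1 p.2 :=
        ENNReal.tsum_comp_le_tsum_of_injective hφ (fun p => G p.1 p.2)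

lemma tsum_ge_of_inj {F : List Bool → ℝ≥0∞} {G : List Bool → List Bool → ℝ≥0∞}
    (φ : List Bool → List Bool → List Bool)
    (hinj : ∀ u v u' v', G u v ≠ 0 → G u' v' ≠ 0 → φ u v = φ u' v' → u = u' ∧ v = v')
    (h : ∀ u v, G u v ≤ F (φ u v)) :
    ∑' u, ∑' v, G u v ≤ ∑' w, F w := by
  rw [← ENNReal.tsum_prod (f := G)]
  set G' : List Bool × List Bool → ℝ≥0∞ := fun p => G p.1 p.2 with hG'
  have e1 : ∑' p, G' p = ∑' p : Function.support G', G' p := (tsum_subtype_support G').symm
  rw [e1]
  let ψ : Function.support G' → List Bool := fun p => φ p.1.1 p.1.2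
  have hψ : Function.Injective ψ := by
    rintro ⟨⟨u, v⟩, h1⟩ ⟨⟨u', v'⟩, h2⟩ h3
    obtain ⟨rfl, rfl⟩ := hinj u v u' v' h1 h2 h3
    rfl
  calc ∑' p : Function.support G', G' p ≤ ∑' p : Function.support G', F (ψ p) :=
        ENNReal.tsum_le_tsum fun p => h _ _
    _ ≤ ∑' w, F w := ENNReal.tsum_comp_le_tsum_of_injective hψ F

/-- blocks of height `h` have total mass one -/
lemma mass_one (h : ℕ) : coin.E R (fun w => ind (hits w R h)) = 1 := by
  apply le_antisymm
  · exact kraft (c := coin) (nt := nt1) (π := Prod.fst) (fun _ _ => rfl) fin1 fin1 (fun _ h => h)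
      (R, h)
  · have h1 : ∀ n, ENNReal.ofReal (1 - un n R h) ≤ coin.E R (fun w => ind (hits w R h)) := by
      intro n
      have := trunc_add_unres (c := coin) (nt := nt1) (π := Prod.fst) (fun _ _ => rfl) fin1 n (R, h)
      rw [un, ← this]
      exact coin.E_mono _ (Chain.trunc_le n _)
    have h2 : Tendsto (fun n => ENNReal.ofReal (1 - un n R h)) atTop (𝓝 (ENNReal.ofReal (1 - 0))) :=
      (ENNReal.continuous_ofReal.tendsto _).comp (tendsto_const_nhds.sub (un_tendsto h))
    simp only [sub_zero, ENNReal.ofReal_one] at h2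
    exact le_of_tendsto' h2 h1

/-- mass of the blocks with a property -/
noncomputable def PE (h : ℕ) (a : ℝ) : ℝ≥0∞ := coin.E R (fun w => ind (hits w R h ∧ a ≤ rew w))

/-- Laplace transform of the reward -/
noncomputable def LE (h : ℕ) (l : ℝ) : ℝ≥0∞ :=
  coin.E R (fun w => ind (hits w R h) * ENNReal.ofReal (Real.exp (-(l * rew w))))

lemma PE_le_one (h : ℕ) (a : ℝ) : PE h a ≤ 1 := by
  rw [← mass_one h]
  exact coin.E_mono _ fun w => ind_mono fun h => h.1

lemma PE_ne_top (h : ℕ) (a : ℝ) : PE h a ≠ ∞ :=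
  ne_top_of_le_ne_top ENNReal.one_ne_top (PE_le_one h a)

lemma LE_le_one (h : ℕ) (l : ℝ) (hl : 0 ≤ l) : LE h l ≤ 1 := by
  rw [← mass_one h]
  refine coin.E_mono _ fun w => ?_
  have : ENNReal.ofReal (Real.exp (-(l * rew w))) ≤ 1 := by
    rw [← ENNReal.ofReal_one]
    apply ENNReal.ofReal_le_ofReal
    apply Real.exp_le_one_iff.mpr
    have : 0 ≤ l * (rew w : ℝ) := by positivity
    linarith
  calc _ ≤ ind (hits w R h) * 1 := by gcongr
    _ = _ := mul_one _

lemma LE_ne_top (h : ℕ) (l : ℝ) (hl : 0 ≤ l) : LE h l ≠ ∞ :=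
  ne_top_of_le_ne_top ENNReal.one_ne_top (LE_le_one h l hl)

lemma LE_add (h₁ h₂ : ℕ) (l : ℝ) (hl : 0 ≤ l) : LE (h₁ + h₂) l ≤ LE h₁ l * LE h₂ l := by
  have key : LE (h₁ + h₂) l ≤ ∑' u, ∑' v,
      (coin.wt R u * (ind (hits u R h₁) * ENNReal.ofReal (Real.exp (-(l * rew u))))) *
      (coin.wt R v * (ind (hits v R h₂) * ENNReal.ofReal (Real.exp (-(l * rew v))))) := by
    unfold LE Chain.E
    apply tsum_le_of_split
    intro w hw
    have hw1 : hits w R (h₁ + h₂) := by
      by_contra hcon
      apply hw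
      beta_reduce
      rw [ind_false hcon]; simp
    obtain ⟨u, v, rfl, hu, hv⟩ := hits_split (fun _ => rfl) hw1
    refine ⟨u, v, rfl, ?_⟩
    beta_reduce
    rw [ind_true hw1, ind_true hu, ind_true hv, coin.wt_append, hits_run (fun _ => rfl) hu]
    simp only [one_mul]
    have h1 : Real.exp (-(l * rew (u ++ v))) ≤
        Real.exp (-(l * rew u)) * Real.exp (-(l * rew v)) := by
      rw [← Real.exp_add]
      apply Real.exp_le_exp.mpr
      have h2 : ((rew u : ℝ) + rew v) ≤ rew (u ++ v) := by exact_mod_cast rew_append hu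
      nlinarith
    calc coin.wt R u * coin.wt R v * ENNReal.ofReal (Real.exp (-(l * rew (u ++ v))))
        ≤ coin.wt R u * coin.wt R v *
          ENNReal.ofReal (Real.exp (-(l * rew u)) * Real.exp (-(l * rew v))) := by
          gcongr
      _ = _ := by
          rw [ENNReal.ofReal_mul (Real.exp_pos _).le]; ring
  refine key.trans (le_of_eq ?_)
  unfold LE Chain.E
  simp only [ENNReal.tsum_mul_left, ENNReal.tsum_mul_right]

lemma LE_le (h : ℕ) (l a₁ a₂ : ℝ) (hl : 0 ≤ l) (h1 : 0 ≤ a₁) (h12 : a₁ ≤ a₂) :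
    LE h l + (ENNReal.ofReal (1 - Real.exp (-(l * a₁))) * PE h a₁ +
      ENNReal.ofReal (Real.exp (-(l * a₁)) - Real.exp (-(l * a₂))) * PE h a₂) ≤ 1 := by
  unfold LE PE
  rw [← coin.E_mul_left, ← coin.E_mul_left, ← coin.E_add, ← coin.E_add, ← mass_one h]
  refine coin.E_mono _ fun w => ?_
  by_cases hw : hits w R h
  · simp only [hw, true_and]
    rw [ind_true trivial, one_mul]
    have e1 : Real.exp (-(l * a₂)) ≤ Real.exp (-(l * a₁)) := by
      apply Real.exp_le_exp.mpr; nlinarith
    have e2 : Real.exp (-(l * a₁)) ≤ 1 := by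
      apply Real.exp_le_one_iff.mpr; nlinarith
    have e0 : Real.exp (-(l * rew w)) ≤ 1 := by
      apply Real.exp_le_one_iff.mpr
      have : 0 ≤ l * (rew w : ℝ) := by positivity
      linarith
    by_cases g1 : a₁ ≤ rew w
    · by_cases g2 : a₂ ≤ rew w
      · rw [ind_true g1, ind_true g2, mul_one, mul_one, ← ENNReal.ofReal_add (by linarith) (by linarith),
          ← ENNReal.ofReal_add (Real.exp_pos _).le (by linarith), ← ENNReal.ofReal_one]
        apply ENNReal.ofReal_le_ofReal
        have : Real.exp (-(l * rew w)) ≤ Real.exp (-(l * a₂)) := by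
          apply Real.exp_le_exp.mpr; nlinarith
        linarith
      · rw [ind_true g1, ind_false g2, mul_one, mul_zero, add_zero,
          ← ENNReal.ofReal_add (Real.exp_pos _).le (by linarith), ← ENNReal.ofReal_one]
        apply ENNReal.ofReal_le_ofReal
        have : Real.exp (-(l * rew w)) ≤ Real.exp (-(l * a₁)) := by
          apply Real.exp_le_exp.mpr; nlinarith
        linarith
    · have g2 : ¬ a₂ ≤ rew w := fun h => g1 (h12.trans h)
      rw [ind_false g1, ind_false g2]
      simp only [mul_zero, add_zero]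
      rw [← ENNReal.ofReal_one]
      exact ENNReal.ofReal_le_ofReal e0
  · simp [hw, ind]

lemma one_le_tail (h : ℕ) (l a : ℝ) (hl : 0 ≤ l) :
    1 ≤ PE h a + ENNReal.ofReal (Real.exp (l * a)) * LE h l := by
  unfold LE PE
  rw [← coin.E_mul_left, ← coin.E_add, ← mass_one h]
  refine coin.E_mono _ fun w => ?_
  by_cases hw : hits w R h
  · simp only [hw, true_and]
    by_cases g : a ≤ rew w
    · rw [ind_true g]
      have := ind_le_one True
      exact this.trans (by simp)
    · rw [ind_false g, ind_true trivial, one_mul, zero_add, ← ENNReal.ofReal_mul (Real.exp_pos _).le,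
        ← Real.exp_add, ← ENNReal.ofReal_one]
      apply ENNReal.ofReal_le_ofReal
      apply Real.one_le_exp
      push Not at g
      nlinarith
  · simp [hw, ind]

lemma wt_eq (w : List Bool) (m : Mode) : coin.wt m w = (2⁻¹ : ℝ≥0∞) ^ w.length := by
  induction w generalizing m with
  | nil => simp
  | cons b w ih =>
    rw [Chain.wt_cons, ih, coin_p, List.length_cons, pow_succ, mul_comm]
    congr 1
    rw [one_div, ENNReal.ofReal_inv_of_pos (by norm_num)]
    norm_num

lemma one_le_P_one (h : ℕ) : 1 ≤ PE h 1 + (2⁻¹ : ℝ≥0∞) ^ h := by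
  have h1 : coin.E R (fun w => ind (w = List.replicate h true)) = (2⁻¹ : ℝ≥0∞) ^ h := by
    unfold Chain.E
    rw [tsum_eq_single (List.replicate h true)]
    · beta_reduce
      rw [ind_true rfl, mul_one, wt_eq, List.length_replicate]
    · intro w hw
      beta_reduce
      rw [ind_false hw, mul_zero]
  rw [← h1]
  unfold PE
  rw [← coin.E_add, ← mass_one h]
  refine coin.E_mono _ fun w => ?_
  by_cases hw : hits w R h
  · by_cases hne : w = List.replicate h true
    · rw [ind_true hne]
      exact (ind_le_one _).trans (by simp)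
    · have h2 := one_le_rew hw hne
      have h3 : (1:ℝ) ≤ rew w := by exact_mod_cast h2
      rw [ind_true (P := hits w R h ∧ (1:ℝ) ≤ rew w) ⟨hw, h3⟩]
      exact (ind_le_one _).trans (by simp)
  · rw [ind_false hw]; simp

end Pool.Agent.BaxterLIS
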