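import Pool.Agent.BaxterLIS.Stack

/-!
Increasing chains produced by restarts of the walker.
-/

namespace Pool.Agent.BaxterLIS

open Mode
open scoped List

/-- in a duplicate-free list, order relations can be chained -/
lemma sublist_chain {l : List ℕ} (hl : l.Nodup) {a b : ℕ} {c : List ℕ} (h1 : [a, b] <+ l)
    (h2 : (b :: c) <+ l) : (a :: b :: c) <+ l := by
  induction l with
  | nil => simp at h1
  | cons x l ih =>
    rw [List.nodup_cons] at hl
    by_cases hxa : x = a
    · subst hxa
      have hb : [b] <+ l := by
        cases h1 with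
        | cons _ h => exact absurd (h.subset (by simp)) hl.1
        | cons_cons _ h => exact h
      have hxb : b ≠ x := by
        rintro rfl; exact hl.1 (hb.subset (by simp))
      have h3 : (b :: c) <+ l := by
        cases h2 with
        | cons _ h => exact h
        | cons_cons _ h => exact absurd rfl hxb
      exact h3.cons_cons _
    · have h1' : [a, b] <+ l := by
        cases h1 with
        | cons _ h => exact h
        | cons_cons _ h => exact absurd rfl hxa
      have hxb : b ≠ x := by
        rintro rfl; exact hl.1 (h1'.subset (by simp))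
      have h3 : (b :: c) <+ l := by
        cases h2 with
        | cons _ h => exact h
        | cons_cons _ h => exact absurd rfl hxb
      exact (ih hl.2 h1' h3).cons _

lemma not_both_orders {l : List ℕ} (hl : l.Nodup) {a b : ℕ} (h1 : [a, b] <+ l)
    (h2 : [b, a] <+ l) : False := by
  have h3 := sublist_chain hl h1 h2
  have h4 := hl.sublist h3
  simp at h4

lemma loc_mem {s : St} {e : ℕ} {z : ℤ} (h : Loc s e z) : e ∈ arr s := by
  obtain ⟨m, l, r, n⟩ := s
  match z, h with
  | Int.ofNat 0, h =>
    obtain ⟨h1, h2⟩ := h
    simp only at h1 h2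
    subst h1; subst h2
    simp [arr]
  | Int.ofNat (k + 1), h =>
    obtain ⟨c, hc, he⟩ := h
    have hc' : c ∈ r := List.mem_of_getElem? hc
    have : e ∈ r.flatten := List.mem_flatten.mpr ⟨c, hc', he⟩
    cases m <;> simp [arr, -List.mem_flatten, this]
  | Int.negSucc k, h =>
    obtain ⟨c, hc, he⟩ := h
    have hc' : c ∈ l := List.mem_of_getElem? hc
    have : e ∈ l.reverse.flatten := List.mem_flatten.mpr ⟨c, by simpa using hc', he⟩
    cases m <;> simp [arr, -List.mem_flatten, this]

lemma loc_lt {s : St} (hw : WF s) {e : ℕ} {z : ℤ} (h : Loc s e z) : e < s.n := by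
  have := loc_mem h
  have := hw.perm.subset this
  simpa using this

lemma loc_neg_left {s : St} {e : ℕ} {z : ℤ} (h : Loc s e z) (hz : z < 0) :
    e ∈ s.left.reverse.flatten := by
  match z, h with
  | Int.ofNat k, h => simp at hz; omega
  | Int.negSucc k, h =>
    obtain ⟨c, hc, he⟩ := h
    exact List.mem_flatten.mpr ⟨c, by simpa using List.mem_of_getElem? hc, he⟩

/-- after a stop, an element of the left stack precedes the new element -/
lemma stop_order {s : St} (hs : s.mode ≠ I) {e : ℕ} (he : e ∈ s.left.reverse.flatten) :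
    [e, s.n] <+ arr (stp s false) := by
  rw [(arr_stop s hs).1]
  have h1 : [e] <+ s.left.reverse.flatten := List.singleton_sublist.mpr he
  have h2 : [s.n] <+ s.n :: s.right.flatten := List.singleton_sublist.mpr (by simp)
  exact h1.append h2

lemma stop_order' {s : St} (hs : s.mode ≠ I) {e : ℕ} (he : e ∈ s.right.flatten) :
    [s.n, e] <+ arr (stp s false) := by
  rw [(arr_stop s hs).1]
  have h1 : [e] <+ s.right.flatten := List.singleton_sublist.mpr he
  exact (h1.cons_cons s.n).trans (List.sublist_append_right _ _)

/-- **Chain lemma**: the walker's restarts give an increasing chain in the final arrangement. -/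
lemma chain_exists {s s' : St} {w : List Bool} (hr : Run s w s') (hw : WF s) {e : ℕ} {z : ℤ}
    (hl : Loc s e z) : ∃ c : List ℕ, (e :: c) <+ arr s' ∧ (e :: c).Pairwise (· < ·) ∧
      best w s.mode z ≤ c.length := by
  induction hr generalizing e z with
  | nil s =>
    exact ⟨[], List.singleton_sublist.mpr (loc_mem hl), by simp, by simp [best]⟩
  | @cons s b w s' hk hr ih =>
    have hw' := wf_stp hk hw
    obtain ⟨c, hc1, hc2, hc3⟩ := ih hw' (loc_step hk hl)
    rw [stp_mode] at hc3
    simp only [best]
    split_ifs with hcond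
    · obtain ⟨rfl, hmI, hz⟩ := hcond
      -- restart option
      have hn : (stp s false).n = s.n + 1 := by
        rw [stp_n, if_pos ⟨hmI, rfl⟩]
      have hmode : (stp s false).mode = I := by
        rw [stp_mode]; cases h : s.mode <;> simp_all [nextMode]
      have hl0 : Loc (stp s false) s.n 0 := ⟨hmode, by rw [hn]; rfl⟩
      obtain ⟨c', hc1', hc2', hc3'⟩ := ih hw' hl0
      rw [hmode] at hc3'
      have hnd : (arr s').Nodup := (wf_run hr hw').nodup
      have hord : [e, s.n] <+ arr s' :=
        (stop_order hmI (loc_neg_left hl hz)).trans (run_arr_sublist hr)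
      have hlt : e < s.n := loc_lt hw hl
      by_cases hmax : best w (nextMode s.mode false) (zs s.mode false z) ≤ 1 + best w I 0
      · refine ⟨s.n :: c', sublist_chain hnd hord hc1', ?_, ?_⟩
        · rw [List.pairwise_cons] at hc2' ⊢
          refine ⟨?_, by rw [List.pairwise_cons]; exact hc2'⟩
          intro a ha
          rcases List.mem_cons.mp ha with rfl | ha
          · exact hlt
          · exact hlt.trans (hc2'.1 a ha)
        · rw [max_eq_right hmax, List.length_cons]; omega
      · exact ⟨c, hc1, hc2, by rw [max_eq_left (by omega)]; exact hc3⟩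
    · exact ⟨c, hc1, hc2, hc3⟩

/-- the synchronising flips lead to mode `R` -/
lemma sync (m : Mode) : coin.run m [false, true, false, true] = R := by
  cases m <;> rfl

/-- a good window inside a run yields a long increasing chain -/
lemma good_window {s s' : St} {a y t : List Bool} {h : ℕ} {r : ℝ}
    (hr : Run s (a ++ ([false, true, false, true] ++ y) ++ t) s') (hw : WF s)
    (hg : goodBlock h r y) :
    ∃ c : List ℕ, c <+ arr s' ∧ c.Pairwise (· < ·) ∧ r ≤ c.length := by
  obtain ⟨u, ⟨v, hv⟩, hu, hru⟩ := hg
  subst hv
  have e1 : a ++ ([false, true, false, true] ++ (u ++ v)) ++ t =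
      (a ++ [false, true, false, true]) ++ (u ++ (v ++ t)) := by simp
  rw [e1] at hr
  obtain ⟨s1, h1, h2⟩ := run_split hr
  obtain ⟨s2, h3, h4⟩ := run_split h2
  have hw1 := wf_run h1 hw
  have hm1 : s1.mode = R := by
    rw [run_mode h1, Chain.run_append, sync]
  obtain ⟨b, l, hbl⟩ := List.exists_cons_of_ne_nil (hw1.lne hm1)
  have hb : b ≠ [] := hw1.left_ne b (by rw [hbl]; simp)
  obtain ⟨e, b', hb'⟩ := List.exists_cons_of_ne_nil hb
  have hloc : Loc s1 e (-1) := ⟨b, by rw [hbl]; simp, by rw [hb']; simp⟩
  obtain ⟨c, hc1, hc2, hc3⟩ := chain_exists h3 hw1 hloc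
  refine ⟨e :: c, hc1.trans (run_arr_sublist h4), hc2, ?_⟩
  rw [hm1] at hc3
  have hc4 : (rew u : ℝ) ≤ ((e :: c).length : ℝ) := by
    have : rew u ≤ (e :: c).length := by
      rw [List.length_cons]; exact le_trans hc3 (Nat.le_succ _)
    exact_mod_cast this
  linarith

end Pool.Agent.BaxterLIS
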