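import Mathlib

/-!
Three non-colliding lattice paths: a lower bound for their number by the Vandermonde harmonic
function.
-/

namespace Pool.Agent.BaxterLIS

/-- an increment of three walkers -/
abbrev Inc3 := Bool × Bool × Bool

def bi (b : Bool) : ℤ := if b then 1 else 0

/-- strictly ordered triple -/
def ord3 (x : ℤ × ℤ × ℤ) : Prop := x.1 < x.2.1 ∧ x.2.1 < x.2.2

instance (x : ℤ × ℤ × ℤ) : Decidable (ord3 x) := by unfold ord3; infer_instance

def mv (x : ℤ × ℤ × ℤ) (e : Inc3) : ℤ × ℤ × ℤ := (x.1 + bi e.1, x.2.1 + bi e.2.1, x.2.2 + bi e.2.2)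

/-- end position -/
def endp : ℤ × ℤ × ℤ → List Inc3 → ℤ × ℤ × ℤ
  | x, [] => x
  | x, e :: w => endp (mv x e) w

/-- non-colliding -/
def nc : ℤ × ℤ × ℤ → List Inc3 → Prop
  | _, [] => True
  | x, e :: w => ord3 (mv x e) ∧ nc (mv x e) w

def Vd (x : ℤ × ℤ × ℤ) : ℤ := (x.2.1 - x.1) * (x.2.2 - x.2.1) * (x.2.2 - x.1)

lemma Vd_harm (x : ℤ × ℤ × ℤ) : ∑ e : Inc3, Vd (mv x e) = 8 * Vd x := by
  obtain ⟨a, b, c⟩ := x
  simp only [Fintype.sum_prod_type, Fintype.sum_bool, Vd, mv, bi]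
  simp
  ring

lemma Vd_zero {x : ℤ × ℤ × ℤ} (hx : ord3 x) (e : Inc3) (h : ¬ ord3 (mv x e)) : Vd (mv x e) = 0 := by
  obtain ⟨a, b, c⟩ := x
  obtain ⟨e1, e2, e3⟩ := e
  simp only [ord3, mv] at *
  have h1 : b + bi e2 = a + bi e1 ∨ c + bi e3 = b + bi e2 := by
    cases e1 <;> cases e2 <;> cases e3 <;> simp [bi] at * <;> omega
  rcases h1 with h1 | h1
  · simp [Vd, h1]
  · simp [Vd, h1]

/-- non-colliding paths of length `n` -/
def NCF : ℕ → ℤ × ℤ × ℤ → Finset (List Inc3)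
  | 0, _ => {[]}
  | n + 1, x => Finset.univ.biUnion
      (fun e : Inc3 => if ord3 (mv x e) then (NCF n (mv x e)).image (List.cons e) else ∅)

lemma mem_NCF {n : ℕ} {x : ℤ × ℤ × ℤ} {w : List Inc3} : w ∈ NCF n x ↔ w.length = n ∧ nc x w := by
  induction n generalizing x w with
  | zero =>
    simp only [NCF, Finset.mem_singleton, List.length_eq_zero_iff]
    constructor
    · rintro rfl; exact ⟨rfl, trivial⟩
    · exact fun h => h.1
  | succ n ih =>
    simp only [NCF, Finset.mem_biUnion, Finset.mem_univ, true_and]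
    constructor
    · rintro ⟨e, he⟩
      split_ifs at he with h
      · obtain ⟨w', hw', rfl⟩ := Finset.mem_image.mp he
        have := ih.mp hw'
        exact ⟨by simp [this.1], h, this.2⟩
      · simp at he
    · rintro ⟨h1, h2⟩
      cases w with
      | nil => simp at h1
      | cons e w =>
        refine ⟨e, ?_⟩
        rw [if_pos h2.1]
        exact Finset.mem_image.mpr ⟨w, ih.mpr ⟨by simpa using h1, h2.2⟩, rfl⟩

lemma sum_NCF_succ (n : ℕ) (x : ℤ × ℤ × ℤ) (f : List Inc3 → ℤ) :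
    ∑ w ∈ NCF (n + 1) x, f w =
      ∑ e : Inc3, if ord3 (mv x e) then ∑ w ∈ NCF n (mv x e), f (e :: w) else 0 := by
  simp only [NCF]
  rw [Finset.sum_biUnion]
  · apply Finset.sum_congr rfl
    intro e _
    split_ifs
    · rw [Finset.sum_image]
      intro a _ b _ h
      exact List.cons_injective h
    · simp
  · intro e _ e' _ hne
    simp only [Function.onFun]
    rw [Finset.disjoint_left]
    intro w h1 h2
    split_ifs at h1 with hh1
    · split_ifs at h2 with hh2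
      · obtain ⟨u, _, rfl⟩ := Finset.mem_image.mp h1
        obtain ⟨v, _, hv⟩ := Finset.mem_image.mp h2
        simp only [List.cons.injEq] at hv
        exact hne hv.1.symm
      · simp at h2
    · simp at h1

lemma sum_Vd (n : ℕ) (x : ℤ × ℤ × ℤ) (hx : ord3 x) :
    ∑ w ∈ NCF n x, Vd (endp x w) = 8 ^ n * Vd x := by
  induction n generalizing x with
  | zero => simp [NCF, endp]
  | succ n ih =>
    rw [sum_NCF_succ]
    have h1 : ∀ e : Inc3, (if ord3 (mv x e) then ∑ w ∈ NCF n (mv x e), Vd (endp x (e :: w)) else 0) =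
        8 ^ n * Vd (mv x e) := by
      intro e
      split_ifs with h
      · exact ih _ h
      · rw [Vd_zero hx e h]; simp
    rw [Finset.sum_congr rfl (fun e _ => h1 e), ← Finset.mul_sum, Vd_harm]
    ring

/-- the endpoint lies in a box -/
lemma endp_box (w : List Inc3) (x : ℤ × ℤ × ℤ) :
    (x.1 ≤ (endp x w).1 ∧ (endp x w).1 ≤ x.1 + w.length) ∧
    (x.2.1 ≤ (endp x w).2.1 ∧ (endp x w).2.1 ≤ x.2.1 + w.length) ∧
    (x.2.2 ≤ (endp x w).2.2 ∧ (endp x w).2.2 ≤ x.2.2 + w.length) := by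
  induction w generalizing x with
  | nil => simp [endp]
  | cons e w ih =>
    obtain ⟨⟨h1, h2⟩, ⟨h3, h4⟩, ⟨h5, h6⟩⟩ := ih (mv x e)
    obtain ⟨a, b, c⟩ := x
    obtain ⟨e1, e2, e3⟩ := e
    simp only [endp, mv, List.length_cons] at *
    have b1 : 0 ≤ bi e1 ∧ bi e1 ≤ 1 := by cases e1 <;> simp [bi]
    have b2 : 0 ≤ bi e2 ∧ bi e2 ≤ 1 := by cases e2 <;> simp [bi]
    have b3 : 0 ≤ bi e3 ∧ bi e3 ≤ 1 := by cases e3 <;> simp [bi]
    push_cast
    refine ⟨⟨by linarith, by linarith⟩, ⟨by linarith, by linarith⟩, by linarith, by linarith⟩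

def x0 : ℤ × ℤ × ℤ := (0, 1, 2)

lemma nc_end_ord {w : List Inc3} {x : ℤ × ℤ × ℤ} (hx : ord3 x) (h : nc x w) : ord3 (endp x w) := by
  induction w generalizing x with
  | nil => exact hx
  | cons e w ih => exact ih h.1 h.2

lemma Vd_le {n : ℕ} {w : List Inc3} (hw : w ∈ NCF n x0) : Vd (endp x0 w) ≤ (n + 2) ^ 3 := by
  obtain ⟨h1, h2⟩ := mem_NCF.mp hw
  have h3 := nc_end_ord (x := x0) (by decide) h2
  obtain ⟨⟨g1, g2⟩, ⟨g3, g4⟩, ⟨g5, g6⟩⟩ := endp_box w x0
  rw [h1] at g2 g4 g6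
  set y := endp x0 w
  obtain ⟨a, b, c⟩ := y
  simp only [ord3, x0, Vd] at *
  have k1 : 0 < b - a := by linarith
  have k2 : 0 < c - b := by linarith
  have k3 : 0 < c - a := by linarith
  have k4 : b - a ≤ n + 2 := by linarith
  have k5 : c - b ≤ n + 2 := by linarith
  have k6 : c - a ≤ n + 2 := by linarith
  calc (b - a) * (c - b) * (c - a) ≤ (n + 2) * (n + 2) * (n + 2) := by gcongr
    _ = (n + 2) ^ 3 := by ring

lemma card_NCF_ge (n : ℕ) : (2 : ℤ) * 8 ^ n ≤ (n + 2) ^ 3 * (NCF n x0).card := by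
  have h1 := sum_Vd n x0 (by decide)
  have h2 : ∑ w ∈ NCF n x0, Vd (endp x0 w) ≤ ∑ _w ∈ NCF n x0, ((n:ℤ) + 2) ^ 3 :=
    Finset.sum_le_sum fun w hw => Vd_le hw
  rw [h1, Finset.sum_const, nsmul_eq_mul] at h2
  have h3 : Vd x0 = 2 := by decide
  rw [h3] at h2
  linarith

/-- complement of an increment -/
def cp (e : Inc3) : Inc3 := (!e.1, !e.2.1, !e.2.2)

lemma bi_not (b : Bool) : bi (!b) = 1 - bi b := by cases b <;> simp [bi]

/-- reversed complement -/
def rc (w : List Inc3) : List Inc3 := (w.map cp).reverse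

lemma endp_append (x : ℤ × ℤ × ℤ) (u v : List Inc3) : endp x (u ++ v) = endp (endp x u) v := by
  induction u generalizing x with
  | nil => rfl
  | cons e u ih => exact ih _

lemma nc_append (x : ℤ × ℤ × ℤ) (u v : List Inc3) :
    nc x (u ++ v) ↔ nc x u ∧ nc (endp x u) v := by
  induction u generalizing x with
  | nil => simp [nc, endp]
  | cons e u ih => simp [nc, endp, ih, and_assoc]

def addAll (x : ℤ × ℤ × ℤ) (k : ℤ) : ℤ × ℤ × ℤ := (x.1 + k, x.2.1 + k, x.2.2 + k)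

lemma rc_prop (w : List Inc3) (x : ℤ × ℤ × ℤ) (hx : ord3 x) (h : nc x w) :
    nc (endp x w) (rc w) ∧ endp (endp x w) (rc w) = addAll x w.length := by
  induction w generalizing x with
  | nil => simp [nc, rc, endp, addAll]
  | cons e w ih =>
    obtain ⟨h1, h2⟩ := ih (mv x e) h.1 h.2
    have e1 : rc (e :: w) = rc w ++ [cp e] := by simp [rc]
    have e2 : endp x (e :: w) = endp (mv x e) w := rfl
    rw [e1, e2, nc_append, endp_append, h2]
    have e3 : mv (addAll (mv x e) w.length) (cp e) = addAll x (w.length + 1) := by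
      obtain ⟨a, b, c⟩ := x
      simp only [mv, addAll, cp, bi_not, Prod.mk.injEq]
      refine ⟨by ring, by ring, by ring⟩
    constructor
    · refine ⟨h1, ?_, trivial⟩
      rw [e3]
      simp only [ord3, addAll] at *
      exact ⟨by linarith [hx.1], by linarith [hx.2]⟩
    · simp only [endp]
      rw [e3]
      simp [addAll]

/-- non-colliding paths returning to the shifted starting position -/
def Loops (n : ℕ) : Finset (List Inc3) :=
  (NCF (2 * n) x0).filter (fun w => endp x0 w = addAll x0 n)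

lemma sq_le_Loops (n : ℕ) (y : ℤ × ℤ × ℤ) :
    ((NCF n x0).filter (fun w => endp x0 w = y)).card ^ 2 ≤ (Loops n).card := by
  set A := (NCF n x0).filter (fun w => endp x0 w = y) with hA
  rw [pow_two, ← Finset.card_product]
  apply Finset.card_le_card_of_injOn (fun p => p.1 ++ rc p.2)
  · rintro ⟨u, v⟩ hp
    simp only [Finset.coe_product, Set.mem_prod, Finset.mem_coe, hA, Finset.mem_filter, mem_NCF] at hp
    obtain ⟨⟨⟨u1, u2⟩, u3⟩, ⟨v1, v2⟩, v3⟩ := hp
    obtain ⟨r1, r2⟩ := rc_prop v x0 (by decide) v2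
    simp only [Loops, Finset.coe_filter, Set.mem_ofPred_eq, mem_NCF, nc_append, endp_append]
    refine ⟨⟨?_, u2, ?_⟩, ?_⟩
    · simp [rc, u1, v1]; ring
    · rw [u3, ← v3]; exact r1
    · rw [u3, ← v3, r2, v1]
  · rintro ⟨u, v⟩ hp ⟨u', v'⟩ hp' h
    simp only [Finset.coe_product, Set.mem_prod, Finset.mem_coe, hA, Finset.mem_filter, mem_NCF] at hp hp'
    have h1 : u.length = u'.length := by rw [hp.1.1.1, hp'.1.1.1]
    simp only at h
    obtain ⟨h2, h3⟩ := List.append_inj h h1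
    have hcp : Function.Injective cp := by
      rintro ⟨a, b, c⟩ ⟨a', b', c'⟩ h
      simp only [cp, Prod.mk.injEq] at h
      obtain ⟨k1, k2, k3⟩ := h
      rw [Bool.not_inj k1, Bool.not_inj k2, Bool.not_inj k3]
    have h4 : v = v' := by
      simp only [rc, List.reverse_inj] at h3
      exact List.map_injective_iff.mpr hcp h3
    rw [h2, h4]

/-- **Lower bound for the number of loops** -/
theorem Loops_ge (n : ℕ) : (8:ℝ) ^ (2 * n) ≤ (n + 2) ^ 12 * (Loops n).card := by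
  classical
  -- image of the endpoint map
  set S := (NCF n x0).image (endp x0) with hS
  have hScard : S.card ≤ (n + 1) ^ 3 := by
    have h1 : S ⊆ (Finset.Icc (0:ℤ) n) ×ˢ ((Finset.Icc (1:ℤ) (1 + n)) ×ˢ (Finset.Icc (2:ℤ) (2 + n))) := by
      intro y hy
      obtain ⟨w, hw, rfl⟩ := Finset.mem_image.mp hy
      obtain ⟨h1, h2⟩ := mem_NCF.mp hw
      obtain ⟨⟨g1, g2⟩, ⟨g3, g4⟩, ⟨g5, g6⟩⟩ := endp_box w x0
      rw [h1] at g2 g4 g6
      have c1 : x0.1 = 0 := rfl
      have c2 : x0.2.1 = 1 := rfl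
      have c3 : x0.2.2 = 2 := rfl
      rw [c1] at g1 g2
      rw [c2] at g3 g4
      rw [c3] at g5 g6
      simp only [Finset.mem_product, Finset.mem_Icc]
      exact ⟨⟨g1, by linarith⟩, ⟨g3, g4⟩, g5, g6⟩
    refine (Finset.card_le_card h1).trans ?_
    rw [Finset.card_product, Finset.card_product]
    simp only [Int.card_Icc]
    have e1 : ((n:ℤ) + 1 - 0).toNat = n + 1 := by omega
    have e2 : (1 + (n:ℤ) + 1 - 1).toNat = n + 1 := by omega
    have e3 : (2 + (n:ℤ) + 1 - 2).toNat = n + 1 := by omega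
    rw [e1, e2, e3]
    apply le_of_eq; ring
  -- the largest fibre
  obtain ⟨K, hK, hKmax⟩ : ∃ K : ℕ, K ^ 2 ≤ (Loops n).card ∧
      ∀ y ∈ S, ((NCF n x0).filter (fun w => endp x0 w = y)).card ≤ K := by
    by_cases hne : S.Nonempty
    · obtain ⟨y, hy, hmax⟩ := Finset.exists_max_image S
        (fun y => ((NCF n x0).filter (fun w => endp x0 w = y)).card) hne
      exact ⟨_, sq_le_Loops n y, hmax⟩
    · rw [Finset.not_nonempty_iff_eq_empty] at hne
      exact ⟨0, by simp, by simp [hne]⟩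
  have h2 : (NCF n x0).card ≤ K * S.card := Finset.card_le_mul_card_image _ _ hKmax
  have h3 := card_NCF_ge n
  have h3' : (2:ℝ) * 8 ^ n ≤ (n + 2) ^ 3 * (NCF n x0).card := by exact_mod_cast h3
  have h4 : ((NCF n x0).card : ℝ) ≤ K * (n + 1) ^ 3 := by
    have : (NCF n x0).card ≤ K * (n + 1) ^ 3 := h2.trans (Nat.mul_le_mul_left _ hScard)
    exact_mod_cast this
  have h5 : (8:ℝ) ^ n ≤ (n + 2) ^ 6 * K := by
    calc (8:ℝ) ^ n ≤ 2 * 8 ^ n := by linarith [pow_pos (by norm_num : (0:ℝ) < 8) n]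
      _ ≤ (n + 2) ^ 3 * (NCF n x0).card := h3'
      _ ≤ (n + 2) ^ 3 * (K * (n + 1) ^ 3) := by gcongr
      _ ≤ (n + 2) ^ 3 * (K * (n + 2) ^ 3) := by gcongr; norm_num
      _ = (n + 2) ^ 6 * K := by ring
  have h6 : ((K:ℝ)) ^ 2 ≤ (Loops n).card := by exact_mod_cast hK
  calc (8:ℝ) ^ (2 * n) = (8 ^ n) ^ 2 := by rw [mul_comm, pow_mul]
    _ ≤ ((n + 2) ^ 6 * K) ^ 2 := by gcongr
    _ = (n + 2) ^ 12 * (K:ℝ) ^ 2 := by ring
    _ ≤ _ := by gcongr

end Pool.Agent.BaxterLIS
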