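import Pool.Agent.BaxterLIS.Inj
import Pool.Agent.BaxterLIS.Triples

/-!
From non-colliding triples of lattice paths to valid words of the stack machine.
-/

namespace Pool.Agent.BaxterLIS

open Mode
open scoped List

def lead (x : Bool) : List Bool → ℕ
  | [] => 0
  | y :: l => if y = x then lead x l + 1 else 0

def rest (x : Bool) : List Bool → List Bool
  | [] => []
  | y :: l => if y = x then rest x l else l

lemma lead_rest {x : Bool} {l : List Bool} (h : (!x) ∈ l) :
    l = List.replicate (lead x l) x ++ (!x) :: rest x l := by
  induction l with
  | nil => simp at h
  | cons y l ih =>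
    by_cases hy : y = x
    · subst hy
      have h' : (!y) ∈ l := by
        rcases List.mem_cons.mp h with h | h
        · cases y <;> simp at h
        · exact h
      have h2 := ih h'
      simp only [lead, rest, if_true, List.replicate_succ, List.cons_append]
      exact congrArg (List.cons y) h2
    · have h1 : y = !x := by cases x <;> cases y <;> simp_all
      simp only [lead, rest, if_neg hy, List.replicate_zero, List.nil_append]
      rw [h1]

/-- domination of partial counts -/
def Dom (x : Bool) (α γ : List Bool) : Prop :=
  α.length = γ.length ∧ ∀ k, (α.take k).count x ≤ (γ.take k).count x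

lemma count_take_replicate (x : Bool) (Y k : ℕ) (l : List Bool) :
    ((List.replicate Y x ++ l).take k).count x = min k Y + (l.take (k - Y)).count x := by
  rw [List.take_append, List.count_append, List.take_replicate, List.length_replicate,
    List.count_replicate_self]

lemma count_take_cons_not (x : Bool) (k : ℕ) (l : List Bool) :
    (((!x) :: l).take k).count x = (l.take (k - 1)).count x := by
  cases k with
  | zero => simp
  | succ k =>
    simp only [List.take_succ_cons, Nat.add_sub_cancel]
    rw [List.count_cons_of_ne]
    cases x <;> simp

lemma dom_mem {x : Bool} {β τ : List Bool} {Y : ℕ}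
    (h : Dom x β (List.replicate Y x ++ (!x) :: τ)) : (!x) ∈ β := by
  by_contra hc
  have h1 : β.count x = β.length := by
    rw [List.count_eq_length]
    intro b hb
    by_contra hne
    apply hc
    have : b = !x := by cases x <;> cases b <;> simp_all
    rw [← this]; exact hb
  have h2 := h.2 β.length
  rw [List.take_length, h1, h.1, List.take_length] at h2
  rw [List.count_append, List.count_replicate_self, List.count_cons_of_ne (by cases x <;> simp)] at h2
  simp only [List.length_append, List.length_replicate, List.length_cons] at h2
  have := List.count_le_length (a := x) (l := τ)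
  omega

lemma dom_step {x : Bool} {β' τ : List Bool} {b Y : ℕ}
    (h : Dom x (List.replicate b x ++ (!x) :: β') (List.replicate Y x ++ (!x) :: τ)) :
    b ≤ Y ∧ Dom x β' (List.replicate (Y - b) x ++ τ) := by
  have hb : b ≤ Y := by
    by_contra hc
    push Not at hc
    have h1 := h.2 (Y + 1)
    rw [count_take_replicate, count_take_replicate, count_take_cons_not, count_take_cons_not] at h1
    have e1 : min (Y + 1) b = Y + 1 := by omega
    have e2 : min (Y + 1) Y = Y := by omega
    have e3 : Y + 1 - b - 1 = 0 := by omega
    have e4 : Y + 1 - Y - 1 = 0 := by omega
    rw [e1, e2, e3, e4] at h1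
    simp at h1
  refine ⟨hb, ?_, ?_⟩
  · have := h.1
    simp only [List.length_append, List.length_replicate, List.length_cons] at this ⊢
    omega
  · intro k
    have h1 := h.2 (b + 1 + k)
    rw [count_take_replicate, count_take_replicate, count_take_cons_not, count_take_cons_not] at h1
    rw [count_take_replicate]
    have e1 : min (b + 1 + k) b = b := by omega
    have e2 : b + 1 + k - b - 1 = k := by omega
    have e3 : b + 1 + k - Y - 1 = k - (Y - b) := by omega
    rw [e1, e2, e3] at h1
    have h2 : (β'.take k).count x ≤ k :=
      List.count_le_length.trans (by rw [List.length_take]; exact min_le_left _ _)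
    by_cases hc : b + 1 + k ≤ Y
    · have : min k (Y - b) = k := by omega
      omega
    · have f1 : min (b + 1 + k) Y = Y := by omega
      have f2 : min k (Y - b) = Y - b := by omega
      rw [f1] at h1; rw [f2]; omega

lemma dom_shift {x : Bool} {α τ : List Bool} {X : ℕ}
    (h : Dom x α (List.replicate X x ++ x :: τ)) : Dom x α (List.replicate (X + 1) x ++ τ) := by
  have : List.replicate X x ++ x :: τ = List.replicate (X + 1) x ++ τ := by
    rw [List.replicate_succ']; simp
  rwa [this] at h

/-- the word of the machine coded by a triple -/
def conv : List Bool → List Bool → List Bool → List Bool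
  | [], _, _ => []
  | true :: τ, α, β =>
      true :: ((List.replicate (lead false β) true ++ [false]) ++ conv τ α (rest false β))
  | false :: τ, α, β =>
      false :: ((List.replicate (lead true α) true ++ [false]) ++ conv τ (rest true α) β)

lemma conv_run (τ α β : List Bool) (left right : List (List ℕ)) (n : ℕ)
    (hα : Dom true α (List.replicate left.length true ++ τ))
    (hβ : Dom false β (List.replicate right.length false ++ τ)) :
    ∃ s', Run ⟨I, left, right, n⟩ (conv τ α β) s' ∧ s'.mode = I ∧ s'.n = n + τ.length := by
  induction τ generalizing α β left right n with
  | nil => exact ⟨⟨I, left, right, n⟩, Run.nil _, rfl, rfl⟩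
  | cons t τ ih =>
    cases t with
    | true =>
      have hm : (!false) ∈ β := dom_mem (x := false) hβ
      have hdec := lead_rest hm
      rw [hdec] at hβ
      obtain ⟨hb, hβ'⟩ := dom_step (x := false) hβ
      have hα' := dom_shift hα
      have hrun := run_popR [n - 1] left right n (lead false β) hb
      obtain ⟨s', h1, h2, h3⟩ := ih α (rest false β)
        (([n - 1] ++ (right.take (lead false β)).flatten) :: left) (right.drop (lead false β)) (n + 1)
        (by simpa using hα') (by simpa using hβ')
      refine ⟨s', ?_, h2, ?_⟩
      · refine Run.cons (Or.inl rfl) ?_
        exact run_append hrun h1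
      · rw [h3]; simp; ring
    | false =>
      have hm : (!true) ∈ α := dom_mem (x := true) hα
      have hdec := lead_rest hm
      rw [hdec] at hα
      obtain ⟨ha, hα'⟩ := dom_step (x := true) hα
      have hβ' := dom_shift hβ
      have hrun := run_popL left [n - 1] right n (lead true α) ha
      obtain ⟨s', h1, h2, h3⟩ := ih (rest true α) β
        (left.drop (lead true α)) (((left.take (lead true α)).reverse.flatten ++ [n - 1]) :: right) (n + 1)
        (by simpa using hα') (by simpa using hβ')
      refine ⟨s', ?_, h2, ?_⟩
      · refine Run.cons (Or.inl rfl) ?_
        exact run_append hrun h1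
      · rw [h3]; simp; ring

lemma replicate_true_inj {a b : ℕ} {u v : List Bool}
    (h : (List.replicate a true ++ [false]) ++ u = (List.replicate b true ++ [false]) ++ v) :
    a = b ∧ u = v := by
  induction a generalizing b with
  | zero =>
    cases b with
    | zero => simpa using h
    | succ b => simp [List.replicate_succ] at h
  | succ a ih =>
    cases b with
    | zero => simp [List.replicate_succ] at h
    | succ b =>
      simp only [List.replicate_succ, List.cons_append, List.cons.injEq, true_and] at h
      obtain ⟨h1, h2⟩ := ih h
      exact ⟨by rw [h1], h2⟩

lemma eq_of_count_zero {x : Bool} {α α' : List Bool} (h : α.length = α'.length)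
    (h1 : α.count (!x) = 0) (h2 : α'.count (!x) = 0) : α = α' := by
  have key : ∀ l : List Bool, l.count (!x) = 0 → l = List.replicate l.length x := by
    intro l hl
    rw [List.eq_replicate_iff]
    refine ⟨rfl, fun b hb => ?_⟩
    by_contra hne
    have : b = !x := by cases x <;> cases b <;> simp_all
    rw [List.count_eq_zero] at hl
    apply hl; rw [← this]; exact hb
  rw [key α h1, key α' h2, h]

lemma conv_inj (τ α β τ' α' β' : List Bool) (h : conv τ α β = conv τ' α' β')
    (la : α.length = α'.length) (lb : β.length = β'.length)
    (ca : α.count false = τ.count false) (ca' : α'.count false = τ'.count false)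
    (cb : β.count true = τ.count true) (cb' : β'.count true = τ'.count true) :
    τ = τ' ∧ α = α' ∧ β = β' := by
  induction τ generalizing τ' α α' β β' with
  | nil =>
    cases τ' with
    | nil =>
      refine ⟨rfl, ?_, ?_⟩
      · exact eq_of_count_zero (x := true) la (by simpa using ca) (by simpa using ca')
      · exact eq_of_count_zero (x := false) lb (by simpa using cb) (by simpa using cb')
    | cons t τ' => cases t <;> simp [conv] at h
  | cons t τ ih =>
    cases τ' with
    | nil => cases t <;> simp [conv] at h
    | cons t' τ' =>
      cases t <;> cases t'
      · -- both false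
        simp only [conv, List.cons.injEq, true_and] at h
        obtain ⟨h1, h2⟩ := replicate_true_inj h
        have m1 : (!true) ∈ α := by
          rw [← List.count_pos_iff (a := (!true))]
          have := ca
          simp only [List.count_cons_self, Bool.not_true] at this ⊢
          omega
        have m2 : (!true) ∈ α' := by
          rw [← List.count_pos_iff (a := (!true))]
          have := ca'
          simp only [List.count_cons_self, Bool.not_true] at this ⊢
          omega
        have d1 := lead_rest m1
        have d2 := lead_rest m2
        have l1 : (rest true α).length = (rest true α').length := by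
          have e1 := congrArg List.length d1
          have e2 := congrArg List.length d2
          simp only [List.length_append, List.length_replicate, List.length_cons] at e1 e2
          omega
        have c1 : (rest true α).count false = τ.count false := by
          have e1 := congrArg (List.count false) d1
          rw [List.count_append, List.count_replicate] at e1
          simp at e1 ca
          omega
        have c2 : (rest true α').count false = τ'.count false := by
          have e1 := congrArg (List.count false) d2
          rw [List.count_append, List.count_replicate] at e1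
          simp at e1 ca'
          omega
        obtain ⟨r1, r2, r3⟩ := ih _ _ _ _ _ h2 l1 lb c1 c2 (by simpa using cb) (by simpa using cb')
        refine ⟨by rw [r1], ?_, r3⟩
        rw [d1, d2, h1, r2]
      · simp [conv] at h
      · simp [conv] at h
      · -- both true
        simp only [conv, List.cons.injEq, true_and] at h
        obtain ⟨h1, h2⟩ := replicate_true_inj h
        have m1 : (!false) ∈ β := by
          rw [← List.count_pos_iff (a := (!false))]
          have := cb
          simp only [List.count_cons_self, Bool.not_false] at this ⊢
          omega
        have m2 : (!false) ∈ β' := by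
          rw [← List.count_pos_iff (a := (!false))]
          have := cb'
          simp only [List.count_cons_self, Bool.not_false] at this ⊢
          omega
        have d1 := lead_rest m1
        have d2 := lead_rest m2
        have l1 : (rest false β).length = (rest false β').length := by
          have e1 := congrArg List.length d1
          have e2 := congrArg List.length d2
          simp only [List.length_append, List.length_replicate, List.length_cons] at e1 e2
          omega
        have c1 : (rest false β).count true = τ.count true := by
          have e1 := congrArg (List.count true) d1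
          rw [List.count_append, List.count_replicate] at e1
          simp at e1 cb
          omega
        have c2 : (rest false β').count true = τ'.count true := by
          have e1 := congrArg (List.count true) d2
          rw [List.count_append, List.count_replicate] at e1
          simp at e1 cb'
          omega
        obtain ⟨r1, r2, r3⟩ := ih _ _ _ _ _ h2 la l1 (by simpa using ca) (by simpa using ca') c1 c2
        refine ⟨by rw [r1], r2, ?_⟩
        rw [d1, d2, h1, r3]

/-- components of a list of increments -/
def cA (w : List Inc3) : List Bool := w.map (fun e => e.1)
def cT (w : List Inc3) : List Bool := w.map (fun e => e.2.1)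
def cB (w : List Inc3) : List Bool := w.map (fun e => e.2.2)

lemma comp_inj {w w' : List Inc3} (h1 : cA w = cA w') (h2 : cT w = cT w') (h3 : cB w = cB w') :
    w = w' := by
  induction w generalizing w' with
  | nil => cases w' with
    | nil => rfl
    | cons e w' => simp [cA] at h1
  | cons e w ih => cases w' with
    | nil => simp [cA] at h1
    | cons e' w' =>
      simp only [cA, cT, cB, List.map_cons, List.cons.injEq] at h1 h2 h3
      rw [ih h1.2 h2.2 h3.2]
      obtain ⟨a, b, c⟩ := e
      obtain ⟨a', b', c'⟩ := e'
      simp only at h1 h2 h3
      rw [h1.1, h2.1, h3.1]

lemma endp_eq (w : List Inc3) (x : ℤ × ℤ × ℤ) :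
    endp x w = (x.1 + ((cA w).count true : ℕ), x.2.1 + ((cT w).count true : ℕ),
      x.2.2 + ((cB w).count true : ℕ)) := by
  induction w generalizing x with
  | nil => simp [endp, cA, cT, cB]
  | cons e w ih =>
    obtain ⟨a, b, c⟩ := e
    simp only [endp, ih, mv, cA, cT, cB, List.map_cons]
    have key : ∀ (b : Bool) (l : List Bool), ((List.count true (b :: l) : ℕ) : ℤ) =
        bi b + (List.count true l : ℕ) := by
      intro b l
      cases b
      · simp [bi]
      · simp [bi]; ring
    rw [key, key, key]
    simp only [add_assoc]

lemma count_true_false (l : List Bool) : l.count true + l.count false = l.length :=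
  List.count_true_add_count_false l

lemma loops_prop {ℓ : ℕ} {w : List Inc3} (hw : w ∈ Loops ℓ) :
    (cT w).length = 2 * ℓ ∧ (cA w).length = 2 * ℓ ∧ (cB w).length = 2 * ℓ ∧
    Dom true (cA w) (cT w) ∧ Dom false (cB w) (cT w) ∧
    (cA w).count true = ℓ ∧ (cT w).count true = ℓ ∧ (cB w).count true = ℓ := by
  simp only [Loops, Finset.mem_filter, mem_NCF] at hw
  obtain ⟨⟨h1, h2⟩, h3⟩ := hw
  have lA : (cA w).length = 2 * ℓ := by simp [cA, h1]
  have lT : (cT w).length = 2 * ℓ := by simp [cT, h1]
  have lB : (cB w).length = 2 * ℓ := by simp [cB, h1]
  have hpre : ∀ k, ((cA w).take k).count true ≤ ((cT w).take k).count true ∧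
      ((cT w).take k).count true ≤ ((cB w).take k).count true := by
    intro k
    have h4 : nc x0 (w.take k) := by
      have : w = w.take k ++ w.drop k := (List.take_append_drop k w).symm
      rw [this, nc_append] at h2
      exact h2.1
    have h5 := nc_end_ord (x := x0) (by decide) h4
    rw [endp_eq] at h5
    have e1 : cA (w.take k) = (cA w).take k := by simp [cA, List.map_take]
    have e2 : cT (w.take k) = (cT w).take k := by simp [cT, List.map_take]
    have e3 : cB (w.take k) = (cB w).take k := by simp [cB, List.map_take]
    rw [e1, e2, e3] at h5
    simp only [ord3, x0] at h5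
    omega
  rw [endp_eq] at h3
  simp only [x0, addAll, Prod.mk.injEq] at h3
  refine ⟨lT, lA, lB, ⟨by rw [lA, lT], fun k => (hpre k).1⟩, ⟨by rw [lB, lT], fun k => ?_⟩,
    by omega, by omega, by omega⟩
  have g1 := count_true_false ((cB w).take k)
  have g2 := count_true_false ((cT w).take k)
  rw [List.length_take, lB] at g1
  rw [List.length_take, lT] at g2
  have := (hpre k).2
  omega

/-- code of a loop -/
def code (w : List Inc3) : List Bool := conv (cT w) (cA w) (cB w)

lemma code_run {ℓ : ℕ} {w : List Inc3} (hw : w ∈ Loops ℓ) :
    ∃ s', Run init (code w) s' ∧ s'.mode = I ∧ s'.n = 2 * ℓ + 1 := by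
  obtain ⟨h1, h2, h3, h4, h5, h6, h7, h8⟩ := loops_prop hw
  obtain ⟨s', r1, r2, r3⟩ := conv_run (cT w) (cA w) (cB w) [] [] 1 (by simpa using h4) (by simpa using h5)
  exact ⟨s', r1, r2, by rw [r3, h1]; ring⟩

lemma code_inj {ℓ : ℕ} {w w' : List Inc3} (hw : w ∈ Loops ℓ) (hw' : w' ∈ Loops ℓ)
    (h : code w = code w') : w = w' := by
  obtain ⟨h1, h2, h3, h4, h5, h6, h7, h8⟩ := loops_prop hw
  obtain ⟨h1', h2', h3', h4', h5', h6', h7', h8'⟩ := loops_prop hw'
  have a1 := count_true_false (cA w)
  have a2 := count_true_false (cT w)
  have a3 := count_true_false (cA w')
  have a4 := count_true_false (cT w')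
  obtain ⟨r1, r2, r3⟩ := conv_inj _ _ _ _ _ _ h (by omega) (by omega) (by omega) (by omega)
    (by omega) (by omega)
  exact comp_inj r2 r1 r3

end Pool.Agent.BaxterLIS
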