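import Pool.Agent.BaxterLIS.Inj

/-!
Permutations of `Fin n` and their arrangements (list of indices sorted by value).
-/

namespace Pool.Agent.BaxterLIS

open Mode
open scoped List

/-- the arrangement of a permutation: the indices listed by increasing value -/
def PL {n : ℕ} (σ : Equiv.Perm (Fin n)) : List ℕ := (List.finRange n).map (fun v => ((σ.symm v : Fin n) : ℕ))

/-- Baxter permutations, as in the problem -/
def IsBaxter (n : ℕ) (σ : Equiv.Perm (Fin n)) : Prop :=
  ∀ i j j' k : Fin n, i < j → (j' : ℕ) = (j : ℕ) + 1 → j' < k →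
    ¬ (σ j' < σ i ∧ σ i < σ k ∧ σ k < σ j) ∧ ¬ (σ j < σ k ∧ σ k < σ i ∧ σ i < σ j')

lemma PL_perm {n : ℕ} (σ : Equiv.Perm (Fin n)) : (PL σ).Perm (List.range n) := by
  unfold PL
  have h1 : ((List.finRange n).map σ.symm).Perm (List.finRange n) := by
    rw [List.perm_ext_iff_of_nodup]
    · intro a
      simp only [List.mem_map, List.mem_finRange, true_and, iff_true]
      exact ⟨σ a, by simp⟩
    · exact (List.nodup_finRange n).map σ.symm.injective
    · exact List.nodup_finRange n
  have h2 := h1.map (fun x : Fin n => (x : ℕ))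
  rw [List.map_map] at h2
  have h3 : (List.finRange n).map (fun x : Fin n => (x : ℕ)) = List.range n := by
    apply List.ext_getElem
    · simp
    · intro i h1 h2; simp
  rw [h3] at h2
  exact h2

lemma PL_inj {n : ℕ} {σ τ : Equiv.Perm (Fin n)} (h : PL σ = PL τ) : σ = τ := by
  unfold PL at h
  rw [List.map_inj_left] at h
  have h1 : σ.symm = τ.symm := by
    ext v
    exact h v (List.mem_finRange v)
  have h2 := congrArg Equiv.symm h1
  simpa using h2

lemma PL_surj {n : ℕ} {A : List ℕ} (hA : A.Perm (List.range n)) :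
    ∃ σ : Equiv.Perm (Fin n), PL σ = A := by
  have hl : A.length = n := by rw [hA.length_eq, List.length_range]
  have hnd : A.Nodup := hA.nodup_iff.mpr List.nodup_range
  have hlt : ∀ i (hi : i < A.length), A[i] < n := by
    intro i hi
    have := hA.subset (List.getElem_mem hi)
    simpa using this
  let g : Fin n → Fin n := fun v => ⟨A[(v : ℕ)]'(by rw [hl]; exact v.2), hlt _ _⟩
  have hg : Function.Injective g := by
    intro v w h
    simp only [g, Fin.mk.injEq] at h
    have := (List.Nodup.getElem_inj_iff hnd).mp h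
    exact Fin.ext this
  have hb : Function.Bijective g := Finite.injective_iff_bijective.mp hg
  refine ⟨(Equiv.ofBijective g hb).symm, ?_⟩
  unfold PL
  apply List.ext_getElem
  · simp [hl]
  · intro i h1 h2
    simp [g]

/-- order of two labels in the arrangement -/
def Ord {n : ℕ} (σ : Equiv.Perm (Fin n)) (a b : ℕ) : Prop :=
  ∀ (ha : a < n) (hb : b < n), σ ⟨a, ha⟩ < σ ⟨b, hb⟩

lemma PL_pairwise {n : ℕ} (σ : Equiv.Perm (Fin n)) : (PL σ).Pairwise (Ord σ) := by
  unfold PL
  rw [List.pairwise_map]
  apply List.Pairwise.imp _ (List.pairwise_lt_finRange n)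
  intro a b hab _ _
  simpa using hab

lemma sublist_PL_of_pairwise {n : ℕ} (σ : Equiv.Perm (Fin n)) (c : List (Fin n))
    (hc : c.Pairwise (fun a b => σ a < σ b)) : c.map (fun x : Fin n => (x : ℕ)) <+ PL σ := by
  have h1 : (c.map σ).Pairwise (· < ·) := by rw [List.pairwise_map]; exact hc
  have h2 : (c.map σ) <+ List.finRange n := by
    apply List.sublist_of_subperm_of_pairwise (r := (· < ·)) _ h1 (List.pairwise_lt_finRange n)
    apply List.Nodup.subperm
    · exact h1.imp (fun h => ne_of_lt h)
    · intro a _; exact List.mem_finRange a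
  have h3 := h2.map (fun v => ((σ.symm v : Fin n) : ℕ))
  rw [List.map_map] at h3
  have h4 : (fun v => ((σ.symm v : Fin n) : ℕ)) ∘ σ = (fun x : Fin n => (x : ℕ)) := by
    funext x; simp
  rw [h4] at h3
  exact h3

lemma baxter_iff {n : ℕ} (σ : Equiv.Perm (Fin n)) : IsBaxter n σ ↔ BaxL (PL σ) := by
  constructor
  · intro h i j k hij hjk
    constructor
    · intro hs
      have hmem : ∀ x ∈ [j + 1, i, k, j], x < n := by
        intro x hx
        have := (PL_perm σ).subset (hs.subset hx)
        simpa using this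
      have hp := (PL_pairwise σ).sublist hs
      have hj1 : j + 1 < n := hmem _ (by simp)
      have hi : i < n := hmem _ (by simp)
      have hk : k < n := hmem _ (by simp)
      have hj : j < n := hmem _ (by simp)
      simp only [List.pairwise_cons, List.mem_cons, List.not_mem_nil, or_false, forall_eq_or_imp,
        forall_eq] at hp
      obtain ⟨⟨p1, p2, p3⟩, ⟨p4, p5⟩, p6, _⟩ := hp
      exact (h ⟨i, hi⟩ ⟨j, hj⟩ ⟨j + 1, hj1⟩ ⟨k, hk⟩ hij rfl hjk).1
        ⟨p1 hj1 hi, p4 hi hk, p6 hk hj⟩
    · intro hs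
      have hmem : ∀ x ∈ [j, k, i, j + 1], x < n := by
        intro x hx
        have := (PL_perm σ).subset (hs.subset hx)
        simpa using this
      have hp := (PL_pairwise σ).sublist hs
      have hj1 : j + 1 < n := hmem _ (by simp)
      have hi : i < n := hmem _ (by simp)
      have hk : k < n := hmem _ (by simp)
      have hj : j < n := hmem _ (by simp)
      simp only [List.pairwise_cons, List.mem_cons, List.not_mem_nil, or_false, forall_eq_or_imp,
        forall_eq] at hp
      obtain ⟨⟨p1, p2, p3⟩, ⟨p4, p5⟩, p6, _⟩ := hp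
      exact (h ⟨i, hi⟩ ⟨j, hj⟩ ⟨j + 1, hj1⟩ ⟨k, hk⟩ hij rfl hjk).2
        ⟨p1 hj hk, p4 hk hi, p6 hi hj1⟩
  · intro h i j j' k hij hj' hjk
    have hjk' : (j : ℕ) + 1 < k := by rw [← hj']; exact hjk
    obtain ⟨h1, h2⟩ := h i j k hij hjk'
    constructor
    · rintro ⟨a1, a2, a3⟩
      apply h1
      have := sublist_PL_of_pairwise σ [j', i, k, j] (by
        simp only [List.pairwise_cons, List.mem_cons, List.not_mem_nil, or_false, forall_eq_or_imp,
          forall_eq]
        refine ⟨⟨a1, a1.trans a2, a1.trans (a2.trans a3)⟩, ⟨a2, a2.trans a3⟩, a3, ?_⟩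
        simp)
      simpa [hj'] using this
    · rintro ⟨a1, a2, a3⟩
      apply h2
      have := sublist_PL_of_pairwise σ [j, k, i, j'] (by
        simp only [List.pairwise_cons, List.mem_cons, List.not_mem_nil, or_false, forall_eq_or_imp,
          forall_eq]
        refine ⟨⟨a1, a1.trans a2, a1.trans (a2.trans a3)⟩, ⟨a2, a2.trans a3⟩, a3, ?_⟩
        simp)
      simpa [hj'] using this

/-- an increasing chain of labels in the arrangement gives an increasing subsequence -/
lemma chain_to_finset {n : ℕ} (σ : Equiv.Perm (Fin n)) {c : List ℕ} (hs : c <+ PL σ)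
    (hc : c.Pairwise (· < ·)) : ∃ s : Finset (Fin n), StrictMonoOn (fun i => σ i) (s : Set (Fin n)) ∧
      s.card = c.length := by
  have hlt : ∀ x ∈ c, x < n := by
    intro x hx
    have := (PL_perm σ).subset (hs.subset hx)
    simpa using this
  have hp := (PL_pairwise σ).sublist hs
  let c' : List (Fin n) := c.pmap (fun x hx => (⟨x, hx⟩ : Fin n)) hlt
  have hmap : c'.map (fun x : Fin n => (x : ℕ)) = c := by
    simp [c', List.map_pmap]
  have hnd : c'.Nodup := by
    apply List.Nodup.of_map (fun x : Fin n => (x : ℕ))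
    rw [hmap]
    exact hc.imp (fun h => ne_of_lt h)
  refine ⟨c'.toFinset, ?_, ?_⟩
  · intro a ha b hb hab
    simp only [List.coe_toFinset, Set.mem_ofPred_eq] at ha hb
    have h1 : c'.Pairwise (fun x y : Fin n => x < y ∧ σ x < σ y) := by
      have h2 : (c'.map (fun x : Fin n => (x : ℕ))).Pairwise (fun x y => x < y ∧ Ord σ x y) := by
        rw [hmap]
        exact hc.and hp
      rw [List.pairwise_map] at h2
      apply h2.imp
      rintro ⟨x, hx⟩ ⟨y, hy⟩ ⟨g1, g2⟩
      exact ⟨g1, g2 hx hy⟩
    -- symmetric relation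
    let S : Fin n → Fin n → Prop := fun x y => (x < y → σ x < σ y) ∧ (y < x → σ y < σ x)
    have h3 : c'.Pairwise S := by
      apply h1.imp
      rintro x y ⟨g1, g2⟩
      exact ⟨fun _ => g2, fun g3 => absurd g3 (not_lt.mpr g1.le)⟩
    have : Std.Symm S := ⟨fun x y h => ⟨h.2, h.1⟩⟩
    exact (h3.forall ha hb (ne_of_lt hab)).1 hab
  · rw [List.toFinset_card_of_nodup hnd]
    simp [c']

end Pool.Agent.BaxterLIS
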