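import Pool.Agent.BaxterLIS.Length
import Pool.Agent.BaxterLIS.PermList
import Pool.Agent.BaxterLIS.Conv

/-!
Counting Baxter permutations, and Baxter permutations without long increasing subsequences.
-/

namespace Pool.Agent.BaxterLIS

open Mode
open scoped List

lemma card_le_baxter {n : ℕ} (T : Finset (List Bool))
    (hT : ∀ w ∈ T, ∃ s', Run init w s' ∧ s'.mode = I ∧ s'.n = n) :
    T.card ≤ {σ : Equiv.Perm (Fin n) | IsBaxter n σ}.ncard := by
  have key : ∀ w ∈ T, ∃ σ : Equiv.Perm (Fin n), IsBaxter n σ ∧ ∃ s', Run init w s' ∧ s'.mode = I ∧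
      s'.n = n ∧ PL σ = arr s' := by
    intro w hw
    obtain ⟨s', h1, h2, h3⟩ := hT w hw
    have h4 := (wf_run h1 wf_init).perm
    rw [h3] at h4
    obtain ⟨σ, hσ⟩ := PL_surj h4
    refine ⟨σ, ?_, s', h1, h2, h3, hσ⟩
    rw [baxter_iff, hσ]
    exact run_baxL h1
  choose! f hf using key
  rw [← Set.ncard_coe_finset T]
  apply Set.ncard_le_ncard_of_injOn f
  · intro w hw
    exact (hf w hw).1
  · intro w hw w' hw' h
    obtain ⟨_, s1, a1, a2, a3, a4⟩ := hf w hw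
    obtain ⟨_, s2, b1, b2, b3, b4⟩ := hf w' hw'
    apply run_inj wf_init a1 b1 a2 b2 (by rw [a3, b3])
    rw [← a4, ← b4]
    exact congrArg PL h

lemma run_two {w : List Bool} {s : St} (h : Run init w s) (hm : s.mode = I) :
    ∃ s', Run init (w ++ [false, false]) s' ∧ s'.mode = I ∧ s'.n = s.n + 1 := by
  obtain ⟨m, l, r, n⟩ := s
  simp only at hm
  subst hm
  refine ⟨⟨I, l, [n - 1] :: r, n + 1⟩, run_append h ?_, rfl, rfl⟩
  refine Run.cons (Or.inl rfl) ?_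
  refine Run.cons (Or.inr (Or.inl rfl)) ?_
  exact Run.nil _

theorem baxter_card_ge {n : ℕ} (hn : 1 ≤ n) :
    (8:ℝ) ^ n ≤ 64 * (n + 2) ^ 12 * ({σ : Equiv.Perm (Fin n) | IsBaxter n σ}.ncard : ℝ) := by
  obtain ⟨ℓ, hℓ⟩ : ∃ ℓ, n = 2 * ℓ + 1 ∨ n = 2 * ℓ + 2 := ⟨(n - 1) / 2, by omega⟩
  have hcard : (Loops ℓ).card ≤ {σ : Equiv.Perm (Fin n) | IsBaxter n σ}.ncard := by
    rcases hℓ with hℓ | hℓ
    · have h1 : ((Loops ℓ).image code).card = (Loops ℓ).card :=
        Finset.card_image_of_injOn (fun w hw w' hw' h => code_inj hw hw' h)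
      rw [← h1]
      apply card_le_baxter
      intro w hw
      obtain ⟨w0, hw0, rfl⟩ := Finset.mem_image.mp hw
      rw [hℓ]
      exact code_run hw0
    · have h1 : ((Loops ℓ).image (fun w => code w ++ [false, false])).card = (Loops ℓ).card := by
        apply Finset.card_image_of_injOn
        intro w hw w' hw' h
        exact code_inj hw hw' (List.append_cancel_right h)
      rw [← h1]
      apply card_le_baxter
      intro w hw
      obtain ⟨w0, hw0, rfl⟩ := Finset.mem_image.mp hw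
      obtain ⟨s, r1, r2, r3⟩ := code_run hw0
      obtain ⟨s', t1, t2, t3⟩ := run_two r1 r2
      exact ⟨s', t1, t2, by rw [t3, r3, hℓ]⟩
  have h2 := Loops_ge ℓ
  have h3 : ((Loops ℓ).card : ℝ) ≤ ({σ : Equiv.Perm (Fin n) | IsBaxter n σ}.ncard : ℝ) := by
    exact_mod_cast hcard
  have h4 : (ℓ:ℝ) ≤ n := by
    have : ℓ ≤ n := by omega
    exact_mod_cast this
  have h5 : (8:ℝ) ^ n ≤ 64 * 8 ^ (2 * ℓ) := by
    rcases hℓ with hℓ | hℓ
    · rw [hℓ, pow_succ]; nlinarith [pow_pos (by norm_num : (0:ℝ) < 8) (2 * ℓ)]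
    · rw [hℓ, pow_add]; nlinarith [pow_pos (by norm_num : (0:ℝ) < 8) (2 * ℓ)]
  calc (8:ℝ) ^ n ≤ 64 * 8 ^ (2 * ℓ) := h5
    _ ≤ 64 * ((ℓ + 2) ^ 12 * (Loops ℓ).card) := by gcongr
    _ ≤ 64 * ((n + 2) ^ 12 * ({σ : Equiv.Perm (Fin n) | IsBaxter n σ}.ncard : ℝ)) := by gcongr
    _ = _ := by ring

/-- Baxter permutations with no increasing subsequence of length at least `r` -/
def BadSet (n : ℕ) (r : ℝ) : Set (Equiv.Perm (Fin n)) :=
  {σ | IsBaxter n σ ∧ ¬ ∃ s : Finset (Fin n), StrictMonoOn (fun i => σ i) (s : Set (Fin n)) ∧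
    r ≤ (s.card : ℝ)}

theorem bad_card_le {n h q : ℕ} {r : ℝ} (hn : 1 ≤ n) (hh : 1 ≤ h)
    (hPE : 3 / 4 ≤ (PE h r).toReal) (hq : q * (400 * h ^ 2 + 4) ≤ 2 * (n - 1)) :
    ((BadSet n r).ncard : ℝ) ≤ 8 ^ (n - 1) * (31 / 32) ^ q := by
  have key : ∀ σ ∈ BadSet n r, ∃ w s', Run init w s' ∧ s'.mode = I ∧ s'.n = n ∧ arr s' = PL σ := by
    intro σ hσ
    exact exists_run hn (PL_perm σ) ((baxter_iff σ).mp hσ.1)
  choose! f g hf using key
  have hfin : {x : List Bool | x.length = 3 * (n - 1) ∧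
      badWins h r (400 * h ^ 2 + 4) q x}.Finite :=
    (List.finite_length_eq Bool (3 * (n - 1))).subset fun x hx => hx.1
  have h1 : (BadSet n r).ncard ≤
      {x : List Bool | x.length = 3 * (n - 1) ∧ badWins h r (400 * h ^ 2 + 4) q x}.ncard := by
    refine Set.ncard_le_ncard_of_injOn (fun σ => pad (3 * (n - 1)) (f σ)) ?_ ?_ hfin
    · intro σ hσ
      obtain ⟨a1, a2, a3, a4⟩ := hf σ hσ
      have hl := word_len a1 a2
      rw [a3] at hl
      refine ⟨pad_length hl.1, ?_⟩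
      apply badWins_of_run a1 (hq.trans hl.2)
      rintro ⟨c, c1, c2, c3⟩
      rw [a4] at c1
      obtain ⟨s, s1, s2⟩ := chain_to_finset σ c1 c2
      exact hσ.2 ⟨s, s1, by rw [s2]; exact c3⟩
    · intro σ hσ τ hτ h
      obtain ⟨a1, a2, a3, a4⟩ := hf σ hσ
      obtain ⟨b1, b2, b3, b4⟩ := hf τ hτ
      have h2 := pad_inj a1 a2 b1 b2 (by rw [a3, b3]) h
      rw [h2] at a1
      have h3 := run_det a1 b1
      apply PL_inj
      rw [← a4, ← b4, h3]
  have h2 := card_badWins h (400 * h ^ 2) r hPE (un_quad h hh) q (3 * (n - 1)) (by omega)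
  calc ((BadSet n r).ncard : ℝ) ≤
      ({x : List Bool | x.length = 3 * (n - 1) ∧ badWins h r (400 * h ^ 2 + 4) q x}.ncard : ℝ) := by
        exact_mod_cast h1
    _ ≤ 2 ^ (3 * (n - 1)) * (31 / 32) ^ q := h2
    _ = _ := by rw [pow_mul]; norm_num

end Pool.Agent.BaxterLIS
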