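import Pool.Agent.BaxterLIS.Jump

/-!
Polynomial growth of the block rewards and the resulting lower bound for finite windows.
-/

namespace Pool.Agent.BaxterLIS

open scoped ENNReal
open Filter Topology Mode

/-- the Baxter block family -/
noncomputable def fam : BlockFam where
  P := fun h a => (PE h a).toReal
  Lam := fun h l => if 0 ≤ l then (LE h l).toReal else 0
  P_nonneg := fun _ _ => ENNReal.toReal_nonneg
  P_le_one := fun h a => by
    have := ENNReal.toReal_mono ENNReal.one_ne_top (PE_le_one h a)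
    simpa using this
  P_anti := fun h a b hab => by
    apply ENNReal.toReal_mono (PE_ne_top _ _)
    exact coin.E_mono _ fun w => ind_mono fun hw => ⟨hw.1, hab.trans hw.2⟩
  Lam_nonneg := fun h l => by
    split_ifs
    · exact ENNReal.toReal_nonneg
    · exact le_rfl
  Lam_add := fun h₁ h₂ l hl => by
    simp only [hl, if_true]
    rw [← ENNReal.toReal_mul]
    exact ENNReal.toReal_mono (ENNReal.mul_ne_top (LE_ne_top _ _ hl) (LE_ne_top _ _ hl))
      (LE_add h₁ h₂ l hl)
  Lam_zero := fun l => by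
    split_ifs with hl
    · have := ENNReal.toReal_mono ENNReal.one_ne_top (LE_le_one 0 l hl)
      simpa using this
    · norm_num
  Lam_le := fun h l a₁ a₂ hl h1 h12 => by
    simp only [hl, if_true]
    have h0 := LE_le h l a₁ a₂ hl h1 h12
    have e1 : Real.exp (-(l * a₂)) ≤ Real.exp (-(l * a₁)) := by
      apply Real.exp_le_exp.mpr; nlinarith
    have e2 : Real.exp (-(l * a₁)) ≤ 1 := by
      apply Real.exp_le_one_iff.mpr; nlinarith
    have h2 := ENNReal.toReal_mono ENNReal.one_ne_top h0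
    rw [ENNReal.toReal_add (LE_ne_top _ _ hl), ENNReal.toReal_add, ENNReal.toReal_mul,
      ENNReal.toReal_mul, ENNReal.toReal_ofReal (by linarith), ENNReal.toReal_ofReal (by linarith)] at h2
    · simp only [ENNReal.toReal_one] at h2
      linarith
    · exact ENNReal.mul_ne_top ENNReal.ofReal_ne_top (PE_ne_top _ _)
    · exact ENNReal.mul_ne_top ENNReal.ofReal_ne_top (PE_ne_top _ _)
    · exact ENNReal.add_ne_top.mpr ⟨ENNReal.mul_ne_top ENNReal.ofReal_ne_top (PE_ne_top _ _),
        ENNReal.mul_ne_top ENNReal.ofReal_ne_top (PE_ne_top _ _)⟩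
  tail_le := fun h l a hl => by
    simp only [hl, if_true]
    have h0 := one_le_tail h l a hl
    have h2 := ENNReal.toReal_mono (ENNReal.add_ne_top.mpr ⟨PE_ne_top _ _,
      ENNReal.mul_ne_top ENNReal.ofReal_ne_top (LE_ne_top _ _ hl)⟩) h0
    rw [ENNReal.toReal_add (PE_ne_top _ _) (ENNReal.mul_ne_top ENNReal.ofReal_ne_top (LE_ne_top _ _ hl)),
      ENNReal.toReal_mul, ENNReal.toReal_ofReal (Real.exp_pos _).le, ENNReal.toReal_one] at h2
    linarith
  p₀ := 1 / 128
  p₀_pos := by norm_num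
  p₀_le := by norm_num
  H₀ := 3
  jump := fun D hD a => by
    have h0 := PE_jump D hD a
    have h2 := ENNReal.toReal_mono (PE_ne_top _ _) h0
    rwa [ENNReal.toReal_mul, ENNReal.toReal_ofReal (by norm_num)] at h2
  lim := by
    have h1 : ∀ h : ℕ, 1 - (1/2:ℝ)^h ≤ (PE h 1).toReal := by
      intro h
      have h0 := one_le_P_one h
      have h3 : ((2⁻¹ : ℝ≥0∞) ^ h) ≠ ∞ := ENNReal.pow_ne_top (by simp)
      have h2 := ENNReal.toReal_mono (ENNReal.add_ne_top.mpr ⟨PE_ne_top _ _, h3⟩) h0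
      rw [ENNReal.toReal_add (PE_ne_top _ _) h3, ENNReal.toReal_pow, ENNReal.toReal_inv] at h2
      simp at h2
      simp
      linarith
    have h2 : ∀ h : ℕ, (PE h 1).toReal ≤ 1 := fun h => by
      have := ENNReal.toReal_mono ENNReal.one_ne_top (PE_le_one h 1)
      simpa using this
    have h3 : Tendsto (fun h : ℕ => 1 - (1/2:ℝ)^h) atTop (𝓝 (1 - 0)) :=
      tendsto_const_nhds.sub (tendsto_pow_atTop_nhds_zero_of_lt_one (by norm_num) (by norm_num))
    rw [sub_zero] at h3
    exact tendsto_of_tendsto_of_tendsto_of_le_of_le h3 tendsto_const_nhds h1 h2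

theorem growth : ∃ (h₀ C : ℕ) (δ : ℝ), 1 ≤ h₀ ∧ 2 ≤ C ∧ 0 < δ ∧
    ∀ j : ℕ, 3 / 4 ≤ (PE (h₀ * C ^ j) (((1 + δ) * C) ^ j)).toReal := fam.renorm

end Pool.Agent.BaxterLIS
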