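import Pool.Agent.BaxterLIS.Surj

/-!
Distinct valid runs give distinct arrangements, and all arrangements are Baxter.
-/

namespace Pool.Agent.BaxterLIS

open Mode
open scoped List

lemma ordR {s s' : St} {w : List Bool} (hr : Run s w s') (hm : s.mode = R) (hm' : s'.mode = I)
    {e : ℕ} (he : e ∈ s.left.reverse.flatten) : [e, s.n] <+ arr s' := by
  induction hr with
  | nil s => rw [hm] at hm'; exact absurd hm' (by simp)
  | @cons s b w s' hk hr ih =>
    cases b with
    | false => exact (stop_order (by rw [hm]; simp) he).trans (run_arr_sublist hr)
    | true =>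
      obtain ⟨m, l, r, n⟩ := s
      simp only at hm
      subst hm
      obtain ⟨h1, h2⟩ := hk.resolve_left (by simp) |>.resolve_left (by simp)
      simp only at h1 h2 he
      obtain ⟨a, l, rfl⟩ := List.exists_cons_of_ne_nil h1
      obtain ⟨b, r, rfl⟩ := List.exists_cons_of_ne_nil h2
      apply ih
      · rfl
      · exact hm'
      · simp only [stp, List.reverse_cons, List.flatten_append, List.flatten_cons, List.flatten_nil,
          List.append_nil, List.mem_append] at he ⊢
        tauto

lemma ordL {s s' : St} {w : List Bool} (hr : Run s w s') (hm : s.mode = L) (hm' : s'.mode = I)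
    {e : ℕ} (he : e ∈ s.right.flatten) : [s.n, e] <+ arr s' := by
  induction hr with
  | nil s => rw [hm] at hm'; exact absurd hm' (by simp)
  | @cons s b w s' hk hr ih =>
    cases b with
    | false => exact (stop_order' (by rw [hm]; simp) he).trans (run_arr_sublist hr)
    | true =>
      obtain ⟨m, l, r, n⟩ := s
      simp only at hm
      subst hm
      obtain ⟨h1, h2⟩ := hk.resolve_left (by simp) |>.resolve_left (by simp)
      simp only at h1 h2 he
      obtain ⟨a, l, rfl⟩ := List.exists_cons_of_ne_nil h1
      obtain ⟨b, r, rfl⟩ := List.exists_cons_of_ne_nil h2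
      apply ih
      · rfl
      · exact hm'
      · simp only [stp, List.flatten_cons, List.mem_append] at he ⊢
        tauto

lemma run_n_le {s s' : St} {w : List Bool} (hr : Run s w s') : s.n ≤ s'.n := by
  induction hr with
  | nil => exact le_rfl
  | cons hk hr ih =>
    refine le_trans ?_ ih
    rw [stp_n]; split_ifs <;> omega

lemma run_n_lt {s s' : St} {w : List Bool} (hr : Run s w s') (hm : s.mode ≠ I) (hm' : s'.mode = I) :
    s.n < s'.n := by
  induction hr with
  | nil => exact absurd hm' hm
  | @cons s b w s' hk hr ih =>
    cases b with
    | false =>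
      have h1 := run_n_le hr
      rw [stp_n, if_pos ⟨hm, rfl⟩] at h1
      omega
    | true =>
      have h1 : (stp s true).mode ≠ I := by
        rw [stp_mode]; cases h : s.mode <;> simp_all [nextMode]
      have h2 := ih h1 hm'
      rw [stp_n, if_neg (by simp)] at h2
      exact h2

lemma run_n_lt' {s s' : St} {b : Bool} {w : List Bool} (hr : Run s (b :: w) s') (hm : s.mode = I)
    (hm' : s'.mode = I) : s.n < s'.n := by
  cases hr with
  | cons hk hr =>
    have h1 : (stp s b).mode ≠ I := by
      rw [stp_mode, hm]; cases b <;> simp [nextMode]
    have h2 := run_n_lt hr h1 hm'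
    rw [stp_n, if_neg (by simp [hm])] at h2
    exact h2

/-- opposite first flips give different arrangements -/
lemma branch {s s1 s2 : St} {u v : List Bool} (hw : WF s) (h1 : Run s (true :: u) s1)
    (h2 : Run s (false :: v) s2) (m1 : s1.mode = I) (m2 : s2.mode = I) (he : arr s1 = arr s2) :
    False := by
  have hnd : (arr s1).Nodup := (wf_run h1 hw).nodup
  cases h1 with
  | cons k1 r1 =>
  cases h2 with
  | cons k2 r2 =>
  obtain ⟨m, l, r, n⟩ := s
  cases m
  · -- idle
    have e1 : [n - 1, n] <+ arr s1 := ordR r1 rfl m1 (e := n - 1) (by simp [stp])
    have e2 : [n, n - 1] <+ arr s2 := ordL r2 rfl m2 (e := n - 1) (by simp [stp])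
    rw [← he] at e2
    exact not_both_orders hnd e1 e2
  · obtain ⟨h1, h2⟩ := k1.resolve_left (by simp) |>.resolve_left (by simp)
    simp only at h1 h2
    obtain ⟨a, l, rfl⟩ := List.exists_cons_of_ne_nil h1
    obtain ⟨b, r, rfl⟩ := List.exists_cons_of_ne_nil h2
    obtain ⟨x, b', hb⟩ := List.exists_cons_of_ne_nil (hw.right_ne b (by simp))
    have e1 : [x, n] <+ arr s1 := ordR r1 rfl m1 (e := x) (by simp [stp, hb])
    have e2 : [n, x] <+ arr s2 :=
      (stop_order' (s := ⟨R, a :: l, b :: r, n⟩) (by simp) (e := x) (by simp [hb])).trans
        (run_arr_sublist r2)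
    rw [← he] at e2
    exact not_both_orders hnd e1 e2
  · obtain ⟨h1, h2⟩ := k1.resolve_left (by simp) |>.resolve_left (by simp)
    simp only at h1 h2
    obtain ⟨a, l, rfl⟩ := List.exists_cons_of_ne_nil h1
    obtain ⟨b, r, rfl⟩ := List.exists_cons_of_ne_nil h2
    obtain ⟨x, a', ha⟩ := List.exists_cons_of_ne_nil (hw.left_ne a (by simp))
    have e1 : [n, x] <+ arr s1 := ordL r1 rfl m1 (e := x) (by simp [stp, ha])
    have e2 : [x, n] <+ arr s2 :=
      (stop_order (s := ⟨L, a :: l, b :: r, n⟩) (by simp) (e := x) (by simp [ha])).trans
        (run_arr_sublist r2)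
    rw [← he] at e2
    exact not_both_orders hnd e2 e1

/-- **Injectivity** -/
theorem run_inj {s s1 s2 : St} {w1 w2 : List Bool} (hw : WF s) (h1 : Run s w1 s1)
    (h2 : Run s w2 s2) (m1 : s1.mode = I) (m2 : s2.mode = I) (hn : s1.n = s2.n)
    (he : arr s1 = arr s2) : w1 = w2 := by
  induction h1 generalizing w2 with
  | nil s =>
    cases w2 with
    | nil => rfl
    | cons b w2 =>
      have := run_n_lt' h2 m1 m2
      omega
  | @cons s b w s1 hk hr ih =>
    cases w2 with
    | nil =>
      have hs : s = s2 := by cases h2; rfl
      subst hs
      have := run_n_lt' (Run.cons hk hr) m2 m1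
      omega
    | cons b2 w2 =>
      cases b with
      | true =>
        cases b2 with
        | true =>
          cases h2 with
          | cons hk2 hr2 => rw [ih (wf_stp hk hw) hr2 m1 hn he]
        | false => exact (branch hw (Run.cons hk hr) h2 m1 m2 he).elim
      | false =>
        cases b2 with
        | true => exact (branch hw h2 (Run.cons hk hr) m2 m1 he.symm).elim
        | false =>
          cases h2 with
          | cons hk2 hr2 => rw [ih (wf_stp hk hw) hr2 m1 hn he]

/-! ### Arrangements are Baxter -/

/-- two labels lie in a common block, in this order -/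
def Tog (s : St) (a b : ℕ) : Prop := ∃ c, (c ∈ s.left ∨ c ∈ s.right) ∧ [a, b] <+ c

structure BInv (s : St) : Prop where
  R_top : s.mode = R → ∃ l ls, s.left = l :: ls ∧ s.n - 1 ∈ l
  L_top : s.mode = L → ∃ r rs, s.right = r :: rs ∧ s.n - 1 ∈ r
  tog : ∀ i j, i < j → j + 1 < s.n → ([j + 1, i, j] <+ arr s → Tog s i j) ∧
    ([j, i, j + 1] <+ arr s → Tog s j i)
  bax : ∀ i j k, i < j → j + 1 < k → k < s.n →
    ¬ [j + 1, i, k, j] <+ arr s ∧ ¬ [j, k, i, j + 1] <+ arr s

lemma binv_init : BInv init := by
  constructor
  · intro h; simp [init] at h
  · intro h; simp [init] at h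
  · intro i j _ h; simp [init] at h
  · intro i j k _ h1 h2; simp [init] at h2; omega

lemma sublist_remove {c X Y : List ℕ} {n : ℕ} (h : c <+ X ++ n :: Y) (hn : n ∉ c) : c <+ X ++ Y := by
  have h1 := h.filter (fun x => decide (x ≠ n))
  have h2 : c.filter (fun x => decide (x ≠ n)) = c := by
    apply List.filter_eq_self.mpr
    intro x hx
    simp only [ne_eq, decide_eq_true_eq]
    rintro rfl; exact hn hx
  rw [h2] at h1
  refine h1.trans ?_
  rw [List.filter_append, List.filter_cons]
  simp only [ne_eq, not_true_eq_false, decide_false, Bool.false_eq_true, if_false]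
  exact List.filter_sublist.append List.filter_sublist

lemma tog_stp {s : St} {b : Bool} (hk : okk s b) {x y : ℕ} (h : Tog s x y) : Tog (stp s b) x y := by
  obtain ⟨c, hc, hs⟩ := h
  obtain ⟨m, l, r, n⟩ := s
  cases m <;> cases b
  · refine ⟨c, ?_, hs⟩
    rcases hc with h | h
    · exact Or.inl h
    · exact Or.inr (List.mem_cons_of_mem _ h)
  · refine ⟨c, ?_, hs⟩
    rcases hc with h | h
    · exact Or.inl (List.mem_cons_of_mem _ h)
    · exact Or.inr h
  · exact ⟨c, hc, hs⟩
  · obtain ⟨h1, h2⟩ := hk.resolve_left (by simp) |>.resolve_left (by simp)
    simp only at h1 h2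
    obtain ⟨a, l, rfl⟩ := List.exists_cons_of_ne_nil h1
    obtain ⟨b, r, rfl⟩ := List.exists_cons_of_ne_nil h2
    simp only [List.mem_cons] at hc
    rcases hc with (rfl | h) | (rfl | h)
    · exact ⟨c ++ b, Or.inl (by simp [stp]), hs.trans (List.sublist_append_left _ _)⟩
    · exact ⟨c, Or.inl (by simp [stp, h]), hs⟩
    · exact ⟨a ++ c, Or.inl (by simp [stp]), hs.trans (List.sublist_append_right _ _)⟩
    · exact ⟨c, Or.inr (by simp [stp, h]), hs⟩
  · exact ⟨c, hc, hs⟩
  · obtain ⟨h1, h2⟩ := hk.resolve_left (by simp) |>.resolve_left (by simp)
    simp only at h1 h2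
    obtain ⟨a, l, rfl⟩ := List.exists_cons_of_ne_nil h1
    obtain ⟨b, r, rfl⟩ := List.exists_cons_of_ne_nil h2
    simp only [List.mem_cons] at hc
    rcases hc with (rfl | h) | (rfl | h)
    · exact ⟨c ++ b, Or.inr (by simp [stp]), hs.trans (List.sublist_append_left _ _)⟩
    · exact ⟨c, Or.inl (by simp [stp, h]), hs⟩
    · exact ⟨a ++ c, Or.inr (by simp [stp]), hs.trans (List.sublist_append_right _ _)⟩
    · exact ⟨c, Or.inr (by simp [stp, h]), hs⟩

/-- if `x` precedes `y` in `X ++ Y` without duplicates and `x ∈ Y`, then both are in `Y` in order -/
lemma sublist_right {X Y : List ℕ} (hnd : (X ++ Y).Nodup) {x y : ℕ} (h : [x, y] <+ X ++ Y)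
    (hx : x ∈ Y) : [x, y] <+ Y := by
  rw [List.sublist_append_iff] at h
  obtain ⟨l1, l2, h1, h2, h3⟩ := h
  cases l1 with
  | nil => simp only [List.nil_append] at h1; rw [h1]; exact h3
  | cons a l1 =>
    simp only [List.cons_append, List.cons.injEq] at h1
    obtain ⟨rfl, _⟩ := h1
    exact absurd rfl ((List.nodup_append.mp hnd).2.2 x (h2.subset (by simp)) x hx)

lemma sublist_left {X Y : List ℕ} (hnd : (X ++ Y).Nodup) {x y : ℕ} (h : [x, y] <+ X ++ Y)
    (hy : y ∈ X) : [x, y] <+ X := by
  rw [List.sublist_append_iff] at h
  obtain ⟨l1, l2, h1, h2, h3⟩ := h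
  rcases List.eq_nil_or_concat l2 with rfl | ⟨l2', a, rfl⟩
  · simp only [List.append_nil] at h1; rw [h1]; exact h2
  · have : y = a := by
      have h4 : [x] ++ [y] = (l1 ++ l2') ++ [a] := by simpa using h1
      have := (List.append_inj' h4 rfl).2
      simpa using this
    subst this
    exact absurd rfl ((List.nodup_append.mp hnd).2.2 y hy y (h3.subset (by simp)))

lemma binv_stp {s : St} {b : Bool} (hk : okk s b) (hw : WF s) (h : BInv s) : BInv (stp s b) := by
  have hnd := hw.nodup
  have hw' := wf_stp hk hw
  by_cases hs : s.mode = I ∨ b = true
  · -- arrangement and number unchanged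
    have harr := arr_stp s b hk hs
    have hn : (stp s b).n = s.n := by
      rw [stp_n, if_neg]; rintro ⟨h1, h2⟩
      rcases hs with h3 | h3
      · exact h1 h3
      · simp [h2] at h3
    refine ⟨?_, ?_, ?_, ?_⟩
    · intro hm
      obtain ⟨m, l, r, n⟩ := s
      cases m <;> cases b <;> (try (simp [stp_mode, nextMode] at hm; done))
      · exact ⟨[n - 1], l, rfl, by simp [stp]⟩
      · obtain ⟨h1, h2⟩ := hk.resolve_left (by simp) |>.resolve_left (by simp)
        simp only at h1 h2
        obtain ⟨a, l, rfl⟩ := List.exists_cons_of_ne_nil h1
        obtain ⟨b, r, rfl⟩ := List.exists_cons_of_ne_nil h2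
        obtain ⟨l0, ls, h3, h4⟩ := h.R_top rfl
        simp only [List.cons.injEq] at h3
        obtain ⟨rfl, rfl⟩ := h3
        exact ⟨a ++ b, l, rfl, by simp [stp]; left; exact h4⟩
    · intro hm
      obtain ⟨m, l, r, n⟩ := s
      cases m <;> cases b <;> (try (simp [stp_mode, nextMode] at hm; done))
      · exact ⟨[n - 1], r, rfl, by simp [stp]⟩
      · obtain ⟨h1, h2⟩ := hk.resolve_left (by simp) |>.resolve_left (by simp)
        simp only at h1 h2
        obtain ⟨a, l, rfl⟩ := List.exists_cons_of_ne_nil h1
        obtain ⟨b, r, rfl⟩ := List.exists_cons_of_ne_nil h2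
        obtain ⟨l0, ls, h3, h4⟩ := h.L_top rfl
        simp only [List.cons.injEq] at h3
        obtain ⟨rfl, rfl⟩ := h3
        exact ⟨a ++ b, r, rfl, by simp [stp]; right; exact h4⟩
    · intro i j hij hj
      rw [hn] at hj
      rw [harr]
      exact ⟨fun h1 => tog_stp hk ((h.tog i j hij hj).1 h1),
        fun h1 => tog_stp hk ((h.tog i j hij hj).2 h1)⟩
    · intro i j k hij hjk hkn
      rw [hn] at hkn
      rw [harr]
      exact h.bax i j k hij hjk hkn
  · push Not at hs
    have hb : b = false := by cases b <;> simp_all
    subst hb
    have hmI := hs.1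
    obtain ⟨harr', harr⟩ := arr_stop s hmI
    have hn : (stp s false).n = s.n + 1 := by rw [stp_n, if_pos ⟨hmI, rfl⟩]
    have hmode : (stp s false).mode = I := by
      rw [stp_mode]; cases hh : s.mode <;> simp_all [nextMode]
    have hblocks : (stp s false).left = s.left ∧ (stp s false).right = s.right := by
      obtain ⟨m, l, r, n⟩ := s
      cases m <;> simp [stp] at *
    have hpos := hw.pos
    have hnd' := hw'.nodup
    have hrm : ∀ c : List ℕ, s.n ∉ c → c <+ arr (stp s false) → c <+ arr s := by
      intro c hc h1
      rw [harr'] at h1
      rw [harr]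
      exact sublist_remove h1 hc
    have hTog : ∀ x y, Tog s x y → Tog (stp s false) x y := fun x y h1 => tog_stp hk h1
    refine ⟨?_, ?_, ?_, ?_⟩
    · intro hm; rw [hmode] at hm; exact absurd hm (by simp)
    · intro hm; rw [hmode] at hm; exact absurd hm (by simp)
    · intro i j hij hj
      rw [hn] at hj
      by_cases hjn : j + 1 = s.n
      · have hj' : j = s.n - 1 := by omega
        -- the new pair
        by_cases hR : s.mode = R
        · obtain ⟨l0, ls, hl, hmem⟩ := h.R_top hR
          have hjl : j ∈ l0 := by rw [hj']; exact hmem
          have hjn' : [j, s.n] <+ arr (stp s false) :=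
            stop_order hmI (by rw [hl]; simp [hjl])
          constructor
          · intro h1
            exfalso
            have h2 : [s.n, j] <+ arr (stp s false) := by
              rw [hjn] at h1
              have : [s.n, j] <+ [s.n, i, j] := (List.sublist_cons_self _ _).cons_cons _
              exact this.trans h1
            exact not_both_orders hnd' hjn' h2
          · intro h1
            rw [hjn] at h1
            have h2 : [j, i] <+ arr s := by
              apply hrm
              · simp only [List.mem_cons, List.not_mem_nil, or_false, not_or]; omega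
              · have : [j, i] <+ [j, i, s.n] := by exact List.sublist_append_left [j, i] [s.n]
                exact this.trans h1
            have h3 : [i, s.n] <+ arr (stp s false) := by
              have : [i, s.n] <+ [j, i, s.n] := List.sublist_cons_self _ _
              exact this.trans h1
            have hi : i ∈ s.left.reverse.flatten := by
              by_contra hc
              have h4 : i ∈ arr s := h2.subset (by simp)
              rw [harr] at h4
              have h5 := (List.mem_append.mp h4).resolve_left hc
              exact not_both_orders hnd' h3 (stop_order' hmI h5)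
            rw [harr] at h2 hnd
            have h6 := sublist_left hnd h2 hi
            rw [hl, List.reverse_cons, List.flatten_append] at h6 hnd
            have hnd2 := (List.nodup_append.mp hnd).1
            have h7 := sublist_right hnd2 h6 (by simpa using hjl)
            refine ⟨l0, Or.inl (by rw [hblocks.1, hl]; simp), by simpa using h7⟩
        · have hL : s.mode = L := by
            cases hh : s.mode <;> simp_all
          obtain ⟨r0, rs, hl, hmem⟩ := h.L_top hL
          have hjr : j ∈ r0 := by rw [hj']; exact hmem
          have hjn' : [s.n, j] <+ arr (stp s false) :=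
            stop_order' hmI (by rw [hl]; simp [hjr])
          constructor
          · intro h1
            rw [hjn] at h1
            have h2 : [i, j] <+ arr s := by
              apply hrm
              · simp only [List.mem_cons, List.not_mem_nil, or_false, not_or]; omega
              · have : [i, j] <+ [s.n, i, j] := List.sublist_cons_self _ _
                exact this.trans h1
            have h3 : [s.n, i] <+ arr (stp s false) := by
              have : [s.n, i] <+ [s.n, i, j] := by exact List.sublist_append_left [s.n, i] [j]
              exact this.trans h1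
            have hi : i ∈ s.right.flatten := by
              by_contra hc
              have h4 : i ∈ arr s := h2.subset (by simp)
              rw [harr] at h4
              have h5 := (List.mem_append.mp h4).resolve_right hc
              exact not_both_orders hnd' (stop_order hmI h5) h3
            rw [harr] at h2 hnd
            have h6 := sublist_right hnd h2 hi
            rw [hl, List.flatten_cons] at h6 hnd
            have hnd2 := (List.nodup_append.mp hnd).2.1
            have h7 := sublist_left hnd2 h6 hjr
            exact ⟨r0, Or.inr (by rw [hblocks.2, hl]; simp), h7⟩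
          · intro h1
            exfalso
            have h2 : [j, s.n] <+ arr (stp s false) := by
              rw [hjn] at h1
              have : [j, s.n] <+ [j, i, s.n] := (List.sublist_cons_self _ _).cons_cons _
              exact this.trans h1
            exact not_both_orders hnd' h2 hjn'
      · have hj2 : j + 1 < s.n := by omega
        constructor
        · intro h1
          apply hTog
          apply (h.tog i j hij hj2).1
          apply hrm _ _ h1
          simp only [List.mem_cons, List.not_mem_nil, or_false, not_or]; omega
        · intro h1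
          apply hTog
          apply (h.tog i j hij hj2).2
          apply hrm _ _ h1
          simp only [List.mem_cons, List.not_mem_nil, or_false, not_or]; omega
    · intro i j k hij hjk hkn
      rw [hn] at hkn
      by_cases hk' : k = s.n
      · subst hk'
        have htl : ∀ x y, Tog s x y → [x, s.n] <+ arr (stp s false) →
            [s.n, y] <+ arr (stp s false) → False := by
          rintro x y ⟨c, hc, hxy⟩ h1 h2
          rcases hc with hc | hc
          · have : y ∈ s.left.reverse.flatten :=
              List.mem_flatten.mpr ⟨c, by simpa using hc, hxy.subset (by simp)⟩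
            exact not_both_orders hnd' (stop_order hmI this) h2
          · have : x ∈ s.right.flatten :=
              List.mem_flatten.mpr ⟨c, hc, hxy.subset (by simp)⟩
            exact not_both_orders hnd' h1 (stop_order' hmI this)
        constructor
        · intro h1
          have t1 : [j + 1, i, j] <+ arr s := by
            apply hrm
            · simp only [List.mem_cons, List.not_mem_nil, or_false, not_or]; omega
            · have : [j + 1, i, j] <+ [j + 1, i, s.n, j] :=
                ((List.sublist_cons_self _ _).cons_cons _).cons_cons _
              exact this.trans h1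
          have t2 := (h.tog i j hij hjk).1 t1
          refine htl i j t2 ?_ ?_
          · have : [i, s.n] <+ [j + 1, i, s.n, j] :=
              ((List.sublist_append_left [i, s.n] [j])).cons _
            exact this.trans h1
          · have : [s.n, j] <+ [j + 1, i, s.n, j] :=
              (List.sublist_cons_self _ _).cons _
            exact this.trans h1
        · intro h1
          have t1 : [j, i, j + 1] <+ arr s := by
            apply hrm
            · simp only [List.mem_cons, List.not_mem_nil, or_false, not_or]; omega
            · have : [j, i, j + 1] <+ [j, s.n, i, j + 1] :=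
                (List.sublist_cons_self _ _).cons_cons _
              exact this.trans h1
          have t2 := (h.tog i j hij hjk).2 t1
          refine htl j i t2 ?_ ?_
          · have : [j, s.n] <+ [j, s.n, i, j + 1] :=
              List.sublist_append_left [j, s.n] [i, j + 1]
            exact this.trans h1
          · have : [s.n, i] <+ [j, s.n, i, j + 1] :=
              (List.sublist_append_left [s.n, i] [j + 1]).cons _
            exact this.trans h1
      · have hk2 : k < s.n := by omega
        have h0 := h.bax i j k hij hjk hk2
        constructor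
        · intro h1
          apply h0.1
          apply hrm _ _ h1
          simp only [List.mem_cons, List.not_mem_nil, or_false, not_or]; omega
        · intro h1
          apply h0.2
          apply hrm _ _ h1
          simp only [List.mem_cons, List.not_mem_nil, or_false, not_or]; omega

lemma binv_run {s s' : St} {w : List Bool} (hr : Run s w s') (hw : WF s) (h : BInv s) : BInv s' := by
  induction hr with
  | nil => exact h
  | cons hk hr ih => exact ih (wf_stp hk hw) (binv_stp hk hw h)

/-- arrangements of valid runs are Baxter lists -/
theorem run_baxL {w : List Bool} {s' : St} (hr : Run init w s') : BaxL (arr s') := by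
  have hw := wf_run hr wf_init
  have hb := binv_run hr wf_init binv_init
  intro i j k hij hjk
  by_cases hk : k < s'.n
  · exact hb.bax i j k hij hjk hk
  · have : k ∉ arr s' := fun h => by
      have := hw.perm.subset h
      simp at this; omega
    exact ⟨fun h => this (h.subset (by simp)), fun h => this (h.subset (by simp))⟩

end Pool.Agent.BaxterLIS
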