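import Pool.Agent.BaxterLIS.Blocks

/-!
The jump event: without restarting, the walker is below zero at a moment when the height has
doubled.  Its probability is at least `1/32`, by an exact cubic harmonic function.
-/

namespace Pool.Agent.BaxterLIS

open scoped ENNReal
open Filter Topology Mode

/-- state: mode, walker, height -/
def nt2 (t : Mode × ℤ × ℕ) (b : Bool) : Mode × ℤ × ℕ :=
  (nextMode t.1 b, zs t.1 b t.2.1, nextK t.1 b t.2.2)

/-- success: the walker is negative and the height is `T` -/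
def sucJ (T : ℕ) (t : Mode × ℤ × ℕ) : Prop := t.1 = L ∧ t.2.1 < 0 ∧ t.2.2 = T

/-- resolved -/
def finJ (T : ℕ) (t : Mode × ℤ × ℕ) : Prop := t.2.2 = 0 ∨ sucJ T t

/-- jump words -/
def jmp (T : ℕ) (w : List Bool) (m : Mode) (z : ℤ) (k : ℕ) : Prop :=
  acc nt2 (finJ T) (sucJ T) w (m, z, k)

/-- cubic harmonic functions, by mode -/
noncomputable def VV : Mode → ℝ → ℝ → ℝ
  | R, N, k => k ^ 3 + 3 * N * k ^ 2 - N ^ 3 - 3 / 2 * k ^ 2 - 6 * N * k - 3 * N ^ 2 + 5 / 2 * k +
      9 * N - 5
  | L, N, k => k ^ 3 + 3 * N * k ^ 2 - N ^ 3 - 3 / 2 * k ^ 2 - 3 * N - 7 / 2 * k + 4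
  | I, N, k => k ^ 3 + 3 * N * k ^ 2 - N ^ 3 + 3 / 2 * k ^ 2 - 3 * N ^ 2 - 7 / 2 * k

/-- value for a positive walker -/
noncomputable def psi (y : ℝ) : ℝ := y ^ 3 + 3 / 2 * y ^ 2 - 7 / 2 * y

noncomputable def UU (t : Mode × ℤ × ℕ) : ℝ :=
  if t.2.1 < 0 then VV t.1 (-(t.2.1 : ℝ)) t.2.2 else psi ((t.2.2 : ℝ) - t.2.1)

def InvJ (T : ℕ) (t : Mode × ℤ × ℕ) : Prop :=
  t.2.1 ≠ 0 ∧ (t.2.1 < 0 → t.2.2 < T ∨ sucJ T t) ∧
    (0 < t.2.1 → t.2.1 ≤ t.2.2 ∧ (t.2.2 : ℤ) - t.2.1 < T)

lemma InvJ_step (T : ℕ) (t : Mode × ℤ × ℕ) (b : Bool) (h : InvJ T t) (hf : ¬ finJ T t) :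
    InvJ T (nt2 t b) := by
  obtain ⟨m, z, k⟩ := t
  simp only [InvJ, finJ, sucJ, nt2] at *
  push Not at hf
  obtain ⟨hk, hf⟩ := hf
  obtain ⟨h0, h1, h2⟩ := h
  cases m <;> cases b <;> simp only [nextMode, zs, nextK] at * <;> (try split_ifs) <;>
    refine ⟨?_, ?_, ?_⟩ <;> simp at * <;> omega

lemma UU_le (T : ℕ) (hT : 3 ≤ T) (t : Mode × ℤ × ℕ) (h : InvJ T t) : UU t ≤ 4 * (T : ℝ) ^ 3 := by
  obtain ⟨m, z, k⟩ := t
  obtain ⟨h0, h1, h2⟩ := h
  simp only at h0 h1 h2
  have hT' : (3:ℝ) ≤ T := by exact_mod_cast hT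
  have hT2 : 9 ≤ (T:ℝ)^2 := by nlinarith
  have hT3 : 3 * (T:ℝ)^2 ≤ (T:ℝ)^3 := by nlinarith [sq_nonneg ((T:ℝ))]
  have hT4 : 3 * (T:ℝ) ≤ (T:ℝ)^2 := by nlinarith
  unfold UU
  by_cases hz : z < 0
  · simp only [hz, if_true]
    have hkT : (k:ℝ) ≤ T := by
      rcases h1 hz with h | h
      · exact_mod_cast h.le
      · exact_mod_cast h.2.2.le
    have hk0 : (0:ℝ) ≤ k := by positivity
    set N : ℝ := -(z:ℝ) with hN
    have hN1 : 1 ≤ N := by
      have : z ≤ -1 := by omega
      have : (z:ℝ) ≤ -1 := by exact_mod_cast this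
      linarith
    have e1 : 3 * N * k ^ 2 - N ^ 3 ≤ 2 * (k:ℝ) ^ 3 := by
      nlinarith [mul_nonneg (sq_nonneg (N - k)) (by linarith : (0:ℝ) ≤ N + 2 * k)]
    have e2 : (k:ℝ)^3 ≤ (T:ℝ)^3 := by gcongr
    have e3 : (k:ℝ)^2 ≤ (T:ℝ)^2 := by gcongr
    cases m
    · simp only [VV]; nlinarith [sq_nonneg N]
    · simp only [VV]; nlinarith [sq_nonneg (N - 3/2), mul_nonneg (by linarith : 0 ≤ N) hk0, sq_nonneg (k:ℝ)]
    · simp only [VV]; nlinarith [sq_nonneg (k:ℝ)]
  · simp only [hz, if_false]
    have hz' : 0 < z := by omega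
    obtain ⟨g1, g2⟩ := h2 hz'
    have g1' : (0:ℝ) ≤ (k:ℝ) - z := by
      have : (z:ℝ) ≤ k := by exact_mod_cast g1
      linarith
    have g2' : (k:ℝ) - z ≤ T := by exact_mod_cast g2.le
    set y := (k:ℝ) - z
    unfold psi
    have e2 : y^3 ≤ (T:ℝ)^3 := by gcongr
    have e3 : y^2 ≤ (T:ℝ)^2 := by gcongr
    nlinarith

lemma UU_fail (T : ℕ) (t : Mode × ℤ × ℕ) (h : InvJ T t) (hf : finJ T t) (hs : ¬ sucJ T t)
    (hm : t.2.2 = 0 → t.1 = R) : UU t ≤ 0 := by
  obtain ⟨m, z, k⟩ := t
  obtain ⟨h0, h1, h2⟩ := h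
  simp only [finJ] at *
  rcases hf with hk | hf
  · subst hk
    obtain rfl := hm rfl
    have hz : z < 0 := by
      rcases lt_trichotomy z 0 with h | h | h
      · exact h
      · exact absurd h h0
      · have := (h2 h).1; push_cast at this; omega
    unfold UU
    simp only [hz, if_true, VV]
    set N : ℝ := -(z:ℝ) with hN
    have hN1 : 1 ≤ N := by
      have : z ≤ -1 := by omega
      have : (z:ℝ) ≤ -1 := by exact_mod_cast this
      linarith
    push_cast
    nlinarith [mul_nonneg (sq_nonneg (N - 1)) (by linarith : 0 ≤ N + 5), mul_nonneg (sub_nonneg.mpr hN1) (by linarith : 0 ≤ N)]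
  · exact absurd hf hs


lemma UU_harm (T : ℕ) (t : Mode × ℤ × ℕ) (h : InvJ T t) (hf : ¬ finJ T t) :
    UU t = 1 / 2 * UU (nt2 t true) + 1 / 2 * UU (nt2 t false) := by
  obtain ⟨m, z, k⟩ := t
  obtain ⟨h0, h1, h2⟩ := h
  simp only [finJ, sucJ] at *
  push Not at hf
  obtain ⟨hk, hf⟩ := hf
  obtain ⟨k, rfl⟩ := Nat.exists_eq_succ_of_ne_zero hk
  rcases lt_or_gt_of_ne h0 with hz | hz
  · -- negative walker
    cases m
    · -- mode I
      have e1 : nt2 (I, z, k + 1) true = (R, z - 1, k + 1) := by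
        simp [nt2, nextMode, zs, nextK, hz.le]
      have e2 : nt2 (I, z, k + 1) false = (L, z, k + 2) := by
        simp [nt2, nextMode, zs, nextK, hz]
      rw [Nat.succ_eq_add_one, e1, e2]
      have hz1 : z - 1 < 0 := by omega
      simp only [UU, hz, hz1, if_true, VV]
      push_cast
      ring
    · -- mode R
      have e1 : nt2 (R, z, k + 1) true = (R, z, k) := by
        have h3 : ¬ (2 ≤ z) := by omega
        have h4 : min z (-1) = z := by omega
        simp [nt2, nextMode, zs, nextK, h3, h4]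
      have e2 : nt2 (R, z, k + 1) false = (I, z, k + 1) := by
        simp [nt2, nextMode, zs, nextK]
      rw [Nat.succ_eq_add_one, e1, e2]
      simp only [UU, hz, if_true, VV]
      push_cast
      ring
    · -- mode L
      have e2 : nt2 (L, z, k + 1) false = (I, z, k + 1) := by
        simp [nt2, nextMode, zs, nextK]
      by_cases hz2 : z ≤ -2
      · have e1 : nt2 (L, z, k + 1) true = (L, z + 1, k + 1) := by
          simp [nt2, nextMode, zs, nextK, hz2]
        rw [Nat.succ_eq_add_one, e1, e2]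
        have hz1 : z + 1 < 0 := by omega
        simp only [UU, hz, hz1, if_true, VV]
        push_cast
        ring
      · obtain rfl : z = -1 := by omega
        have e1 : nt2 (L, -1, k + 1) true = (L, 1, k + 1) := by
          simp [nt2, nextMode, zs, nextK]
        rw [Nat.succ_eq_add_one, e1, e2]
        simp [UU, VV, psi]
        ring
  · -- positive walker
    have hz' : ¬ z < 0 := by omega
    cases m
    · have e1 : nt2 (I, z, k + 1) true = (R, z, k + 1) := by
        have h3 : ¬ (z ≤ 0) := by omega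
        simp [nt2, nextMode, zs, nextK, h3]
      have e2 : nt2 (I, z, k + 1) false = (L, z + 1, k + 2) := by
        simp [nt2, nextMode, zs, nextK, hz.le]
      rw [Nat.succ_eq_add_one, e1, e2]
      have hz1 : ¬ (z + 1 < 0) := by omega
      simp only [UU, hz', hz1, if_false]
      push_cast
      have : (k:ℝ) + 2 - (z + 1) = k + 1 - z := by ring
      rw [this]; ring
    · have e2 : nt2 (R, z, k + 1) false = (I, z, k + 1) := by
        simp [nt2, nextMode, zs, nextK]
      by_cases hz2 : 2 ≤ z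
      · have e1 : nt2 (R, z, k + 1) true = (R, z - 1, k) := by
          simp [nt2, nextMode, zs, nextK, hz2]
        rw [Nat.succ_eq_add_one, e1, e2]
        have hz1 : ¬ (z - 1 < 0) := by omega
        simp only [UU, hz', hz1, if_false]
        push_cast
        have : (k:ℝ) - (z - 1) = k + 1 - z := by ring
        rw [this]; ring
      · obtain rfl : z = 1 := by omega
        have e1 : nt2 (R, 1, k + 1) true = (R, -1, k) := by
          simp [nt2, nextMode, zs, nextK]
        rw [Nat.succ_eq_add_one, e1, e2]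
        simp [UU, VV, psi]
        ring
    · have e1 : nt2 (L, z, k + 1) true = (L, z, k + 1) := by
        have h3 : ¬ (z ≤ -2) := by omega
        have h4 : max z 1 = z := by omega
        simp [nt2, nextMode, zs, nextK, h3, h4]
      have e2 : nt2 (L, z, k + 1) false = (I, z, k + 1) := by
        simp [nt2, nextMode, zs, nextK]
      rw [Nat.succ_eq_add_one, e1, e2]
      simp only [UU, hz', if_false]
      ring

lemma unres_le_un (T : ℕ) (n : ℕ) (m : Mode) (z : ℤ) (k : ℕ) :
    unres coin nt2 Prod.fst (finJ T) n (m, z, k) ≤ un n m k := by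
  induction n generalizing m z k with
  | zero =>
    rw [un_zero]
    by_cases hk : k = 0
    · simp [unres, finJ, hk]
    · rw [if_neg hk]
      exact unres_le_one _ _ _
  | succ n ih =>
    rw [un_succ]
    by_cases hk : k = 0
    · simp [unres, finJ, hk]
    · rw [if_neg hk]
      by_cases hf : finJ T (m, z, k)
      · simp only [unres, if_pos hf]
        have h1 : 0 ≤ un n (nextMode m true) (nextK m true k) := unres_nonneg _ _ _
        have h2 : 0 ≤ un n (nextMode m false) (nextK m false k) := unres_nonneg _ _ _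
        positivity
      · simp only [unres, if_neg hf, coin_p, nt2]
        have h1 := ih (nextMode m true) (zs m true z) (nextK m true k)
        have h2 := ih (nextMode m false) (zs m false z) (nextK m false k)
        linarith

/-- probability of a jump from height `D` to height `2 D` -/
noncomputable def PJ (D : ℕ) : ℝ≥0∞ := coin.E R (fun w => ind (jmp (2 * D) w R (-1) D))

lemma PJ_ge (D : ℕ) (hD : 3 ≤ D) : ENNReal.ofReal (1 / 32) ≤ PJ D := by
  have hs : ∀ t, sucJ (2 * D) t → finJ (2 * D) t := fun t h => Or.inr h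
  have hkraft : PJ D ≤ 1 :=
    kraft (c := coin) (nt := nt2) (π := Prod.fst) (fun _ _ => rfl) (finJ (2 * D)) (sucJ (2 * D)) hs
      (R, -1, D)
  have hne : PJ D ≠ ∞ := ne_top_of_le_ne_top ENNReal.one_ne_top hkraft
  have hD' : (3:ℝ) ≤ D := by exact_mod_cast hD
  have hpot : ∀ n, UU (R, -1, D) ≤ 4 * ((2 * D : ℕ) : ℝ) ^ 3 * (PJ D).toReal +
      4 * ((2 * D : ℕ) : ℝ) ^ 3 * un n R D := by
    intro n
    have := potential (c := coin) (nt := nt2) (π := Prod.fst) (fun _ _ => rfl) (finJ (2 * D))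
      (sucJ (2 * D)) (fun t => InvJ (2 * D) t ∧ (t.2.2 = 0 → t.1 = R)) hs UU
      (4 * ((2 * D : ℕ) : ℝ) ^ 3) (by positivity)
      (fun t h _ => UU_le (2 * D) (by omega) t h.1)
      (fun t h hf hns => UU_fail (2 * D) t h.1 hf hns h.2)
      (fun t h hf => by
        have := UU_harm (2 * D) t h.1 hf
        simp only [coin_p]
        exact this.le)
      (fun t b h hf => by
        refine ⟨InvJ_step (2 * D) t b h.1 hf, ?_⟩
        obtain ⟨m, z, k⟩ := t
        intro h0
        have hk : k ≠ 0 := fun h => hf (Or.inl h)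
        exact nextK_zero_mode hk h0)
      n (R, -1, D) (by
        refine ⟨⟨by simp, fun _ => Or.inl (by simp; omega), by simp⟩, fun _ => rfl⟩)
    refine this.trans ?_
    have h1 := unres_le_un (2 * D) n R (-1) D
    have h2 : (0:ℝ) ≤ 4 * ((2 * D : ℕ) : ℝ) ^ 3 := by positivity
    have h3 := mul_le_mul_of_nonneg_left h1 h2
    unfold PJ jmp
    linarith
  have hU : (D:ℝ) ^ 3 ≤ UU (R, -1, D) := by
    simp [UU, VV]
    nlinarith
  have hlim : Tendsto (fun n => 4 * ((2 * D : ℕ) : ℝ) ^ 3 * (PJ D).toReal +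
      4 * ((2 * D : ℕ) : ℝ) ^ 3 * un n R D) atTop
      (𝓝 (4 * ((2 * D : ℕ) : ℝ) ^ 3 * (PJ D).toReal + 4 * ((2 * D : ℕ) : ℝ) ^ 3 * 0)) :=
    tendsto_const_nhds.add (tendsto_const_nhds.mul (un_tendsto D))
  have hfin := ge_of_tendsto' hlim hpot
  rw [mul_zero, add_zero] at hfin
  have h4 : (1/32:ℝ) ≤ (PJ D).toReal := by
    push_cast at hfin
    have h5 : (0:ℝ) < (D:ℝ)^3 := by positivity
    have h6 : (D:ℝ)^3 ≤ 32 * (D:ℝ)^3 * (PJ D).toReal := by
      calc (D:ℝ)^3 ≤ UU (R, -1, D) := hU
        _ ≤ 4 * (2 * (D:ℝ)) ^ 3 * (PJ D).toReal := hfin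
        _ = 32 * (D:ℝ)^3 * (PJ D).toReal := by ring
    have h7 : (D:ℝ)^3 * 1 ≤ (D:ℝ)^3 * (32 * (PJ D).toReal) := by linarith
    have h8 := le_of_mul_le_mul_left h7 h5
    linarith
  rw [← ENNReal.ofReal_toReal hne]
  exact ENNReal.ofReal_le_ofReal h4

/-- after a jump word the machine is in mode `L` with a negative walker; the block is not over -/
lemma jmp_end {T : ℕ} {w : List Bool} {m : Mode} {z : ℤ} {k : ℕ} (h : jmp T w m z k) :
    coin.run m w = L ∧ zrun w m z < 0 := by
  induction w generalizing m z k with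
  | nil => exact ⟨h.1, h.2.1⟩
  | cons b w ih => exact ih h.2

lemma jmp_hits {T : ℕ} {w v : List Bool} {m : Mode} {z : ℤ} {k : ℕ} (h : jmp T w m z k)
    (hv : hits v L T) : hits (w ++ v) m k := by
  induction w generalizing m z k with
  | nil =>
    obtain ⟨h1, h2, h3⟩ := h
    simp only at h1 h3
    subst h1; subst h3
    exact hv
  | cons b w ih =>
    rw [List.cons_append, hits_cons]
    refine ⟨fun hk => h.1 (Or.inl hk), ih h.2⟩

lemma jmp_prefix_free {T : ℕ} {u v x y : List Bool} {m : Mode} {z : ℤ} {k : ℕ}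
    (hu : jmp T u m z k) (hv : jmp T v m z k) (h : u ++ x = v ++ y) : u = v :=
  acc_prefix_free (finJ T) (sucJ T) (fun _ h => Or.inr h) (m, z, k) u v x y hu hv h

/-- **Jump inequality** -/
lemma PE_jump (D : ℕ) (hD : 3 ≤ D) (a : ℝ) : ENNReal.ofReal (1 / 128) * PE (2 * D) a ≤ PE D a := by
  have key : ∑' u, ∑' v, (coin.wt R u * ind (jmp (2 * D) u R (-1) D)) *
      ((2⁻¹ : ℝ≥0∞) ^ 2 * (coin.wt R v * ind (hits v R (2 * D) ∧ a ≤ rew v))) ≤ PE D a := by
    unfold PE Chain.E
    apply tsum_ge_of_inj (fun u v => u ++ (false :: true :: v))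
    · intro u v u' v' h1 h2 h3
      have j1 : jmp (2 * D) u R (-1) D := by
        by_contra hc; apply h1; rw [ind_false hc]; simp
      have j2 : jmp (2 * D) u' R (-1) D := by
        by_contra hc; apply h2; rw [ind_false hc]; simp
      have h4 := jmp_prefix_free j1 j2 h3
      subst h4
      refine ⟨rfl, ?_⟩
      have := List.append_cancel_left h3
      simpa using this
    · intro u v
      by_cases j1 : jmp (2 * D) u R (-1) D
      · by_cases j2 : hits v R (2 * D) ∧ a ≤ rew v
        · rw [ind_true j1, ind_true j2]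
          have hL : hits (false :: true :: v) L (2 * D) := by
            rw [hits_cons, hits_cons]
            refine ⟨by omega, ?_, ?_⟩
            · simp [nextK]; omega
            · simpa [nextMode, nextK] using j2.1
          have g1 : hits (u ++ (false :: true :: v)) R D := jmp_hits j1 hL
          obtain ⟨e1, e2⟩ := jmp_end j1
          have g2 : rew v ≤ rew (u ++ (false :: true :: v)) := by
            have h1 := best_append_ge u (false :: true :: v) R (-1)
            rw [e1] at h1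
            have h2 := best_ge_next false (true :: v) L (zrun u R (-1))
            have h3 := best_ge_next true v I (zrun u R (-1))
            have h4 : zs I true (zrun u R (-1)) ≤ -1 := by
              simp only [zs]; split_ifs <;> omega
            have h5 := best_anti v R h4
            simp only [nextMode, zs] at h2 h3 h5
            exact le_trans h5 (le_trans h3 (le_trans h2 h1))
          have g3 : a ≤ rew (u ++ (false :: true :: v)) :=
            le_trans j2.2 (by exact_mod_cast g2)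
          beta_reduce
          rw [ind_true (P := hits _ R D ∧ a ≤ _) ⟨g1, g3⟩, wt_eq, wt_eq, wt_eq]
          simp only [mul_one, List.length_append, List.length_cons]
          rw [← pow_add, ← pow_add]
          apply le_of_eq
          congr 1
          ring
        · rw [ind_false j2]; simp
      · rw [ind_false j1]; simp
  refine le_trans ?_ key
  have e : ∑' u, ∑' v, (coin.wt R u * ind (jmp (2 * D) u R (-1) D)) *
      ((2⁻¹ : ℝ≥0∞) ^ 2 * (coin.wt R v * ind (hits v R (2 * D) ∧ a ≤ rew v))) =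
      PJ D * ((2⁻¹ : ℝ≥0∞) ^ 2 * PE (2 * D) a) := by
    unfold PJ PE Chain.E
    simp only [ENNReal.tsum_mul_left, ENNReal.tsum_mul_right]
  rw [e]
  have h1 := PJ_ge D hD
  calc ENNReal.ofReal (1 / 128) * PE (2 * D) a
      = ENNReal.ofReal (1 / 32) * ((2⁻¹ : ℝ≥0∞) ^ 2 * PE (2 * D) a) := by
        rw [← mul_assoc]
        congr 1
        have : (2⁻¹ : ℝ≥0∞) = ENNReal.ofReal (1/2) := by
          rw [one_div, ENNReal.ofReal_inv_of_pos (by norm_num)]; norm_num
        rw [this, ← ENNReal.ofReal_pow (by norm_num), ← ENNReal.ofReal_mul (by norm_num)]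
        norm_num
    _ ≤ _ := by gcongr

end Pool.Agent.BaxterLIS
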