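import Pool.Agent.BaxterLIS.Inj

/-!
Length of the words of the stack machine, uniqueness of prefixes, padding.
-/

namespace Pool.Agent.BaxterLIS

open Mode
open scoped List

def mI : Mode → ℕ
  | I => 0
  | _ => 1

lemma run_len_eq {s s' : St} {w : List Bool} (h : Run s w s') :
    w.length + 3 * s.n + 2 * mI s.mode + (s'.left.length + s'.right.length) =
      3 * s'.n + 2 * mI s'.mode + (s.left.length + s.right.length) := by
  induction h with
  | nil => simp
  | @cons s b w s' h hr ih =>
    obtain ⟨m, l, r, n⟩ := s
    cases m <;> cases b <;> simp only [stp, mI, List.length_cons] at ih ⊢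
    · omega
    · omega
    · omega
    · obtain ⟨h1, h2⟩ := h.resolve_left (by simp) |>.resolve_left (by simp)
      simp only at h1 h2
      obtain ⟨a, l, rfl⟩ := List.exists_cons_of_ne_nil h1
      obtain ⟨b, r, rfl⟩ := List.exists_cons_of_ne_nil h2
      simp only [List.length_cons] at ih ⊢
      omega
    · omega
    · obtain ⟨h1, h2⟩ := h.resolve_left (by simp) |>.resolve_left (by simp)
      simp only at h1 h2
      obtain ⟨a, l, rfl⟩ := List.exists_cons_of_ne_nil h1
      obtain ⟨b, r, rfl⟩ := List.exists_cons_of_ne_nil h2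
      simp only [List.length_cons] at ih ⊢
      omega

lemma run_len_ge {s s' : St} {w : List Bool} (h : Run s w s') :
    2 * s'.n + mI s'.mode ≤ w.length + 2 * s.n + mI s.mode := by
  induction h with
  | nil => simp
  | @cons s b w s' h hr ih =>
    obtain ⟨m, l, r, n⟩ := s
    cases m <;> cases b <;> simp only [stp, mI, List.length_cons] at ih ⊢
    · omega
    · omega
    · omega
    · obtain ⟨h1, h2⟩ := h.resolve_left (by simp) |>.resolve_left (by simp)
      simp only at h1 h2
      obtain ⟨a, l, rfl⟩ := List.exists_cons_of_ne_nil h1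
      obtain ⟨b, r, rfl⟩ := List.exists_cons_of_ne_nil h2
      simp only at ih ⊢
      omega
    · omega
    · obtain ⟨h1, h2⟩ := h.resolve_left (by simp) |>.resolve_left (by simp)
      simp only at h1 h2
      obtain ⟨a, l, rfl⟩ := List.exists_cons_of_ne_nil h1
      obtain ⟨b, r, rfl⟩ := List.exists_cons_of_ne_nil h2
      simp only at ih ⊢
      omega

lemma word_len {s' : St} {w : List Bool} (h : Run init w s') (hm : s'.mode = I) :
    w.length ≤ 3 * (s'.n - 1) ∧ 2 * (s'.n - 1) ≤ w.length := by
  have h1 := run_len_eq h
  have h2 := run_len_ge h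
  rw [hm] at h1 h2
  simp only [init, mI, List.length_nil] at h1 h2
  omega

/-- the padded word -/
def pad (N : ℕ) (w : List Bool) : List Bool := w ++ List.replicate (N - w.length) false

lemma pad_length {N : ℕ} {w : List Bool} (h : w.length ≤ N) : (pad N w).length = N := by
  simp [pad]; omega

lemma prefix_unique {s1 s2 : St} {w1 u : List Bool} (h1 : Run init w1 s1) (hm1 : s1.mode = I)
    (h2 : Run init (w1 ++ u) s2) (hm2 : s2.mode = I) (hn : s1.n = s2.n) : u = [] := by
  obtain ⟨s', r1, r2⟩ := run_split h2
  have h3 : s' = s1 := run_det r1 h1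
  subst h3
  cases u with
  | nil => rfl
  | cons b u =>
    exfalso
    have := run_n_lt' r2 hm1 hm2
    omega

lemma pad_inj {s1 s2 : St} {w1 w2 : List Bool} {N : ℕ} (h1 : Run init w1 s1) (hm1 : s1.mode = I)
    (h2 : Run init w2 s2) (hm2 : s2.mode = I) (hn : s1.n = s2.n)
    (h : pad N w1 = pad N w2) : w1 = w2 := by
  unfold pad at h
  rcases List.append_eq_append_iff.mp h with ⟨u, hu, _⟩ | ⟨u, hu, _⟩
  · subst hu
    rw [prefix_unique h1 hm1 h2 hm2 hn]; simp
  · subst hu
    rw [prefix_unique h2 hm2 h1 hm1 hn.symm]; simp

lemma badWins_of {h : ℕ} {r : ℝ} {m q : ℕ} {x : List Bool}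
    (H : ∀ i < q, ¬ goodWin h r ((x.drop (i * m)).take m)) : badWins h r m q x := by
  induction q generalizing x with
  | zero => trivial
  | succ q ih =>
    refine ⟨?_, ih ?_⟩
    · have := H 0 (Nat.succ_pos q)
      simpa using this
    · intro i hi
      have := H (i + 1) (by omega)
      rw [List.drop_drop]
      have e : m + i * m = (i + 1) * m := by ring
      rw [e]; exact this

/-- without long increasing chains all windows are bad -/
lemma badWins_of_run {s' : St} {w : List Bool} {h m q N : ℕ} {r : ℝ} (hr : Run init w s')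
    (hq : q * m ≤ w.length)
    (hno : ¬ ∃ c : List ℕ, c <+ arr s' ∧ c.Pairwise (· < ·) ∧ r ≤ c.length) :
    badWins h r m q (pad N w) := by
  apply badWins_of
  intro i hi hg
  apply hno
  have him : i * m + m ≤ w.length := by
    have : (i + 1) * m ≤ q * m := Nat.mul_le_mul_right _ hi
    calc i * m + m = (i + 1) * m := by ring
      _ ≤ _ := this.trans hq
  have e1 : ((pad N w).drop (i * m)).take m = (w.drop (i * m)).take m := by
    unfold pad
    rw [List.drop_append_of_le_length (by omega), List.take_append_of_le_length]
    rw [List.length_drop]; omega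
  rw [e1] at hg
  obtain ⟨y, hy, hgb⟩ := hg
  have e2 : w = w.take (i * m) ++ ([false, true, false, true] ++ y) ++ (w.drop (i * m)).drop m := by
    have e3 : w.drop (i * m) = ([false, true, false, true] ++ y) ++ (w.drop (i * m)).drop m := by
      have e4 := (List.take_append_drop m (w.drop (i * m))).symm
      rw [hy] at e4
      exact e4
    have e5 := (List.take_append_drop (i * m) w).symm
    rw [e3] at e5
    rw [List.append_assoc]
    exact e5
  rw [e2] at hr
  exact good_window hr wf_init hgb

end Pool.Agent.BaxterLIS
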