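import Mathlib

/-!
Abstract block renormalisation: a family of `ℕ`-valued laws described by tail functions
`P h a` and Laplace transforms `Lam h l`.
-/

namespace Pool.Agent.BaxterLIS

open Real Filter Topology

/-- Data of a superadditive family of block rewards with the jump inequality. -/
structure BlockFam where
  P : ℕ → ℝ → ℝ
  Lam : ℕ → ℝ → ℝ
  P_nonneg : ∀ h a, 0 ≤ P h a
  P_le_one : ∀ h a, P h a ≤ 1
  P_anti : ∀ h a b, a ≤ b → P h b ≤ P h a
  Lam_nonneg : ∀ h l, 0 ≤ Lam h l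
  Lam_add : ∀ h₁ h₂ l, 0 ≤ l → Lam (h₁ + h₂) l ≤ Lam h₁ l * Lam h₂ l
  Lam_zero : ∀ l, Lam 0 l ≤ 1
  Lam_le : ∀ h l a₁ a₂, 0 ≤ l → 0 ≤ a₁ → a₁ ≤ a₂ →
    Lam h l ≤ 1 - (1 - exp (-(l * a₁))) * P h a₁ - (exp (-(l * a₁)) - exp (-(l * a₂))) * P h a₂
  tail_le : ∀ h l a, 0 ≤ l → 1 - P h a ≤ exp (l * a) * Lam h l
  p₀ : ℝ
  p₀_pos : 0 < p₀
  p₀_le : p₀ ≤ 1
  H₀ : ℕ
  jump : ∀ D, H₀ ≤ D → ∀ a, p₀ * P (2 * D) a ≤ P D a
  lim : Tendsto (fun h => P h 1) atTop (𝓝 1)

namespace BlockFam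

variable (F : BlockFam)

lemma Lam_pow (h N : ℕ) (l : ℝ) (hl : 0 ≤ l) : F.Lam (N * h) l ≤ (F.Lam h l) ^ N := by
  induction N with
  | zero => simpa using F.Lam_zero l
  | succ N ih =>
    have h1 : (N + 1) * h = N * h + h := by ring
    rw [h1, pow_succ]
    refine (F.Lam_add _ _ _ hl).trans ?_
    exact mul_le_mul_of_nonneg_right ih (F.Lam_nonneg _ _)

/-- Lower tail for sums of many good blocks. -/
lemma many_blocks (h : ℕ) (r η ε : ℝ) (hr : 0 < r) (hε : 0 < ε)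
    (hP : 1 - η ≤ F.P h r) (hη : η * exp (1 / ε) ≤ 1 / 2 - exp (-1)) (N : ℕ) :
    1 - (1 / 2 : ℝ) ^ N ≤ F.P (N * h) ((1 - ε) * (N * r)) := by
  set l : ℝ := 1 / (ε * r) with hl
  have hl0 : 0 ≤ l := by positivity
  have hlr : l * r = 1 / ε := by
    rw [hl]; field_simp
  have h1 := F.tail_le (N * h) l ((1 - ε) * (N * r)) hl0
  have h2 := F.Lam_pow h N l hl0
  have h3 := F.Lam_le h l r r hl0 hr.le le_rfl
  have h4 : F.Lam h l ≤ η + exp (-(1 / ε)) := by
    have hP1 := F.P_le_one h r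
    have hE : exp (-(l * r)) ≤ 1 := by
      apply exp_le_one_iff.mpr; have : 0 ≤ l * r := by positivity
      linarith
    have hE0 : 0 < exp (-(l * r)) := exp_pos _
    rw [hlr] at h3 hE hE0
    nlinarith
  have h5 : exp (l * ((1 - ε) * (N * r))) = (exp ((1 - ε) / ε)) ^ N := by
    rw [← exp_nat_mul]
    congr 1
    have : l * ((1 - ε) * (N * r)) = N * ((1 - ε) * (l * r)) := by ring
    rw [this, hlr]; ring
  have hη0 : 0 ≤ η := by have := F.P_le_one h r; linarith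
  have h6 : exp (l * ((1 - ε) * (N * r))) * F.Lam (N * h) l ≤ (1 / 2 : ℝ) ^ N := by
    rw [h5]
    have h7 : F.Lam (N * h) l ≤ (η + exp (-(1 / ε))) ^ N :=
      h2.trans (pow_le_pow_left₀ (F.Lam_nonneg _ _) h4 N)
    calc (exp ((1 - ε) / ε)) ^ N * F.Lam (N * h) l
        ≤ (exp ((1 - ε) / ε)) ^ N * (η + exp (-(1 / ε))) ^ N := by gcongr
      _ = (exp ((1 - ε) / ε) * (η + exp (-(1 / ε)))) ^ N := by rw [mul_pow]
      _ ≤ (1 / 2 : ℝ) ^ N := by
          apply pow_le_pow_left₀ (by positivity)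
          have e1 : (1 - ε) / ε = 1 / ε - 1 := by field_simp
          have e2 : exp ((1 - ε) / ε) * exp (-(1 / ε)) = exp (-1) := by
            rw [← exp_add, e1]; congr 1; ring
          have e3 : exp ((1 - ε) / ε) ≤ exp (1 / ε) := by
            apply exp_le_exp.mpr; rw [e1]; linarith
          have e4 : exp ((1 - ε) / ε) * η ≤ η * exp (1 / ε) := by
            rw [mul_comm]; gcongr
          rw [mul_add, e2]; linarith
  linarith

/-- The small-parameter inequality. -/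
lemma exists_params (p₀ : ℝ) (hp : 0 < p₀) (hp1 : p₀ ≤ 1) :
    ∃ ε δ q : ℝ, 0 < ε ∧ ε < 1 ∧ 0 < δ ∧ 0 < q ∧ q < 1 ∧ ∃ θ : ℝ, 0 ≤ θ ∧ θ < 1 ∧
      ∀ q' : ℝ, 0 ≤ q' → q' ≤ q →
      exp (1 + δ) * (1 - (1 - exp (-(1 - ε))) * (1 - q') -
        (exp (-(1 - ε)) - exp (-(2 * (1 - ε)))) * (p₀ * (1 - q'))) ≤ θ := by
  -- continuity at zero of f(t) with ε = δ = q = t
  set f : ℝ → ℝ := fun t => exp (1 + t) * (1 - (1 - exp (-(1 - t))) * (1 - t) -
        (exp (-(1 - t)) - exp (-(2 * (1 - t)))) * (p₀ * (1 - t))) with hf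
  have hcont : Continuous f := by
    rw [hf]; fun_prop
  have hf0 : f 0 < 1 := by
    have e1 : f 0 = 1 - p₀ * (1 - exp (-1)) := by
      simp only [hf]
      have a1 : exp (-(2 * (1 - (0:ℝ)))) = exp (-1) * exp (-1) := by
        rw [← exp_add]; norm_num
      have a2 : exp (-(1 - (0:ℝ))) = exp (-1) := by norm_num
      rw [a1, a2]
      have a3 : exp (1 + (0:ℝ)) * exp (-1) = 1 := by
        rw [← exp_add]; norm_num
      linear_combination (1 + p₀ * exp (-1) - p₀) * a3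
    rw [e1]
    have : exp (-1) < 1 := by
      rw [exp_lt_one_iff]; norm_num
    nlinarith
  have hev : ∀ᶠ t in 𝓝 (0:ℝ), f t < (1 + f 0) / 2 :=
    hcont.continuousAt.eventually_lt continuousAt_const (by linarith)
  obtain ⟨r, hr, hball⟩ := Metric.eventually_nhds_iff.mp hev
  set t := min (r / 2) (1 / 2) with ht
  have ht0 : 0 < t := by positivity
  have ht1 : t ≤ 1 / 2 := min_le_right _ _
  have htr : t < r := by
    have : t ≤ r / 2 := min_le_left _ _
    linarith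
  have hft : f t < (1 + f 0) / 2 := by
    apply hball
    rw [Real.dist_eq, sub_zero, abs_of_pos ht0]; exact htr
  refine ⟨t, t, t, ht0, by linarith, ht0, ht0, by linarith, max 0 ((1 + f 0) / 2), le_max_left _ _,
    max_lt one_pos (by linarith), ?_⟩
  intro q' hq0 hq
  refine le_trans ?_ ((hft.le).trans (le_max_right _ _))
  simp only [hf]
  apply mul_le_mul_of_nonneg_left _ (exp_pos _).le
  have b1 : exp (-(1 - t)) ≤ 1 := by
    apply exp_le_one_iff.mpr; linarith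
  have b2 : exp (-(2 * (1 - t))) ≤ exp (-(1 - t)) := by
    apply exp_le_exp.mpr; linarith
  have c1 : (1 - exp (-(1 - t))) * (1 - t) ≤ (1 - exp (-(1 - t))) * (1 - q') := by
    apply mul_le_mul_of_nonneg_left (by linarith) (by linarith)
  have c2 : (exp (-(1 - t)) - exp (-(2 * (1 - t)))) * (p₀ * (1 - t)) ≤
      (exp (-(1 - t)) - exp (-(2 * (1 - t)))) * (p₀ * (1 - q')) := by
    apply mul_le_mul_of_nonneg_left _ (by linarith)
    apply mul_le_mul_of_nonneg_left (by linarith) hp.le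
  linarith

/-- One renormalisation step, then iterated: rewards grow like a power larger than one. -/
theorem renorm : ∃ (h₀ C : ℕ) (δ : ℝ), 1 ≤ h₀ ∧ 2 ≤ C ∧ 0 < δ ∧
    ∀ j : ℕ, 3 / 4 ≤ F.P (h₀ * C ^ j) (((1 + δ) * C) ^ j) := by
  obtain ⟨ε, δ, q, hε, hε1, hδ, hq, hq1, θ, hθ0, hθ1, hpar⟩ := exists_params F.p₀ F.p₀_pos F.p₀_le
  -- choose N
  obtain ⟨N, hN⟩ := exists_pow_lt_of_lt_one hq (by norm_num : (1/2:ℝ) < 1)
  have hNpos : 0 < N := by
    rcases Nat.eq_zero_or_pos N with h | h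
    · subst h; simp at hN; linarith
    · exact h
  have hexp1 : exp (-1) < 1 / 2 := by
    have h2 : (2:ℝ) < exp 1 := by
      have := Real.exp_one_gt_d9; linarith
    have h3 : exp (-1) * exp 1 = 1 := by rw [← exp_add]; norm_num
    have h4 : 0 < exp (-1) := exp_pos _
    nlinarith
  set η : ℝ := min (1/4) ((1 / 2 - exp (-1)) * exp (-(1 / ε))) with hη
  have hη0 : 0 < η := by
    apply lt_min (by norm_num)
    apply mul_pos (by linarith) (exp_pos _)
  have hη1 : η * exp (1 / ε) ≤ 1 / 2 - exp (-1) := by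
    have : η ≤ (1 / 2 - exp (-1)) * exp (-(1 / ε)) := min_le_right _ _
    calc η * exp (1 / ε) ≤ (1 / 2 - exp (-1)) * exp (-(1 / ε)) * exp (1 / ε) := by gcongr
      _ = 1 / 2 - exp (-1) := by
        rw [mul_assoc, ← exp_add]; simp
  obtain ⟨K, hK⟩ := exists_pow_lt_of_lt_one hη0 hθ1
  -- make K ≥ 2
  set K' := K + 2 with hK'
  have hK'2 : θ ^ K' ≤ η := by
    have : θ ^ K' ≤ θ ^ K := pow_le_pow_of_le_one hθ0 hθ1.le (by omega)
    linarith
  have step : ∀ (h : ℕ) (r : ℝ), 1 ≤ h → F.H₀ ≤ h → 0 < r → 1 - η ≤ F.P h r →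
      1 - η ≤ F.P (h * (K' * N)) (((1 + δ) * ((K' * N : ℕ) : ℝ)) * r) := by
    intro h r h1 hH hr hP
    set D := N * h with hD
    have hDH : F.H₀ ≤ D := by
      calc F.H₀ ≤ h := hH
        _ = 1 * h := by ring
        _ ≤ N * h := Nat.mul_le_mul_right _ hNpos
    have hNr : (0:ℝ) < N * r := by positivity
    -- two estimates
    have e1 : 1 - (1/2:ℝ)^N ≤ F.P D ((1 - ε) * (N * r)) :=
      F.many_blocks h r η ε hr hε hP hη1 N
    have e2 : F.p₀ * (1 - (1/2:ℝ)^N) ≤ F.P D (2 * ((1 - ε) * (N * r))) := by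
      have e3 := F.many_blocks h r η ε hr hε hP hη1 (2 * N)
      have e4 : 2 * N * h = 2 * D := by rw [hD]; ring
      rw [e4] at e3
      have e5 : (1 - ε) * (((2 * N : ℕ) : ℝ) * r) = 2 * ((1 - ε) * (N * r)) := by
        push_cast; ring
      rw [e5] at e3
      have e6 : (1/2:ℝ)^(2*N) ≤ (1/2:ℝ)^N :=
        pow_le_pow_of_le_one (by norm_num) (by norm_num) (by omega)
      calc F.p₀ * (1 - (1/2:ℝ)^N) ≤ F.p₀ * F.P (2 * D) (2 * ((1 - ε) * (N * r))) := by
            apply mul_le_mul_of_nonneg_left _ F.p₀_pos.le; linarith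
        _ ≤ _ := F.jump D hDH _
    set l : ℝ := 1 / (N * r) with hl
    have hl0 : 0 ≤ l := by positivity
    have hlN : l * (N * r) = 1 := by rw [hl]; field_simp
    have hLam := F.Lam_le D l ((1 - ε) * (N * r)) (2 * ((1 - ε) * (N * r))) hl0
      (by apply mul_nonneg (by linarith) hNr.le)
      (by have : 0 ≤ (1 - ε) * (N * r) := by apply mul_nonneg (by linarith) hNr.le
          linarith)
    have hl1 : l * ((1 - ε) * (N * r)) = 1 - ε := by
      have : l * ((1 - ε) * (N * r)) = (1 - ε) * (l * (N * r)) := by ring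
      rw [this, hlN, mul_one]
    have hl2 : l * (2 * ((1 - ε) * (N * r))) = 2 * (1 - ε) := by
      have : l * (2 * ((1 - ε) * (N * r))) = 2 * (l * ((1 - ε) * (N * r))) := by ring
      rw [this, hl1]
    rw [hl1, hl2] at hLam
    have b1 : exp (-(1 - ε)) ≤ 1 := by
      apply exp_le_one_iff.mpr; linarith
    have b2 : exp (-(2 * (1 - ε))) ≤ exp (-(1 - ε)) := by
      apply exp_le_exp.mpr; linarith
    have hLam2 : F.Lam D l ≤ 1 - (1 - exp (-(1 - ε))) * (1 - (1/2:ℝ)^N) -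
        (exp (-(1 - ε)) - exp (-(2 * (1 - ε)))) * (F.p₀ * (1 - (1/2:ℝ)^N)) := by
      have c1 : (1 - exp (-(1 - ε))) * (1 - (1/2:ℝ)^N) ≤
          (1 - exp (-(1 - ε))) * F.P D ((1 - ε) * (N * r)) :=
        mul_le_mul_of_nonneg_left e1 (by linarith)
      have c2 : (exp (-(1 - ε)) - exp (-(2 * (1 - ε)))) * (F.p₀ * (1 - (1/2:ℝ)^N)) ≤
          (exp (-(1 - ε)) - exp (-(2 * (1 - ε)))) * F.P D (2 * ((1 - ε) * (N * r))) :=
        mul_le_mul_of_nonneg_left e2 (by linarith)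
      linarith
    have hpar' := hpar ((1/2:ℝ)^N) (by positivity) hN.le
    have hkey : exp (1 + δ) * F.Lam D l ≤ θ :=
      (mul_le_mul_of_nonneg_left hLam2 (exp_pos _).le).trans hpar'
    have hKD : h * (K' * N) = K' * D := by rw [hD]; ring
    rw [hKD]
    have htail := F.tail_le (K' * D) l (((1 + δ) * ((K' * N : ℕ) : ℝ)) * r) hl0
    have hLamK := F.Lam_pow D K' l hl0
    have hex : exp (l * (((1 + δ) * ((K' * N : ℕ) : ℝ)) * r)) = (exp (1 + δ)) ^ K' := by
      rw [← exp_nat_mul]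
      congr 1
      have : l * (((1 + δ) * ((K' * N : ℕ) : ℝ)) * r) = K' * (1 + δ) * (l * (N * r)) := by
        push_cast; ring
      rw [this, hlN]; ring
    rw [hex] at htail
    have : (exp (1 + δ)) ^ K' * F.Lam (K' * D) l ≤ θ ^ K' := by
      calc (exp (1 + δ)) ^ K' * F.Lam (K' * D) l ≤ (exp (1 + δ)) ^ K' * (F.Lam D l) ^ K' := by
            gcongr
        _ = (exp (1 + δ) * F.Lam D l) ^ K' := by rw [mul_pow]
        _ ≤ θ ^ K' := by
            apply pow_le_pow_left₀ _ hkey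
            exact mul_nonneg (exp_pos _).le (F.Lam_nonneg _ _)
    linarith
  -- initial scale
  have hlim := F.lim
  have hev : ∀ᶠ h in atTop, 1 - η ≤ F.P h 1 := by
    have : ∀ᶠ h in atTop, F.P h 1 ∈ Set.Ioi (1 - η) :=
      hlim.eventually (Ioi_mem_nhds (by linarith))
    filter_upwards [this] with h hh
    exact le_of_lt hh
  obtain ⟨h₁, hh₁⟩ := eventually_atTop.mp hev
  set h₀ := max 1 (max h₁ F.H₀) with hh₀
  refine ⟨h₀, K' * N, δ, le_max_left _ _, ?_, hδ, ?_⟩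
  · calc 2 ≤ K' := by omega
      _ = K' * 1 := by ring
      _ ≤ K' * N := Nat.mul_le_mul_left _ hNpos
  · have hall : ∀ j : ℕ, 1 - η ≤ F.P (h₀ * (K' * N) ^ j) (((1 + δ) * ((K' * N : ℕ) : ℝ)) ^ j) := by
      intro j
      induction j with
      | zero =>
        simp only [pow_zero, mul_one]
        exact hh₁ _ (le_trans (le_max_left _ _) (le_max_right _ _))
      | succ j ih =>
        have hpos : 1 ≤ (K' * N) ^ j := Nat.one_le_pow _ _ (by positivity)
        have g1 : h₀ ≤ h₀ * (K' * N) ^ j := Nat.le_mul_of_pos_right _ hpos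
        have g2 := step (h₀ * (K' * N) ^ j) (((1 + δ) * ((K' * N : ℕ) : ℝ)) ^ j)
          (le_trans (le_max_left _ _) g1)
          (le_trans (le_trans (le_max_right _ _) (le_max_right _ _)) g1)
          (by positivity) ih
        have g3 : h₀ * (K' * N) ^ (j + 1) = h₀ * (K' * N) ^ j * (K' * N) := by ring
        have g4 : ((1 + δ) * ((K' * N : ℕ) : ℝ)) ^ (j + 1) =
            ((1 + δ) * ((K' * N : ℕ) : ℝ)) * ((1 + δ) * ((K' * N : ℕ) : ℝ)) ^ j := by ring
        rw [g3, g4]; exact g2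
    intro j
    have hη4 : η ≤ 1/4 := min_le_left _ _
    have := hall j
    linarith

end BlockFam

end Pool.Agent.BaxterLIS
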