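import Pool.Agent.BaxterLIS.Words
import Pool.Agent.BaxterLIS.Renorm

/-!
The coin-flip machine for Baxter permutations: modes, height, tracked walker and the number of
restarts of the walker.
-/

namespace Pool.Agent.BaxterLIS

open scoped ENNReal
open Filter Topology

/-- modes of the machine: `I` idle, `R` popping the right stack, `L` popping the left stack -/
inductive Mode
  | I | R | L
  deriving DecidableEq

open Mode

/-- next mode -/
def nextMode : Mode → Bool → Mode
  | I, true => R
  | I, false => L
  | R, true => R
  | R, false => I
  | L, true => L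
  | L, false => I

/-- height of the right stack above the reference level -/
def nextK : Mode → Bool → ℕ → ℕ
  | I, false, k => k + 1
  | R, true, k => k - 1
  | _, _, k => k

/-- depth of a tracked element: negative in the left stack, positive in the right stack -/
def zs : Mode → Bool → ℤ → ℤ
  | I, true, z => if z ≤ 0 then z - 1 else z
  | I, false, z => if 0 ≤ z then z + 1 else z
  | R, true, z => if 2 ≤ z then z - 1 else min z (-1)
  | R, false, z => z
  | L, true, z => if z ≤ -2 then z + 1 else max z 1
  | L, false, z => z

/-- the fair-coin chain on modes -/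
noncomputable def coin : Chain Mode where
  nx := nextMode
  p := fun _ _ => 1 / 2
  p_nonneg := by intros; norm_num
  p_sum := by intros; norm_num

@[simp] lemma coin_nx (m : Mode) (b : Bool) : coin.nx m b = nextMode m b := rfl
@[simp] lemma coin_p (m : Mode) (b : Bool) : coin.p m b = 1 / 2 := rfl

/-- height automaton -/
def nt1 (t : Mode × ℕ) (b : Bool) : Mode × ℕ := (nextMode t.1 b, nextK t.1 b t.2)

/-- resolved: height zero -/
def fin1 (t : Mode × ℕ) : Prop := t.2 = 0

/-- `hits w m k`: reading `w` from mode `m`, the height `k` is brought to zero for the first time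
exactly at the end of `w` -/
def hits (w : List Bool) (m : Mode) (k : ℕ) : Prop := acc nt1 fin1 fin1 w (m, k)

lemma hits_nil {m : Mode} {k : ℕ} : hits [] m k ↔ k = 0 := Iff.rfl
lemma hits_cons {b : Bool} {w : List Bool} {m : Mode} {k : ℕ} :
    hits (b :: w) m k ↔ k ≠ 0 ∧ hits w (nextMode m b) (nextK m b k) := Iff.rfl

lemma nextK_add {m : Mode} {b : Bool} {a k : ℕ} (ha : a ≠ 0) :
    nextK m b (a + k) = nextK m b a + k := by
  cases m <;> cases b <;> simp [nextK] <;> omega

lemma nextK_zero_mode {m : Mode} {b : Bool} {a : ℕ} (ha : a ≠ 0) (h : nextK m b a = 0) :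
    nextMode m b = R := by
  cases m <;> cases b <;> simp [nextK, nextMode] at * <;> omega

lemma hits_split {w : List Bool} {m : Mode} {a k : ℕ} (hm : a = 0 → m = R) (h : hits w m (a + k)) :
    ∃ u v, w = u ++ v ∧ hits u m a ∧ hits v R k := by
  induction w generalizing m a with
  | nil =>
    have h0 : a + k = 0 := h
    obtain ⟨rfl, rfl⟩ : a = 0 ∧ k = 0 := by omega
    exact ⟨[], [], rfl, rfl, rfl⟩
  | cons b w ih =>
    by_cases ha : a = 0
    · subst ha
      obtain rfl := hm rfl
      refine ⟨[], b :: w, rfl, rfl, ?_⟩
      simpa using h
    · rw [hits_cons, nextK_add ha] at h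
      obtain ⟨u, v, rfl, hu, hv⟩ := ih (fun h0 => nextK_zero_mode ha h0) h.2
      exact ⟨b :: u, v, rfl, ⟨ha, hu⟩, hv⟩

lemma hits_append {u v : List Bool} {m : Mode} {a k : ℕ} (hm : a = 0 → m = R) (hu : hits u m a)
    (hv : hits v R k) : hits (u ++ v) m (a + k) := by
  induction u generalizing m a with
  | nil =>
    have h0 : a = 0 := hu
    subst h0
    obtain rfl := hm rfl
    simpa using hv
  | cons b u ih =>
    rw [hits_cons] at hu
    rw [List.cons_append, hits_cons, nextK_add hu.1]
    exact ⟨by omega, ih (fun h0 => nextK_zero_mode hu.1 h0) hu.2⟩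

lemma hits_run {u : List Bool} {m : Mode} {a : ℕ} (hm : a = 0 → m = R) (hu : hits u m a) :
    coin.run m u = R := by
  induction u generalizing m a with
  | nil => exact hm hu
  | cons b u ih =>
    rw [hits_cons] at hu
    exact ih (fun h0 => nextK_zero_mode hu.1 h0) hu.2

lemma hits_prefix_free {u v x y : List Bool} {m : Mode} {k : ℕ} (hu : hits u m k)
    (hv : hits v m k) (h : u ++ x = v ++ y) : u = v :=
  acc_prefix_free fin1 fin1 (fun _ h => h) (m, k) u v x y hu hv h

/-- maximal number of restarts of the walker while reading `w` -/
def best : List Bool → Mode → ℤ → ℕ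
  | [], _, _ => 0
  | b :: w, m, z =>
    if b = false ∧ m ≠ I ∧ z < 0 then
      max (best w (nextMode m b) (zs m b z)) (1 + best w I 0)
    else best w (nextMode m b) (zs m b z)

/-- reward of a block -/
def rew (w : List Bool) : ℕ := best w R (-1)

lemma zs_mono (m : Mode) (b : Bool) {z₁ z₂ : ℤ} (h : z₁ ≤ z₂) : zs m b z₁ ≤ zs m b z₂ := by
  cases m <;> cases b <;> simp only [zs] <;> (try split_ifs) <;> omega

lemma best_anti (w : List Bool) (m : Mode) {z₁ z₂ : ℤ} (h : z₁ ≤ z₂) :
    best w m z₂ ≤ best w m z₁ := by
  induction w generalizing m z₁ z₂ with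
  | nil => exact le_rfl
  | cons b w ih =>
    have h1 := ih (nextMode m b) (zs_mono m b h)
    simp only [best]
    split_ifs with h2 h3
    · exact max_le_max h1 le_rfl
    · exfalso; exact h3 ⟨h2.1, h2.2.1, by omega⟩
    · exact h1.trans (le_max_left _ _)
    · exact h1

lemma best_ge_next (b : Bool) (w : List Bool) (m : Mode) (z : ℤ) :
    best w (nextMode m b) (zs m b z) ≤ best (b :: w) m z := by
  simp only [best]; split_ifs
  · exact le_max_left _ _
  · exact le_rfl

/-- walker after reading a word, without restarts -/
def zrun : List Bool → Mode → ℤ → ℤ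
  | [], _, z => z
  | b :: w, m, z => zrun w (nextMode m b) (zs m b z)

lemma best_append_ge (u v : List Bool) (m : Mode) (z : ℤ) :
    best v (coin.run m u) (zrun u m z) ≤ best (u ++ v) m z := by
  induction u generalizing m z with
  | nil => exact le_rfl
  | cons b u ih => exact (ih _ _).trans (best_ge_next _ _ _ _)

/-- superadditivity of the number of restarts over a completed block -/
lemma best_superadd {u v : List Bool} {m : Mode} {z : ℤ} {k : ℕ} (hu : hits u m k)
    (hm : k = 0 → m = R) (hz : z ≤ k) (hz0 : z = 0 → m = I) :
    best u m z + best v R (-1) ≤ best (u ++ v) m z := by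
  induction u generalizing m z k with
  | nil =>
    have h0 : k = 0 := hu
    subst h0
    obtain rfl := hm rfl
    have : z ≤ -1 := by
      have h1 : z ≠ 0 := fun h => by simpa using hz0 h
      push_cast at hz; omega
    simpa [best] using best_anti v R this
  | cons b u ih =>
    rw [hits_cons] at hu
    obtain ⟨hk, hu⟩ := hu
    have hm' : nextK m b k = 0 → nextMode m b = R := fun h0 => nextK_zero_mode hk h0
    have h1 : best u (nextMode m b) (zs m b z) + best v R (-1) ≤
        best (u ++ v) (nextMode m b) (zs m b z) := by
      apply ih hu hm'
      · cases m <;> cases b <;> simp only [zs, nextK] <;> (try split_ifs) <;> push_cast <;> omega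
      · intro h
        cases m <;> cases b <;> simp only [zs, nextMode] at * <;> (try split_ifs at h) <;>
          first | rfl | omega
    simp only [List.cons_append, best]
    split_ifs with h2
    · obtain ⟨rfl, hmI, hz1⟩ := h2
      have hI : nextMode m false = I := by cases m <;> simp_all [nextMode]
      have hK : nextK m false k = k := by cases m <;> simp_all [nextK]
      have h3 : best u I 0 + best v R (-1) ≤ best (u ++ v) I 0 := by
        apply ih (k := k) (m := I) (z := 0)
        · rw [hI, hK] at hu; exact hu
        · intro h; exact absurd h hk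
        · positivity
        · intro; rfl
      omega
    · exact h1

lemma rew_append {u v : List Bool} {h : ℕ} (hu : hits u R h) :
    rew u + rew v ≤ rew (u ++ v) := by
  apply best_superadd hu
  · intro; rfl
  · have : (0:ℤ) ≤ h := by positivity
    omega
  · intro h; simp at h

lemma one_le_rew {w : List Bool} {h : ℕ} (hw : hits w R h) (hne : w ≠ List.replicate h true) :
    1 ≤ rew w := by
  induction h generalizing w with
  | zero =>
    cases w with
    | nil => simp at hne
    | cons b w => exact absurd rfl hw.1
  | succ h ih =>
    cases w with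
    | nil => exact absurd (show h + 1 = 0 from hw) (by omega)
    | cons b w =>
      cases b with
      | true =>
        have h1 : hits w R h := by
          have := (hits_cons.mp hw).2
          simpa [nextMode, nextK] using this
        have h2 : w ≠ List.replicate h true := by
          intro h3; apply hne; rw [h3]; rfl
        have h3 := ih h1 h2
        have h4 := best_ge_next true w R (-1)
        have h5 : zs R true (-1) = -1 := by decide
        rw [h5] at h4
        exact h3.trans h4
      | false =>
        simp only [rew, best]
        simp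

end Pool.Agent.BaxterLIS
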