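import Pool.Agent.BaxterLIS.Windows

/-!
The stack machine that builds Baxter permutations, and the link between walkers and
increasing chains.
-/

namespace Pool.Agent.BaxterLIS

open Mode
open scoped List

/-- state of the stack machine; blocks are lists of labels, top block first;
`n` elements have been inserted (labels `0, ..., n-1`) -/
structure St where
  mode : Mode
  left : List (List ℕ)
  right : List (List ℕ)
  n : ℕ

/-- one flip -/
def stp (s : St) (b : Bool) : St :=
  match s.mode, b with
  | I, true => ⟨R, [s.n - 1] :: s.left, s.right, s.n⟩
  | I, false => ⟨L, s.left, [s.n - 1] :: s.right, s.n⟩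
  | R, false => ⟨I, s.left, s.right, s.n + 1⟩
  | L, false => ⟨I, s.left, s.right, s.n + 1⟩
  | R, true => match s.left, s.right with
    | l :: ls, r :: rs => ⟨R, (l ++ r) :: ls, rs, s.n⟩
    | _, _ => s
  | L, true => match s.left, s.right with
    | l :: ls, r :: rs => ⟨L, ls, (l ++ r) :: rs, s.n⟩
    | _, _ => s

/-- a pop is allowed only if both stacks are nonempty -/
def okk (s : St) (b : Bool) : Prop := s.mode = I ∨ b = false ∨ (s.left ≠ [] ∧ s.right ≠ [])

/-- valid runs -/
inductive Run : St → List Bool → St → Prop
  | nil (s : St) : Run s [] s
  | cons {s : St} {b : Bool} {w : List Bool} {s' : St} (h : okk s b) (hr : Run (stp s b) w s') :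
      Run s (b :: w) s'

/-- the arrangement of the inserted elements, from left to right -/
def arr (s : St) : List ℕ :=
  match s.mode with
  | I => s.left.reverse.flatten ++ (s.n - 1) :: s.right.flatten
  | _ => s.left.reverse.flatten ++ s.right.flatten

/-- the initial state: one element -/
def init : St := ⟨I, [], [], 1⟩

lemma run_append {s s' s'' : St} {u v : List Bool} (h1 : Run s u s') (h2 : Run s' v s'') :
    Run s (u ++ v) s'' := by
  induction h1 with
  | nil => exact h2
  | cons h _ ih => exact Run.cons h (ih h2)

lemma run_split {s s'' : St} {u v : List Bool} (h : Run s (u ++ v) s'') :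
    ∃ s', Run s u s' ∧ Run s' v s'' := by
  induction u generalizing s with
  | nil => exact ⟨s, Run.nil s, h⟩
  | cons b u ih =>
    cases h with
    | cons hk hr =>
      obtain ⟨s', h1, h2⟩ := ih hr
      exact ⟨s', Run.cons hk h1, h2⟩

lemma stp_mode (s : St) (b : Bool) : (stp s b).mode = nextMode s.mode b := by
  obtain ⟨m, l, r, n⟩ := s
  cases m <;> cases b <;> simp [stp, nextMode]
  · cases l <;> cases r <;> simp
  · cases l <;> cases r <;> simp

lemma run_mode {s s' : St} {w : List Bool} (h : Run s w s') : s'.mode = coin.run s.mode w := by
  induction h with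
  | nil => rfl
  | cons h hr ih => rw [ih, stp_mode]; rfl

lemma run_det {s s1 s2 : St} {w : List Bool} (h1 : Run s w s1) (h2 : Run s w s2) : s1 = s2 := by
  induction h1 with
  | nil => cases h2; rfl
  | cons h hr ih => cases h2 with
    | cons h' hr' => exact ih hr'

/-- invariant: blocks nonempty, labels are exactly `0..n-1`, `n ≥ 1` -/
structure WF (s : St) : Prop where
  left_ne : ∀ b ∈ s.left, b ≠ []
  right_ne : ∀ b ∈ s.right, b ≠ []
  perm : (arr s).Perm (List.range s.n)
  pos : 1 ≤ s.n
  lne : s.mode = R → s.left ≠ []
  rne : s.mode = L → s.right ≠ []

lemma wf_init : WF init := by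
  refine ⟨by simp [init], by simp [init], ?_, le_rfl, by simp [init], by simp [init]⟩
  simp [init, arr]

lemma arr_stp (s : St) (b : Bool) (h : okk s b) (hs : s.mode = I ∨ b = true) :
    arr (stp s b) = arr s := by
  obtain ⟨m, l, r, n⟩ := s
  cases m <;> cases b <;> simp [stp, arr] at * 
  · obtain ⟨h1, h2⟩ := h.resolve_left (by simp) |>.resolve_left (by simp)
    cases l with
    | nil => simp at h1
    | cons a l =>
      cases r with
      | nil => simp at h2
      | cons b r => simp
  · obtain ⟨h1, h2⟩ := h.resolve_left (by simp) |>.resolve_left (by simp)
    cases l with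
    | nil => simp at h1
    | cons a l =>
      cases r with
      | nil => simp at h2
      | cons b r => simp

lemma arr_stop (s : St) (hs : s.mode ≠ I) :
    arr (stp s false) = s.left.reverse.flatten ++ s.n :: s.right.flatten ∧
    arr s = s.left.reverse.flatten ++ s.right.flatten := by
  obtain ⟨m, l, r, n⟩ := s
  cases m <;> simp [stp, arr] at *

lemma arr_sublist (s : St) (b : Bool) (h : okk s b) : arr s <+ arr (stp s b) := by
  by_cases hs : s.mode = I ∨ b = true
  · rw [arr_stp s b h hs]
  · push Not at hs
    have hb : b = false := by cases b <;> simp_all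
    subst hb
    obtain ⟨h1, h2⟩ := arr_stop s hs.1
    rw [h1, h2]
    exact List.Sublist.append_left (List.sublist_cons_self _ _) _

lemma run_arr_sublist {s s' : St} {w : List Bool} (h : Run s w s') : arr s <+ arr s' := by
  induction h with
  | nil => exact List.Sublist.refl _
  | cons h hr ih => exact (arr_sublist _ _ h).trans ih

lemma stp_n (s : St) (b : Bool) :
    (stp s b).n = if s.mode ≠ I ∧ b = false then s.n + 1 else s.n := by
  obtain ⟨m, l, r, n⟩ := s
  cases m <;> cases b <;> simp [stp]
  · cases l <;> cases r <;> simp
  · cases l <;> cases r <;> simp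

lemma wf_stp {s : St} {b : Bool} (h : okk s b) (hw : WF s) : WF (stp s b) := by
  have hperm : (arr (stp s b)).Perm (List.range (stp s b).n) := by
    by_cases hs : s.mode = I ∨ b = true
    · rw [arr_stp s b h hs, stp_n, if_neg]
      · exact hw.perm
      · rintro ⟨h1, h2⟩; rcases hs with h3 | h3
        · exact h1 h3
        · simp [h2] at h3
    · push Not at hs
      have hb : b = false := by cases b <;> simp_all
      subst hb
      obtain ⟨h1, h2⟩ := arr_stop s hs.1
      rw [stp_n, if_pos ⟨hs.1, rfl⟩, h1, List.range_succ]
      have h3 := hw.perm
      rw [h2] at h3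
      exact List.perm_middle.trans ((List.Perm.cons _ h3).trans (List.perm_append_singleton _ _).symm)
  have hpos : 1 ≤ (stp s b).n := by
    rw [stp_n]; have := hw.pos; split_ifs <;> omega
  obtain ⟨m, l, r, n⟩ := s
  refine ⟨?_, ?_, hperm, hpos, ?_, ?_⟩
  · have h1 := hw.left_ne
    have h2 := hw.right_ne
    cases m <;> cases b <;> simp only [stp] at * <;> try exact h1
    · intro c hc
      rcases List.mem_cons.mp hc with rfl | hc
      · simp
      · exact h1 c hc
    · cases l with
      | nil => exact h1
      | cons a l => cases r with
        | nil => exact h1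
        | cons b r =>
          intro c hc
          rcases List.mem_cons.mp hc with rfl | hc
          · have := h1 a (by simp)
            simp [this]
          · exact h1 c (by simp [hc])
    · cases l with
      | nil => exact h1
      | cons a l => cases r with
        | nil => exact h1
        | cons b r =>
          intro c hc
          exact h1 c (List.mem_cons_of_mem _ hc)
  · have h1 := hw.left_ne
    have h2 := hw.right_ne
    cases m <;> cases b <;> simp only [stp] at * <;> try exact h2
    · intro c hc
      rcases List.mem_cons.mp hc with rfl | hc
      · simp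
      · exact h2 c hc
    · cases l with
      | nil => exact h2
      | cons a l => cases r with
        | nil => exact h2
        | cons b r =>
          intro c hc
          exact h2 c (List.mem_cons_of_mem _ hc)
    · cases l with
      | nil => exact h2
      | cons a l => cases r with
        | nil => exact h2
        | cons b r =>
          intro c hc
          rcases List.mem_cons.mp hc with rfl | hc
          · have := h1 a (by simp)
            simp [this]
          · exact h2 c (by simp [hc])
  · have h3 := hw.lne
    cases m <;> cases b <;> simp [stp] at *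
    · cases l with
      | nil => simp at h3
      | cons a l => cases r <;> simp
    · cases l with
      | nil => simp
      | cons a l => cases r <;> simp
  · have h3 := hw.rne
    cases m <;> cases b <;> simp [stp] at *
    · cases l with
      | nil => simp
      | cons a l => cases r <;> simp
    · cases l with
      | nil => simpa using h3
      | cons a l => cases r with
        | nil => simp at h3
        | cons b r => simp

lemma wf_run {s s' : St} {w : List Bool} (h : Run s w s') (hw : WF s) : WF s' := by
  induction h with
  | nil => exact hw
  | cons h hr ih => exact ih (wf_stp h hw)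

lemma WF.nodup {s : St} (h : WF s) : (arr s).Nodup :=
  h.perm.nodup_iff.mpr List.nodup_range

/-- location of a tracked element -/
def Loc (s : St) (e : ℕ) : ℤ → Prop
  | Int.ofNat 0 => s.mode = I ∧ e = s.n - 1
  | Int.ofNat (k + 1) => ∃ r, s.right[k]? = some r ∧ e ∈ r
  | Int.negSucc k => ∃ l, s.left[k]? = some l ∧ e ∈ l

lemma loc_step {s : St} {b : Bool} {e : ℕ} {z : ℤ} (h : okk s b) (hl : Loc s e z) :
    Loc (stp s b) e (zs s.mode b z) := by
  obtain ⟨m, l, r, n⟩ := s
  match z, hl with
  | Int.ofNat 0, hl =>
    obtain ⟨h1, h2⟩ := hl
    simp only at h1 h2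
    subst h1
    cases b
    · have : zs I false (Int.ofNat 0) = Int.ofNat (0 + 1) := by decide
      simp only
      rw [this]
      exact ⟨[n - 1], by simp [stp], by simp [h2]⟩
    · have : zs I true (Int.ofNat 0) = Int.negSucc 0 := by decide
      simp only
      rw [this]
      exact ⟨[n - 1], by simp [stp], by simp [h2]⟩
  | Int.ofNat (k + 1), hl =>
    obtain ⟨c, hc, he⟩ := hl
    simp only at hc
    cases m <;> cases b
    · have : zs I false (Int.ofNat (k + 1)) = Int.ofNat ((k + 1) + 1) := by
        simp [zs] <;> omega
      simp only
      rw [this]
      exact ⟨c, by simpa [stp] using hc, he⟩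
    · have : zs I true (Int.ofNat (k + 1)) = Int.ofNat (k + 1) := by
        simp [zs] <;> omega
      simp only
      rw [this]
      exact ⟨c, by simpa [stp] using hc, he⟩
    · exact ⟨c, by simpa [stp] using hc, he⟩
    · obtain ⟨h1, h2⟩ := h.resolve_left (by simp) |>.resolve_left (by simp)
      simp only at h1 h2
      obtain ⟨a, l, rfl⟩ := List.exists_cons_of_ne_nil h1
      obtain ⟨b, r, rfl⟩ := List.exists_cons_of_ne_nil h2
      cases k with
      | zero =>
        have : zs R true (Int.ofNat (0 + 1)) = Int.negSucc 0 := by decide
        simp only
        rw [this]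
        refine ⟨a ++ b, by simp [stp], ?_⟩
        simp only [List.length_cons, Nat.zero_lt_succ, List.getElem?_eq_getElem, List.getElem_cons_zero,
          Option.some.injEq] at hc
        subst hc
        simp [he]
      | succ k =>
        have : zs R true (Int.ofNat (k + 1 + 1)) = Int.ofNat (k + 1) := by
          simp [zs] <;> omega
        simp only
        rw [this]
        exact ⟨c, by simpa [stp] using hc, he⟩
    · exact ⟨c, by simpa [stp] using hc, he⟩
    · obtain ⟨h1, h2⟩ := h.resolve_left (by simp) |>.resolve_left (by simp)
      simp only at h1 h2
      obtain ⟨a, l, rfl⟩ := List.exists_cons_of_ne_nil h1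
      obtain ⟨b, r, rfl⟩ := List.exists_cons_of_ne_nil h2
      have : zs L true (Int.ofNat (k + 1)) = Int.ofNat (k + 1) := by
        simp [zs] <;> omega
      simp only
      rw [this]
      cases k with
      | zero =>
        refine ⟨a ++ b, by simp [stp], ?_⟩
        simp only [List.length_cons, Nat.zero_lt_succ, List.getElem?_eq_getElem, List.getElem_cons_zero,
          Option.some.injEq] at hc
        subst hc
        simp [he]
      | succ k => exact ⟨c, by simpa [stp] using hc, he⟩
  | Int.negSucc k, hl =>
    obtain ⟨c, hc, he⟩ := hl
    simp only at hc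
    cases m <;> cases b
    · have : zs I false (Int.negSucc k) = Int.negSucc k := by
        simp [zs]
      simp only
      rw [this]
      exact ⟨c, by simpa [stp] using hc, he⟩
    · have : zs I true (Int.negSucc k) = Int.negSucc (k + 1) := by
        simp [zs] <;> omega
      simp only
      rw [this]
      exact ⟨c, by simpa [stp] using hc, he⟩
    · exact ⟨c, by simpa [stp] using hc, he⟩
    · obtain ⟨h1, h2⟩ := h.resolve_left (by simp) |>.resolve_left (by simp)
      simp only at h1 h2
      obtain ⟨a, l, rfl⟩ := List.exists_cons_of_ne_nil h1
      obtain ⟨b, r, rfl⟩ := List.exists_cons_of_ne_nil h2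
      have : zs R true (Int.negSucc k) = Int.negSucc k := by
        simp [zs] <;> omega
      simp only
      rw [this]
      cases k with
      | zero =>
        refine ⟨a ++ b, by simp [stp], ?_⟩
        simp only [List.length_cons, Nat.zero_lt_succ, List.getElem?_eq_getElem, List.getElem_cons_zero,
          Option.some.injEq] at hc
        subst hc
        simp [he]
      | succ k => exact ⟨c, by simpa [stp] using hc, he⟩
    · exact ⟨c, by simpa [stp] using hc, he⟩
    · obtain ⟨h1, h2⟩ := h.resolve_left (by simp) |>.resolve_left (by simp)
      simp only at h1 h2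
      obtain ⟨a, l, rfl⟩ := List.exists_cons_of_ne_nil h1
      obtain ⟨b, r, rfl⟩ := List.exists_cons_of_ne_nil h2
      cases k with
      | zero =>
        have : zs L true (Int.negSucc 0) = Int.ofNat (0 + 1) := by decide
        simp only
        rw [this]
        refine ⟨a ++ b, by simp [stp], ?_⟩
        simp only [List.length_cons, Nat.zero_lt_succ, List.getElem?_eq_getElem, List.getElem_cons_zero,
          Option.some.injEq] at hc
        subst hc
        simp [he]
      | succ k =>
        have : zs L true (Int.negSucc (k + 1)) = Int.negSucc k := by
          simp [zs] <;> omega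
        simp only
        rw [this]
        exact ⟨c, by simpa [stp] using hc, he⟩

end Pool.Agent.BaxterLIS
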