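import Pool.Agent.BaxterLIS.Chains

/-!
Every list avoiding the Baxter patterns is the arrangement of a valid run.
-/

namespace Pool.Agent.BaxterLIS

open Mode
open scoped List

/-- Baxter condition for a list of labels (label = time, place in the list = value) -/
def BaxL (A : List ℕ) : Prop :=
  ∀ i j k, i < j → j + 1 < k → ¬ [j + 1, i, k, j] <+ A ∧ ¬ [j, k, i, j + 1] <+ A

/-- block invariant -/
structure Inv (s : St) : Prop where
  left : ∀ b ∈ s.left, ∃ c rest, b = c :: rest ∧ ∀ i ∈ rest, i < c ∧ [c, i, c + 1] <+ arr s
  right : ∀ b ∈ s.right, ∃ c rest, b = rest ++ [c] ∧ ∀ i ∈ rest, i < c ∧ [c + 1, i, c] <+ arr s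

lemma inv_init : Inv init := ⟨by simp [init], by simp [init]⟩

lemma run_popR (l : List ℕ) (ls right : List (List ℕ)) (n b : ℕ) (hb : b ≤ right.length) :
    Run ⟨R, l :: ls, right, n⟩ (List.replicate b true ++ [false])
      ⟨I, (l ++ (right.take b).flatten) :: ls, right.drop b, n + 1⟩ := by
  induction b generalizing l right with
  | zero =>
    simp only [List.replicate_zero, List.nil_append, List.take_zero, List.flatten_nil,
      List.append_nil, List.drop_zero]
    exact Run.cons (Or.inr (Or.inl rfl)) (Run.nil _)
  | succ b ih =>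
    cases right with
    | nil => simp at hb
    | cons r rs =>
      have h1 := ih (l ++ r) rs (by simpa using hb)
      simp only [List.replicate_succ, List.cons_append, List.take_succ_cons, List.flatten_cons,
        List.drop_succ_cons]
      refine Run.cons (Or.inr (Or.inr ⟨by simp, by simp⟩)) ?_
      simpa [stp] using h1

lemma run_popL (left : List (List ℕ)) (r : List ℕ) (rs : List (List ℕ)) (n a : ℕ)
    (ha : a ≤ left.length) :
    Run ⟨L, left, r :: rs, n⟩ (List.replicate a true ++ [false])
      ⟨I, left.drop a, ((left.take a).reverse.flatten ++ r) :: rs, n + 1⟩ := by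
  induction a generalizing left r with
  | zero =>
    simp only [List.replicate_zero, List.nil_append, List.take_zero, List.reverse_nil,
      List.flatten_nil, List.nil_append, List.drop_zero]
    exact Run.cons (Or.inr (Or.inl rfl)) (Run.nil _)
  | succ a ih =>
    cases left with
    | nil => simp at ha
    | cons l ls =>
      have h1 := ih ls (l ++ r) (by simpa using ha)
      simp only [List.replicate_succ, List.cons_append, List.take_succ_cons, List.reverse_cons,
        List.drop_succ_cons]
      refine Run.cons (Or.inr (Or.inr ⟨by simp, by simp⟩)) ?_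
      simpa [stp] using h1

lemma flatten_cut (bs : List (List ℕ)) (X Y : List ℕ) (h : bs.flatten = X ++ Y) :
    (∃ b, b ≤ bs.length ∧ X = (bs.take b).flatten ∧ Y = (bs.drop b).flatten) ∨
    (∃ bs1 p q bs2, bs = bs1 ++ (p ++ q) :: bs2 ∧ p ≠ [] ∧ q ≠ [] ∧
      X = bs1.flatten ++ p ∧ Y = q ++ bs2.flatten) := by
  induction bs generalizing X with
  | nil =>
    left
    have h2 : X = [] ∧ Y = [] := by simpa using h.symm
    obtain ⟨rfl, rfl⟩ := h2
    exact ⟨0, by simp, by simp, by simp⟩
  | cons c bs ih =>
    rw [List.flatten_cons, List.append_eq_append_iff] at h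
    rcases h with ⟨a', hX, hY⟩ | ⟨c', hc, hY⟩
    · rcases ih a' hY with ⟨b, hb, h1, h2⟩ | ⟨bs1, p, q, bs2, h1, hp, hq, h2, h3⟩
      · left
        refine ⟨b + 1, by simpa using hb, ?_, ?_⟩
        · rw [hX, h1]; simp
        · rw [h2]; simp
      · right
        refine ⟨c :: bs1, p, q, bs2, by rw [h1]; simp, hp, hq, ?_, h3⟩
        rw [hX, h2]; simp
    · by_cases hX0 : X = []
      · left
        refine ⟨0, by simp, by simp [hX0], ?_⟩
        rw [hY, hc, hX0]; simp
      · by_cases hc0 : c' = []
        · left
          refine ⟨1, by simp, ?_, ?_⟩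
          · rw [hc, hc0]; simp
          · rw [hY, hc0]; simp
        · right
          exact ⟨[], X, c', bs, by simp [hc], hX0, hc0, by simp, hY⟩

lemma pair_of_mem_append {X Y : List ℕ} {a b : ℕ} (ha : a ∈ X) (hb : b ∈ Y) : [a, b] <+ X ++ Y :=
  (List.singleton_sublist.mpr ha).append (List.singleton_sublist.mpr hb)

lemma step_exists {A : List ℕ} (hA : A.Nodup) (hB : BaxL A) {s : St} (hm : s.mode = I)
    (hw : WF s) (hinv : Inv s) {X Y : List ℕ} (harr : arr s = X ++ Y)
    (hsub : X ++ s.n :: Y <+ A) :
    ∃ w s', Run s w s' ∧ s'.mode = I ∧ s'.n = s.n + 1 ∧ arr s' = X ++ s.n :: Y ∧ Inv s' := by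
  obtain ⟨m, left, right, n⟩ := s
  simp only at hm
  subst hm
  have harr0 : arr ⟨I, left, right, n⟩ = left.reverse.flatten ++ (n - 1) :: right.flatten := rfl
  have hsub0 : arr ⟨I, left, right, n⟩ <+ X ++ n :: Y := by
    rw [harr]; exact List.Sublist.append_left (List.sublist_cons_self _ _) _
  have hsubA : arr ⟨I, left, right, n⟩ <+ A := hsub0.trans hsub
  have hnd := hw.nodup
  have hlt : ∀ i ∈ arr ⟨I, left, right, n⟩, i < n := fun i hi => by
    have := hw.perm.subset hi
    simpa using this
  have hpos := hw.pos
  simp only at hpos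
  have hmemL : ∀ i ∈ left.reverse.flatten, i < n - 1 := by
    intro i hi
    have h1 : i ∈ arr ⟨I, left, right, n⟩ := by rw [harr0]; exact List.mem_append_left _ hi
    have h2 := hlt i h1
    have h3 : i ≠ n - 1 := by
      rintro rfl
      rw [harr0] at hnd
      exact (List.nodup_append.mp hnd).2.2 _ hi _ List.mem_cons_self rfl
    omega
  have hmemR : ∀ i ∈ right.flatten, i < n - 1 := by
    intro i hi
    have h1 : i ∈ arr ⟨I, left, right, n⟩ := by
      rw [harr0]; exact List.mem_append_right _ (List.mem_cons_of_mem _ hi)
    have h2 := hlt i h1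
    have h3 : i ≠ n - 1 := by
      rintro rfl
      rw [harr0] at hnd
      have := (List.nodup_append.mp hnd).2.1
      rw [List.nodup_cons] at this
      exact this.1 hi
    omega
  have hn1 : n - 1 + 1 = n := by omega
  -- right boundary
  have caseR : ∀ b, b ≤ right.length → X = left.reverse.flatten ++ (n - 1) :: (right.take b).flatten →
      Y = (right.drop b).flatten →
      ∃ w s', Run ⟨I, left, right, n⟩ w s' ∧ s'.mode = I ∧ s'.n = n + 1 ∧
        arr s' = X ++ n :: Y ∧ Inv s' := by
    intro b hb hX hY
    have harr' : arr ⟨I, ([n - 1] ++ (right.take b).flatten) :: left, right.drop b, n + 1⟩ =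
        X ++ n :: Y := by
      simp [arr, hX, hY]
    refine ⟨true :: (List.replicate b true ++ [false]),
      ⟨I, ([n - 1] ++ (right.take b).flatten) :: left, right.drop b, n + 1⟩,
      Run.cons (Or.inl rfl) (run_popR [n - 1] left right n b hb), rfl, rfl, harr', ?_⟩
    constructor
    · intro c hc
      rcases List.mem_cons.mp hc with rfl | hc
      · refine ⟨n - 1, (right.take b).flatten, rfl, ?_⟩
        intro i hi
        have hi' : i ∈ right.flatten := by
          rw [← List.take_append_drop b right, List.flatten_append]
          exact List.mem_append_left _ hi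
        refine ⟨hmemR i hi', ?_⟩
        rw [harr', hX, hn1]
        have h1 : [n - 1, i] <+ (n - 1) :: (right.take b).flatten :=
          (List.singleton_sublist.mpr hi).cons_cons _
        have h2 : [n - 1, i] <+ left.reverse.flatten ++ (n - 1) :: (right.take b).flatten :=
          h1.trans (List.sublist_append_right _ _)
        have h3 : [n] <+ n :: Y := List.singleton_sublist.mpr List.mem_cons_self
        exact h2.append h3
      · obtain ⟨c', rest, h1, h2⟩ := hinv.left c hc
        refine ⟨c', rest, h1, fun i hi => ⟨(h2 i hi).1, ?_⟩⟩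
        rw [harr']; exact (h2 i hi).2.trans hsub0
    · intro c hc
      obtain ⟨c', rest, h1, h2⟩ := hinv.right c (List.mem_of_mem_drop hc)
      refine ⟨c', rest, h1, fun i hi => ⟨(h2 i hi).1, ?_⟩⟩
      rw [harr']; exact (h2 i hi).2.trans hsub0
  -- left boundary
  have caseL : ∀ a, a ≤ left.length → X = (left.drop a).reverse.flatten →
      Y = (left.take a).reverse.flatten ++ (n - 1) :: right.flatten →
      ∃ w s', Run ⟨I, left, right, n⟩ w s' ∧ s'.mode = I ∧ s'.n = n + 1 ∧
        arr s' = X ++ n :: Y ∧ Inv s' := by
    intro a ha hX hY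
    have harr' : arr ⟨I, left.drop a, ((left.take a).reverse.flatten ++ [n - 1]) :: right, n + 1⟩ =
        X ++ n :: Y := by
      simp [arr, hX, hY]
    refine ⟨false :: (List.replicate a true ++ [false]),
      ⟨I, left.drop a, ((left.take a).reverse.flatten ++ [n - 1]) :: right, n + 1⟩,
      Run.cons (Or.inl rfl) (run_popL left [n - 1] right n a ha), rfl, rfl, harr', ?_⟩
    constructor
    · intro c hc
      obtain ⟨c', rest, h1, h2⟩ := hinv.left c (List.mem_of_mem_drop hc)
      refine ⟨c', rest, h1, fun i hi => ⟨(h2 i hi).1, ?_⟩⟩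
      rw [harr']; exact (h2 i hi).2.trans hsub0
    · intro c hc
      rcases List.mem_cons.mp hc with rfl | hc
      · refine ⟨n - 1, (left.take a).reverse.flatten, rfl, ?_⟩
        intro i hi
        have hi' : i ∈ left.reverse.flatten := by
          rw [← List.take_append_drop a left, List.reverse_append, List.flatten_append]
          exact List.mem_append_right _ hi
        refine ⟨hmemL i hi', ?_⟩
        rw [harr', hY, hn1]
        have h1 : [i, n - 1] <+ (left.take a).reverse.flatten ++ (n - 1) :: right.flatten :=
          pair_of_mem_append hi List.mem_cons_self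
        exact (h1.cons_cons n).trans (List.sublist_append_right _ _)
      · obtain ⟨c', rest, h1, h2⟩ := hinv.right c hc
        refine ⟨c', rest, h1, fun i hi => ⟨(h2 i hi).1, ?_⟩⟩
        rw [harr']; exact (h2 i hi).2.trans hsub0
  have hXn : ∀ i ∈ X, [i, n] <+ A := fun i hi =>
    (pair_of_mem_append hi List.mem_cons_self).trans hsub
  have hnY : ∀ i ∈ Y, [n, i] <+ A := fun i hi =>
    (((List.singleton_sublist.mpr hi).cons_cons n).trans (List.sublist_append_right _ _)).trans hsub
  rw [harr0, List.append_eq_append_iff] at harr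
  rcases harr with ⟨a', hX, hY⟩ | ⟨c', hc, hY⟩
  · cases a' with
    | nil =>
      apply caseL 0 (by simp)
      · simpa using hX
      · simpa using hY.symm
    | cons x a'' =>
      simp only [List.cons_append, List.cons.injEq] at hY
      obtain ⟨rfl, hY⟩ := hY
      rcases flatten_cut right a'' Y hY with ⟨b, hb, h1, h2⟩ | ⟨bs1, p, q, bs2, h1, hp, hq, h2, h3⟩
      · exact caseR b hb (by rw [hX, h1]) h2
      · exfalso
        obtain ⟨c, rest, hcr, hrest⟩ := hinv.right (p ++ q) (by simp [h1])
        -- c is the last element of q, p is contained in rest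
        obtain ⟨q', rfl⟩ : ∃ q', q = q' ++ [c] := by
          have hq1 := List.dropLast_append_getLast hq
          have h4 : p ++ q.dropLast ++ [q.getLast hq] = rest ++ [c] := by
            rw [List.append_assoc, hq1, hcr]
          have h5 := (List.append_inj' h4 rfl).2
          simp only [List.cons.injEq, and_true] at h5
          exact ⟨q.dropLast, by rw [← h5, hq1]⟩
        have h6 : rest = p ++ q' := by
          rw [← List.append_assoc] at hcr
          exact ((List.append_inj' hcr rfl).1).symm
        obtain ⟨i, p', rfl⟩ := List.exists_cons_of_ne_nil hp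
        obtain ⟨hic, hsub3⟩ := hrest i (by rw [h6]; simp)
        have hiX : i ∈ X := by rw [hX, h2]; simp
        have hcY : c ∈ Y := by rw [h3]; simp
        have k1 : [i, n, c] <+ A := sublist_chain hA (hXn i hiX) (hnY c hcY)
        have k2 : [c + 1, i] <+ A := by
          have : [c + 1, i] <+ [c + 1, i, c] := by
            exact List.sublist_append_left [c + 1, i] [c]
          exact this.trans (hsub3.trans hsubA)
        have k3 : [c + 1, i, n, c] <+ A := sublist_chain hA k2 k1
        have hcn : c + 1 < n := hlt _ (hsub3.subset (by simp))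
        exact (hB i c n hic hcn).1 k3
  · rcases flatten_cut left.reverse X c' hc with ⟨b, hb, h1, h2⟩ | ⟨bs1, p, q, bs2, h1, hp, hq, h2, h3⟩
    · apply caseL (left.length - b) (by omega)
      · rw [h1, List.take_reverse]
      · rw [hY, h2, List.drop_reverse]
    · exfalso
      have hmem : (p ++ q) ∈ left := by
        have : (p ++ q) ∈ left.reverse := by rw [h1]; simp
        simpa using this
      obtain ⟨c, rest, hcr, hrest⟩ := hinv.left (p ++ q) hmem
      obtain ⟨x, p', rfl⟩ := List.exists_cons_of_ne_nil hp
      simp only [List.cons_append, List.cons.injEq] at hcr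
      obtain ⟨rfl, hcr⟩ := hcr
      obtain ⟨i, q', rfl⟩ := List.exists_cons_of_ne_nil hq
      obtain ⟨hic, hsub3⟩ := hrest i (by rw [← hcr]; simp)
      have hxX : x ∈ X := by rw [h2]; simp
      have hiY : i ∈ Y := by rw [hY, h3]; simp
      have k2 : [i, x + 1] <+ A := by
        have : [i, x + 1] <+ [x, i, x + 1] := List.sublist_cons_self _ _
        exact this.trans (hsub3.trans hsubA)
      have k1 : [n, i, x + 1] <+ A := sublist_chain hA (hnY i hiY) k2
      have k3 : [x, n, i, x + 1] <+ A := sublist_chain hA (hXn x hxX) k1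
      have hcn : x + 1 < n := hlt _ (hsub3.subset (by simp))
      exact (hB i x n hic hcn).2 k3

/-- every Baxter list is the arrangement of a valid run -/
theorem exists_run {A : List ℕ} {n : ℕ} (hn : 1 ≤ n) (hA : A.Perm (List.range n)) (hB : BaxL A) :
    ∃ w s', Run init w s' ∧ s'.mode = I ∧ s'.n = n ∧ arr s' = A := by
  have hnd : A.Nodup := hA.nodup_iff.mpr List.nodup_range
  have key : ∀ m, 1 ≤ m → m ≤ n → ∃ w s', Run init w s' ∧ s'.mode = I ∧ s'.n = m ∧
      arr s' = A.filter (· < m) ∧ Inv s' := by
    intro m hm
    induction m, hm using Nat.le_induction with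
    | base =>
      intro _
      refine ⟨[], init, Run.nil _, rfl, rfl, ?_, inv_init⟩
      have h1 : (A.filter (· < 1)).Perm ((List.range n).filter (· < 1)) := hA.filter _
      have h2 : (List.range n).filter (· < 1) = [0] := by
        obtain ⟨n, rfl⟩ : ∃ n', n = n' + 1 := ⟨n - 1, by omega⟩
        rw [List.range_succ_eq_map]
        simp [List.filter_map]
      rw [h2] at h1
      rw [List.perm_singleton.mp h1]
      simp [arr, init]
    | succ m hm ih =>
      intro hmn
      obtain ⟨w, s, hr, hmode, hsn, harr, hinv⟩ := ih (by omega)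
      have hmem : m ∈ A := hA.symm.subset (by simp; omega)
      obtain ⟨A1, A2, hAeq⟩ := List.append_of_mem hmem
      have e1 : A.filter (· < m) = A1.filter (· < m) ++ A2.filter (· < m) := by
        rw [hAeq, List.filter_append, List.filter_cons]
        simp
      have hne1 : ∀ x ∈ A1, x ≠ m := by
        rintro x hx rfl
        rw [hAeq] at hnd
        exact (List.nodup_append.mp hnd).2.2 _ hx _ List.mem_cons_self rfl
      have hne2 : ∀ x ∈ A2, x ≠ m := by
        rintro x hx rfl
        rw [hAeq] at hnd
        have := (List.nodup_append.mp hnd).2.1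
        rw [List.nodup_cons] at this
        exact this.1 hx
      have hf : ∀ B : List ℕ, (∀ x ∈ B, x ≠ m) → B.filter (· < m + 1) = B.filter (· < m) := by
        intro B hB'
        apply List.filter_congr
        intro x hx
        have := hB' x hx
        simp only [decide_eq_decide]
        omega
      have e2 : A.filter (· < m + 1) = A1.filter (· < m) ++ m :: A2.filter (· < m) := by
        rw [hAeq, List.filter_append, List.filter_cons, hf A1 hne1, hf A2 hne2]
        simp
      have hsub : A1.filter (· < m) ++ s.n :: A2.filter (· < m) <+ A := by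
        rw [hsn, ← e2]; exact List.filter_sublist
      obtain ⟨w', s', hr', hm', hn', harr', hinv'⟩ := step_exists hnd hB hmode
        (wf_run hr wf_init) hinv (by rw [harr, e1]) hsub
      refine ⟨w ++ w', s', run_append hr hr', hm', by rw [hn', hsn], ?_, hinv'⟩
      rw [harr', e2, hsn]
  obtain ⟨w, s, hr, hmode, hsn, harr, _⟩ := key n hn le_rfl
  refine ⟨w, s, hr, hmode, hsn, ?_⟩
  rw [harr]
  apply List.filter_eq_self.mpr
  intro x hx
  have := hA.subset hx
  simpa using this

end Pool.Agent.BaxterLIS
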