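import Pool.Agent.BaxterLIS.Machine

/-!
Tail bound for the duration of a block: `P (duration > n) ≤ h / B + (3/2) h (B+2) / n`.
-/

namespace Pool.Agent.BaxterLIS

open scoped ENNReal
open Filter Topology Mode

/-- unresolved probability of the height automaton -/
noncomputable def un (n : ℕ) (m : Mode) (k : ℕ) : ℝ := unres coin nt1 Prod.fst fin1 n (m, k)

/-- two-sided exit -/
def fin3 (B : ℕ) (t : Mode × ℕ) : Prop := t.2 = 0 ∨ B ≤ t.2

noncomputable def vn (B n : ℕ) (m : Mode) (k : ℕ) : ℝ :=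
  unres coin nt1 Prod.fst (fin3 B) n (m, k)

/-- linear harmonic function -/
def ell : Mode → ℝ → ℝ
  | R, k => k
  | I, k => k + 1
  | L, k => k + 1

/-- quadratic function with mean decrease one -/
noncomputable def Qf (B : ℝ) : Mode → ℝ → ℝ
  | R, k => 3 / 2 * k * (B + 2 - k)
  | I, k => 3 / 2 * k * (B - k) + 3 / 2 * (B + 2) - 1 / 2
  | L, k => 3 / 2 * k * (B - k) + 3 / 2 * (B + 2) - 1 / 2 + 2

lemma un_zero (m : Mode) (k : ℕ) : un 0 m k = if k = 0 then 0 else 1 := by
  by_cases h : k = 0 <;> simp [un, unres, fin1, h]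

lemma un_succ (n : ℕ) (m : Mode) (k : ℕ) : un (n + 1) m k = if k = 0 then 0 else
    1 / 2 * un n (nextMode m true) (nextK m true k) +
    1 / 2 * un n (nextMode m false) (nextK m false k) := by
  simp [un, unres, fin1, nt1]

lemma vn_zero (B : ℕ) (m : Mode) (k : ℕ) : vn B 0 m k = if k = 0 ∨ B ≤ k then 0 else 1 := by
  by_cases h : k = 0 ∨ B ≤ k <;> simp [vn, unres, fin3, h]

lemma vn_succ (B n : ℕ) (m : Mode) (k : ℕ) : vn B (n + 1) m k = if k = 0 ∨ B ≤ k then 0 else
    1 / 2 * vn B n (nextMode m true) (nextK m true k) +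
    1 / 2 * vn B n (nextMode m false) (nextK m false k) := by
  simp [vn, unres, fin3, nt1]

lemma un_le_one (n : ℕ) (m : Mode) (k : ℕ) : un n m k ≤ 1 := unres_le_one _ _ _
lemma vn_nonneg (B n : ℕ) (m : Mode) (k : ℕ) : 0 ≤ vn B n m k := unres_nonneg _ _ _
lemma vn_le_one (B n : ℕ) (m : Mode) (k : ℕ) : vn B n m k ≤ 1 := unres_le_one _ _ _

lemma ell_nonneg (m : Mode) (k : ℕ) : 0 ≤ ell m k := by
  cases m <;> simp [ell] <;> positivity

lemma ell_ge (m : Mode) (k : ℕ) : (k : ℝ) ≤ ell m k := by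
  cases m <;> simp [ell]

lemma ell_harm (m : Mode) (k : ℕ) (hk : k ≠ 0) :
    1 / 2 * ell (nextMode m true) (nextK m true k) +
    1 / 2 * ell (nextMode m false) (nextK m false k) = ell m k := by
  obtain ⟨k, rfl⟩ := Nat.exists_eq_succ_of_ne_zero hk
  cases m <;> simp [ell, nextMode, nextK] <;> ring

lemma Qf_harm (B : ℝ) (m : Mode) (k : ℕ) (hk : k ≠ 0) :
    1 / 2 * Qf B (nextMode m true) (nextK m true k) +
    1 / 2 * Qf B (nextMode m false) (nextK m false k) = Qf B m k - 1 := by
  obtain ⟨k, rfl⟩ := Nat.exists_eq_succ_of_ne_zero hk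
  cases m <;> simp [Qf, nextMode, nextK] <;> ring

lemma Qf_nonneg (B : ℕ) (m : Mode) (k : ℕ) (hk : k ≤ B) : 0 ≤ Qf B m k := by
  have h : (k : ℝ) ≤ B := by exact_mod_cast hk
  have h0 : (0:ℝ) ≤ k := by positivity
  have hB : (0:ℝ) ≤ B := by positivity
  have h2 : (0:ℝ) ≤ k * (B - k) := mul_nonneg h0 (by linarith)
  cases m <;> simp only [Qf] <;> nlinarith

lemma un_le_ell_add_vn (B n : ℕ) (hB : 1 ≤ B) (m : Mode) (k : ℕ) :
    un n m k ≤ ell m k / B + vn B n m k := by
  have hB' : (0:ℝ) < B := by exact_mod_cast hB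
  have far : ∀ (n : ℕ) (m : Mode) (k : ℕ), B ≤ k → un n m k ≤ ell m k / B := by
    intro n m k h
    have h1 : (1:ℝ) ≤ ell m k / B := by
      rw [le_div_iff₀ hB', one_mul]
      exact le_trans (by exact_mod_cast h) (ell_ge m k)
    exact (un_le_one _ _ _).trans h1
  induction n generalizing m k with
  | zero =>
    by_cases h0 : k = 0
    · rw [un_zero, if_pos h0]
      have := ell_nonneg m k
      have := vn_nonneg B 0 m k
      positivity
    · by_cases h1 : B ≤ k
      · have := far 0 m k h1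
        have := vn_nonneg B 0 m k
        linarith
      · rw [un_zero, if_neg h0, vn_zero, if_neg (by tauto)]
        have := ell_nonneg m k
        have : 0 ≤ ell m k / B := by positivity
        linarith
  | succ n ih =>
    by_cases h0 : k = 0
    · rw [un_succ, if_pos h0]
      have := ell_nonneg m k
      have := vn_nonneg B (n+1) m k
      positivity
    · by_cases h1 : B ≤ k
      · have := far (n+1) m k h1
        have := vn_nonneg B (n+1) m k
        linarith
      · rw [un_succ, if_neg h0, vn_succ, if_neg (by tauto)]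
        have i1 := ih (nextMode m true) (nextK m true k)
        have i2 := ih (nextMode m false) (nextK m false k)
        have h3 := ell_harm m k h0
        rw [← h3, add_div, mul_div_assoc, mul_div_assoc]
        linarith

lemma vn_le (B n : ℕ) (m : Mode) (k : ℕ) (hk : k ≤ B) : n * vn B n m k ≤ Qf B m k := by
  induction n generalizing m k with
  | zero => simpa using Qf_nonneg B m k hk
  | succ n ih =>
    by_cases h0 : k = 0 ∨ B ≤ k
    · rw [vn_succ, if_pos h0]
      simpa using Qf_nonneg B m k hk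
    · rw [vn_succ, if_neg h0]
      push Not at h0
      have hk1 : ∀ b, nextK m b k ≤ B := by
        intro b
        cases m <;> cases b <;> simp [nextK] <;> omega
      have i1 := ih (nextMode m true) (nextK m true k) (hk1 _)
      have i2 := ih (nextMode m false) (nextK m false k) (hk1 _)
      have h3 := Qf_harm B m k h0.1
      have j1 := vn_le_one B n (nextMode m true) (nextK m true k)
      have j2 := vn_le_one B n (nextMode m false) (nextK m false k)
      push_cast
      nlinarith

/-- tail bound for the duration of a block -/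
lemma un_bound (B n h : ℕ) (hB : 1 ≤ B) (hn : 1 ≤ n) (hh : h ≤ B) :
    un n R h ≤ h / B + 3 / 2 * h * (B + 2) / n := by
  have h1 := un_le_ell_add_vn B n hB R h
  have h2 := vn_le B n R h hh
  have hn' : (0:ℝ) < n := by exact_mod_cast hn
  have h3 : vn B n R h ≤ Qf B R h / n := by
    rw [le_div_iff₀ hn']; linarith
  have h4 : Qf B R h ≤ 3 / 2 * h * (B + 2) := by
    simp only [Qf]
    have : (0:ℝ) ≤ h := by positivity
    nlinarith
  have h5 : Qf B R h / n ≤ 3 / 2 * h * (B + 2) / n := by gcongr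
  have h6 : ell R (h:ℝ) = h := rfl
  rw [h6] at h1
  linarith

/-- the unresolved probability tends to zero -/
lemma un_tendsto (h : ℕ) : Tendsto (fun n => un n R h) atTop (𝓝 0) := by
  rw [Metric.tendsto_atTop]
  intro ε hε
  obtain ⟨B, hB⟩ := exists_nat_gt (2 * h / ε)
  have hB1 : 1 ≤ max B (max h 1) := le_trans (le_max_right _ _) (le_max_right _ _)
  set B' := max B (max h 1) with hB'
  have hBpos : (0:ℝ) < B' := by exact_mod_cast hB1
  obtain ⟨N, hN⟩ := exists_nat_gt (3 * h * (B' + 2) / ε)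
  refine ⟨max N 1, fun n hn => ?_⟩
  have hn1 : 1 ≤ n := le_trans (le_max_right _ _) hn
  have hnN : N ≤ n := le_trans (le_max_left _ _) hn
  have hnpos : (0:ℝ) < n := by exact_mod_cast hn1
  have h0 : 0 ≤ un n R h := unres_nonneg _ _ _
  rw [Real.dist_eq, sub_zero, abs_of_nonneg h0]
  have h1 := un_bound B' n h hB1 hn1 (le_trans (le_max_left _ _) (le_max_right _ _))
  have h2 : (h:ℝ) / B' ≤ ε / 2 := by
    rw [div_le_iff₀ hBpos]
    have : (B:ℝ) ≤ B' := by exact_mod_cast le_max_left _ _
    rw [div_lt_iff₀ hε] at hB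
    nlinarith
  have h3 : 3 / 2 * (h:ℝ) * (B' + 2) / n < ε / 2 := by
    rw [div_lt_iff₀ hnpos]
    rw [div_lt_iff₀ hε] at hN
    have : (N:ℝ) ≤ n := by exact_mod_cast hnN
    nlinarith
  linarith

/-- with positive probability a block of height `h` lasts at most `C h ^ 2` flips -/
lemma un_quad (h : ℕ) (hh : 1 ≤ h) : un (400 * h ^ 2) R h ≤ 1 / 4 := by
  have h1 := un_bound (8 * h) (400 * h ^ 2) h (by omega) (Nat.succ_le_of_lt (by positivity)) (by omega)
  have hpos : (1:ℝ) ≤ h := by exact_mod_cast hh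
  have h2 : (h:ℝ) / ((8 * h : ℕ) : ℝ) = 1 / 8 := by
    push_cast; field_simp
  have h3 : 3 / 2 * (h:ℝ) * (((8 * h : ℕ) : ℝ) + 2) / ((400 * h ^ 2 : ℕ) : ℝ) ≤ 1 / 8 := by
    push_cast
    rw [div_le_iff₀ (by positivity)]
    nlinarith
  rw [h2] at h1
  linarith

end Pool.Agent.BaxterLIS
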