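import Pool.Agent.BaxterLIS.Growth

/-!
Finite windows: the number of binary words of length `N` none of whose first `q` windows is good.
-/

namespace Pool.Agent.BaxterLIS

open scoped ENNReal
open Filter Topology Mode

lemma trunc_le_FN {S : Type*} (c : Chain S) (n : ℕ) (s : S) (G : List Bool → Prop)
    (hG : ∀ u v x y, G u → G v → u ++ x = v ++ y → u = v) :
    c.E s (Chain.trunc n (fun w => ind (G w))) ≤ c.FN n s (fun x => ind (∃ u, u <+: x ∧ G u)) := by
  induction n generalizing s G with
  | zero =>
    rw [c.E_trunc_zero]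
    exact ind_mono fun h => ⟨[], List.nil_prefix, h⟩
  | succ n ih =>
    rw [c.E_trunc_succ]
    by_cases h0 : G []
    · have h1 : ∀ b, (fun w => ind (G (b :: w))) = fun _ => 0 := by
        intro b; ext w; apply ind_false
        intro h2
        have := hG [] (b :: w) (b :: w) [] h0 h2 (by simp)
        simp at this
      rw [h1, h1]
      have h2 : ∀ s, c.E s (Chain.trunc n (fun _ => 0)) = 0 := by
        intro s
        refine le_antisymm ((c.E_mono s (Chain.trunc_le n _)).trans ?_) (by simp)
        rw [c.E_zero]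
      rw [h2, h2, ind_true h0]
      have h3 : (fun x => ind (∃ u, u <+: x ∧ G u)) = fun _ => 1 := by
        ext x; exact ind_true ⟨[], List.nil_prefix, h0⟩
      rw [h3, c.FN_const]
      simp
    · rw [ind_false h0, zero_add]
      simp only [Chain.FN]
      have hb : ∀ b, ∀ u v x y, G (b :: u) → G (b :: v) → u ++ x = v ++ y → u = v := by
        intro b u v x y hu hv h
        have := hG (b :: u) (b :: v) x y hu hv (by simp [h])
        simpa using this
      gcongr
      · refine (ih (c.nx s true) (fun w => G (true :: w)) (hb true)).trans ?_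
        refine c.FN_mono _ _ fun w _ => ind_mono ?_
        rintro ⟨u, hu, hGu⟩
        exact ⟨true :: u, by simpa using hu, hGu⟩
      · refine (ih (c.nx s false) (fun w => G (false :: w)) (hb false)).trans ?_
        refine c.FN_mono _ _ fun w _ => ind_mono ?_
        rintro ⟨u, hu, hGu⟩
        exact ⟨false :: u, by simpa using hu, hGu⟩

lemma PE_add_le (h n : ℕ) (a : ℝ) :
    PE h a + ENNReal.ofReal (1 - un n R h) ≤
      coin.E R (Chain.trunc n (fun w => ind (hits w R h ∧ a ≤ rew w))) + 1 := by
  have h1 := trunc_add_unres (c := coin) (nt := nt1) (π := Prod.fst) (fun _ _ => rfl) fin1 n (R, h)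
  rw [un, ← h1, ← mass_one h]
  unfold PE
  rw [← coin.E_add, ← coin.E_add]
  refine coin.E_mono _ fun w => ?_
  unfold Chain.trunc
  by_cases hn : w.length ≤ n
  · simp only [hn, if_true]
    exact le_rfl
  · simp only [hn, if_false, add_zero, zero_add]
    exact ind_mono fun h => h.1

/-- a block in `w`'s beginning is good -/
def goodBlock (h : ℕ) (r : ℝ) (x : List Bool) : Prop := ∃ u, u <+: x ∧ (hits u R h ∧ r ≤ rew u)

/-- a good window: synchronising flips followed by a good block -/
def goodWin (h : ℕ) (r : ℝ) (x : List Bool) : Prop :=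
  ∃ y, x = false :: true :: false :: true :: y ∧ goodBlock h r y

lemma goodBlock_prob (h n : ℕ) (r : ℝ) (h1 : 3 / 4 ≤ (PE h r).toReal) (h2 : un n R h ≤ 1 / 4) :
    ENNReal.ofReal (1 / 2) ≤ coin.FN n R (fun x => ind (goodBlock h r x)) := by
  have h3 := PE_add_le h n r
  have h4 : ENNReal.ofReal (3/4) ≤ PE h r := by
    rw [← ENNReal.ofReal_toReal (PE_ne_top h r)]
    exact ENNReal.ofReal_le_ofReal h1
  have h5 : ENNReal.ofReal (3/4) ≤ ENNReal.ofReal (1 - un n R h) :=
    ENNReal.ofReal_le_ofReal (by linarith)
  have h6 : ENNReal.ofReal (1/2) + 1 ≤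
      coin.E R (Chain.trunc n (fun w => ind (hits w R h ∧ r ≤ rew w))) + 1 := by
    refine le_trans ?_ h3
    refine le_trans ?_ (add_le_add h4 h5)
    rw [← ENNReal.ofReal_add (by norm_num) (by norm_num), ← ENNReal.ofReal_one,
      ← ENNReal.ofReal_add (by norm_num) (by norm_num)]
    apply ENNReal.ofReal_le_ofReal; norm_num
  have h7 : ENNReal.ofReal (1/2) ≤
      coin.E R (Chain.trunc n (fun w => ind (hits w R h ∧ r ≤ rew w))) :=
    (ENNReal.add_le_add_iff_right ENNReal.one_ne_top).mp h6
  refine h7.trans ?_
  exact trunc_le_FN coin n R (fun w => hits w R h ∧ r ≤ rew w)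
    (fun u v x y hu hv h => hits_prefix_free hu.1 hv.1 h)

lemma ofReal_half : ENNReal.ofReal (1/2) = 2⁻¹ := by
  rw [one_div, ENNReal.ofReal_inv_of_pos (by norm_num)]; norm_num

lemma goodWin_prob (h n : ℕ) (r : ℝ) (h1 : 3 / 4 ≤ (PE h r).toReal) (h2 : un n R h ≤ 1 / 4)
    (s : Mode) : ENNReal.ofReal (1 / 32) ≤ coin.FN (n + 4) s (fun x => ind (goodWin h r x)) := by
  have h3 := goodBlock_prob h n r h1 h2
  have key : ∀ s, coin.nx (coin.nx (coin.nx (coin.nx s false) true) false) true = R := by
    intro s; cases s <;> rfl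
  have step : ∀ (n : ℕ) (s : Mode) (b : Bool) (f : List Bool → ℝ≥0∞),
      ENNReal.ofReal (1/2) * coin.FN n (coin.nx s b) (fun w => f (b :: w)) ≤ coin.FN (n + 1) s f := by
    intro n s b f
    simp only [Chain.FN, coin_p]
    cases b
    · exact le_add_left le_rfl
    · exact le_add_right le_rfl
  have h4 := step (n + 3) s false (fun x => ind (goodWin h r x))
  have h5 := step (n + 2) (coin.nx s false) true (fun x => ind (goodWin h r (false :: x)))
  have h6 := step (n + 1) (coin.nx (coin.nx s false) true) false
    (fun x => ind (goodWin h r (false :: true :: x)))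
  have h7 := step n (coin.nx (coin.nx (coin.nx s false) true) false) true
    (fun x => ind (goodWin h r (false :: true :: false :: x)))
  rw [key] at h7
  have h8 : coin.FN n R (fun x => ind (goodBlock h r x)) ≤
      coin.FN n R (fun x => ind (goodWin h r (false :: true :: false :: true :: x))) :=
    coin.FN_mono _ _ fun w _ => ind_mono fun hw => ⟨w, rfl, hw⟩
  have h9 : ENNReal.ofReal (1/2) * (ENNReal.ofReal (1/2) * (ENNReal.ofReal (1/2) *
      (ENNReal.ofReal (1/2) * ENNReal.ofReal (1/2)))) ≤
      coin.FN (n + 4) s (fun x => ind (goodWin h r x)) := by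
    refine le_trans ?_ h4
    gcongr
    refine le_trans ?_ h5
    gcongr
    refine le_trans ?_ h6
    gcongr
    refine le_trans ?_ h7
    gcongr
    exact h3.trans h8
  refine le_trans (le_of_eq ?_) h9
  rw [← ENNReal.ofReal_mul (by norm_num), ← ENNReal.ofReal_mul (by norm_num),
    ← ENNReal.ofReal_mul (by norm_num), ← ENNReal.ofReal_mul (by norm_num)]
  norm_num

/-- the first `q` windows of length `m` are all bad -/
def badWins (h : ℕ) (r : ℝ) (m : ℕ) : ℕ → List Bool → Prop
  | 0, _ => True
  | q + 1, x => ¬ goodWin h r (x.take m) ∧ badWins h r m q (x.drop m)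

lemma badWins_prob (h n : ℕ) (r : ℝ) (h1 : 3 / 4 ≤ (PE h r).toReal) (h2 : un n R h ≤ 1 / 4)
    (q N : ℕ) (s : Mode) (hN : q * (n + 4) ≤ N) :
    coin.FN N s (fun x => ind (badWins h r (n + 4) q x)) ≤ ENNReal.ofReal ((31 / 32) ^ q) := by
  induction q generalizing N s with
  | zero =>
    simp only [badWins, pow_zero, ENNReal.ofReal_one]
    calc _ ≤ coin.FN N s (fun _ => 1) := coin.FN_mono _ _ fun w _ => ind_le_one _
      _ = 1 := coin.FN_const _ _ _
  | succ q ih =>
    obtain ⟨N', rfl⟩ : ∃ N', N = (n + 4) + N' := ⟨N - (n + 4), by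
      have : (q + 1) * (n + 4) = q * (n + 4) + (n + 4) := by ring
      omega⟩
    have hN' : q * (n + 4) ≤ N' := by
      have : (q + 1) * (n + 4) = q * (n + 4) + (n + 4) := by ring
      omega
    rw [coin.FN_append]
    have h3 : coin.FN (n + 4) s (fun u => coin.FN N' (coin.run s u)
        (fun v => ind (badWins h r (n + 4) (q + 1) (u ++ v)))) ≤
        coin.FN (n + 4) s (fun u => ENNReal.ofReal ((31 / 32) ^ q) * ind (¬ goodWin h r u)) := by
      refine coin.FN_mono _ _ fun u hu => ?_
      by_cases hg : goodWin h r u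
      · have : (fun v => ind (badWins h r (n + 4) (q + 1) (u ++ v))) = fun _ => 0 := by
          ext v; apply ind_false
          simp only [badWins]
          rw [List.take_left' hu]
          tauto
        rw [this, coin.FN_const]; simp
      · rw [ind_true hg, mul_one]
        refine le_trans ?_ (ih N' (coin.run s u) hN')
        refine coin.FN_mono _ _ fun v _ => ind_mono ?_
        simp only [badWins]
        rw [List.drop_left' hu]
        exact fun h => h.2
    refine h3.trans ?_
    rw [coin.FN_mul_left, pow_succ, ENNReal.ofReal_mul (by positivity)]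
    gcongr
    have h4 := goodWin_prob h n r h1 h2 s
    have h5 : coin.FN (n + 4) s (fun x => ind (goodWin h r x)) +
        coin.FN (n + 4) s (fun x => ind (¬ goodWin h r x)) = 1 := by
      rw [← coin.FN_add]
      have : (fun w => ind (goodWin h r w) + ind (¬ goodWin h r w)) = fun _ => 1 := by
        ext w
        by_cases hg : goodWin h r w
        · rw [ind_true hg, ind_false (not_not.mpr hg), add_zero]
        · rw [ind_false hg, ind_true hg, zero_add]
      rw [this, coin.FN_const]
    have h6 : ENNReal.ofReal (1/32) + coin.FN (n + 4) s (fun x => ind (¬ goodWin h r x)) ≤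
        ENNReal.ofReal (1/32) + ENNReal.ofReal (31/32) := by
      calc _ ≤ coin.FN (n + 4) s (fun x => ind (goodWin h r x)) +
            coin.FN (n + 4) s (fun x => ind (¬ goodWin h r x)) := by gcongr
        _ = 1 := h5
        _ = _ := by
          rw [← ENNReal.ofReal_add (by norm_num) (by norm_num)]; norm_num
    exact (ENNReal.add_le_add_iff_left ENNReal.ofReal_ne_top).mp h6

/-- counting words -/
lemma FN_card (N : ℕ) (s : Mode) (P : List Bool → Prop) :
    (({x : List Bool | x.length = N ∧ P x}.ncard : ℕ) : ℝ≥0∞) =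
      2 ^ N * coin.FN N s (fun x => ind (P x)) := by
  induction N generalizing s P with
  | zero =>
    simp only [pow_zero, one_mul, Chain.FN]
    by_cases h : P []
    · have : {x : List Bool | x.length = 0 ∧ P x} = {[]} := by
        ext x; simp only [Set.mem_ofPred_eq, Set.mem_singleton_iff, List.length_eq_zero_iff]
        constructor
        · exact fun h => h.1
        · rintro rfl; exact ⟨rfl, h⟩
      rw [this, ind_true h]; simp
    · have : {x : List Bool | x.length = 0 ∧ P x} = ∅ := by
        ext x; simp only [Set.mem_ofPred_eq, List.length_eq_zero_iff, Set.mem_empty_iff_false,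
          iff_false]
        rintro ⟨rfl, h'⟩; exact h h'
      rw [this, ind_false h]; simp
  | succ N ih =>
    have hfin : ∀ (Q : List Bool → Prop), {x : List Bool | x.length = N ∧ Q x}.Finite := fun Q =>
      (List.finite_length_eq Bool N).subset fun x hx => hx.1
    have hset : {x : List Bool | x.length = N + 1 ∧ P x} =
        (List.cons true) '' {x | x.length = N ∧ P (true :: x)} ∪
        (List.cons false) '' {x | x.length = N ∧ P (false :: x)} := by
      ext x
      constructor
      · rintro ⟨hx, hP⟩
        cases x with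
        | nil => simp at hx
        | cons b x =>
          cases b
          · exact Or.inr ⟨x, ⟨by simpa using hx, hP⟩, rfl⟩
          · exact Or.inl ⟨x, ⟨by simpa using hx, hP⟩, rfl⟩
      · rintro (⟨y, ⟨hy, hP⟩, rfl⟩ | ⟨y, ⟨hy, hP⟩, rfl⟩)
        · exact ⟨by simp [hy], hP⟩
        · exact ⟨by simp [hy], hP⟩
    rw [hset, Set.ncard_union_eq ?_ ((hfin _).image _) ((hfin _).image _)]
    · rw [Set.ncard_image_of_injective _ (List.cons_injective),
        Set.ncard_image_of_injective _ (List.cons_injective)]
      push_cast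
      rw [ih (coin.nx s true), ih (coin.nx s false)]
      simp only [Chain.FN, coin_p, ofReal_half]
      rw [pow_succ, mul_add, ← mul_assoc, ← mul_assoc]
      have : (2:ℝ≥0∞) ^ N * 2 * 2⁻¹ = 2 ^ N := by
        rw [mul_assoc, ENNReal.mul_inv_cancel (by norm_num) (by norm_num), mul_one]
      rw [this]
    · rw [Set.disjoint_left]
      rintro _ ⟨y, _, rfl⟩ ⟨z, _, hz⟩
      simp at hz

/-- the number of words of length `N` with no good window among the first `q` -/
lemma card_badWins (h n : ℕ) (r : ℝ) (h1 : 3 / 4 ≤ (PE h r).toReal) (h2 : un n R h ≤ 1 / 4)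
    (q N : ℕ) (hN : q * (n + 4) ≤ N) :
    (({x : List Bool | x.length = N ∧ badWins h r (n + 4) q x}.ncard : ℕ) : ℝ) ≤
      2 ^ N * (31 / 32) ^ q := by
  have h3 := FN_card N I (badWins h r (n + 4) q)
  have h4 := badWins_prob h n r h1 h2 q N I hN
  have h5 : (({x : List Bool | x.length = N ∧ badWins h r (n + 4) q x}.ncard : ℕ) : ℝ≥0∞) ≤
      ENNReal.ofReal (2 ^ N * (31 / 32) ^ q) := by
    rw [h3, ENNReal.ofReal_mul (by positivity)]
    gcongr
    rw [ENNReal.ofReal_pow (by norm_num)]
    simp
  have h6 := ENNReal.toReal_mono ENNReal.ofReal_ne_top h5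
  rwa [ENNReal.toReal_natCast, ENNReal.toReal_ofReal (by positivity)] at h6

end Pool.Agent.BaxterLIS
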