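import Mathlib

/-!
Binary words read by a finite-type chain with biased coins; prefix codes, stopping rules
and a potential lemma.  Everything is a countable sum over words.
-/

namespace Pool.Agent.BaxterLIS

open scoped ENNReal
open Filter Topology

/-- A chain: the next state is a function of the flip; flip probabilities depend on the state. -/
structure Chain (S : Type*) where
  nx : S → Bool → S
  p : S → Bool → ℝ
  p_nonneg : ∀ s b, 0 ≤ p s b
  p_sum : ∀ s, p s true + p s false = 1

namespace Chain

variable {S : Type*} (c : Chain S)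

/-- weight (probability) of a word read from `s` -/
noncomputable def wt : S → List Bool → ℝ≥0∞
  | _, [] => 1
  | s, b :: w => ENNReal.ofReal (c.p s b) * wt (c.nx s b) w

/-- state after reading a word -/
def run : S → List Bool → S
  | s, [] => s
  | s, b :: w => run (c.nx s b) w

@[simp] lemma wt_nil (s : S) : c.wt s [] = 1 := rfl
@[simp] lemma wt_cons (s : S) (b : Bool) (w : List Bool) :
    c.wt s (b :: w) = ENNReal.ofReal (c.p s b) * c.wt (c.nx s b) w := rfl
@[simp] lemma run_nil (s : S) : c.run s [] = s := rfl
@[simp] lemma run_cons (s : S) (b : Bool) (w : List Bool) :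
    c.run s (b :: w) = c.run (c.nx s b) w := rfl

lemma run_append (s : S) (u v : List Bool) : c.run s (u ++ v) = c.run (c.run s u) v := by
  induction u generalizing s with
  | nil => rfl
  | cons b u ih => simp [ih]

lemma wt_append (s : S) (u v : List Bool) : c.wt s (u ++ v) = c.wt s u * c.wt (c.run s u) v := by
  induction u generalizing s with
  | nil => simp
  | cons b u ih => simp [ih, mul_assoc]

lemma ofReal_sum (s : S) : ENNReal.ofReal (c.p s true) + ENNReal.ofReal (c.p s false) = 1 := by
  rw [← ENNReal.ofReal_add (c.p_nonneg _ _) (c.p_nonneg _ _), c.p_sum]; simp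

/-- expectation-type sum over all finite words -/
noncomputable def E (s : S) (f : List Bool → ℝ≥0∞) : ℝ≥0∞ := ∑' w, c.wt s w * f w

end Chain

lemma tsum_list (g : List Bool → ℝ≥0∞) :
    ∑' w, g w = g [] + (∑' w, g (true :: w) + ∑' w, g (false :: w)) := by
  let e : Unit ⊕ (List Bool ⊕ List Bool) ≃ List Bool :=
    { toFun := fun x => match x with
        | Sum.inl _ => []
        | Sum.inr (Sum.inl w) => true :: w
        | Sum.inr (Sum.inr w) => false :: w
      invFun := fun w => match w with
        | [] => Sum.inl ()
        | true :: w => Sum.inr (Sum.inl w)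
        | false :: w => Sum.inr (Sum.inr w)
      left_inv := by rintro (x | w | w) <;> rfl
      right_inv := by
        intro w
        cases w with
        | nil => rfl
        | cons b w => cases b <;> rfl }
  rw [← e.tsum_eq, Summable.tsum_sum ENNReal.summable ENNReal.summable,
    Summable.tsum_sum ENNReal.summable ENNReal.summable]
  simp [e]

namespace Chain

variable {S : Type*} (c : Chain S)

lemma E_cons (s : S) (f : List Bool → ℝ≥0∞) :
    c.E s f = f [] + (ENNReal.ofReal (c.p s true) * c.E (c.nx s true) (fun w => f (true :: w)) +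
      ENNReal.ofReal (c.p s false) * c.E (c.nx s false) (fun w => f (false :: w))) := by
  unfold E
  rw [tsum_list]
  simp only [wt_nil, one_mul, wt_cons, mul_assoc, ENNReal.tsum_mul_left]

lemma E_mono (s : S) {f g : List Bool → ℝ≥0∞} (h : ∀ w, f w ≤ g w) : c.E s f ≤ c.E s g :=
  ENNReal.tsum_le_tsum fun w => mul_le_mul_right (h w) _

lemma E_add (s : S) (f g : List Bool → ℝ≥0∞) : c.E s (fun w => f w + g w) = c.E s f + c.E s g := by
  unfold E
  rw [← ENNReal.tsum_add]
  congr 1; ext w; rw [mul_add]

lemma E_mul_left (s : S) (a : ℝ≥0∞) (f : List Bool → ℝ≥0∞) :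
    c.E s (fun w => a * f w) = a * c.E s f := by
  unfold E
  rw [← ENNReal.tsum_mul_left]
  congr 1; ext w; ring

lemma E_zero (s : S) : c.E s (fun _ => 0) = 0 := by simp [E]

/-- truncation to words of length at most `n` -/
def trunc (n : ℕ) (f : List Bool → ℝ≥0∞) : List Bool → ℝ≥0∞ :=
  fun w => if w.length ≤ n then f w else 0

lemma trunc_le (n : ℕ) (f : List Bool → ℝ≥0∞) (w : List Bool) : trunc n f w ≤ f w := by
  unfold trunc; split_ifs <;> simp

lemma E_trunc_zero (s : S) (f : List Bool → ℝ≥0∞) : c.E s (trunc 0 f) = f [] := by
  rw [E_cons]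
  simp [trunc, E]

lemma E_trunc_succ (s : S) (n : ℕ) (f : List Bool → ℝ≥0∞) :
    c.E s (trunc (n + 1) f) = f [] +
      (ENNReal.ofReal (c.p s true) * c.E (c.nx s true) (trunc n (fun w => f (true :: w))) +
      ENNReal.ofReal (c.p s false) * c.E (c.nx s false) (trunc n (fun w => f (false :: w)))) := by
  rw [E_cons]
  simp [trunc]
  rfl

lemma E_le_of_trunc (s : S) (f : List Bool → ℝ≥0∞) (a : ℝ≥0∞)
    (h : ∀ n, c.E s (trunc n f) ≤ a) : c.E s f ≤ a := by
  unfold E
  rw [ENNReal.tsum_eq_iSup_sum]
  refine iSup_le fun F => ?_
  let n := F.sup List.length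
  refine le_trans ?_ (h n)
  calc ∑ w ∈ F, c.wt s w * f w = ∑ w ∈ F, c.wt s w * trunc n f w := by
        apply Finset.sum_congr rfl
        intro w hw
        have : w.length ≤ n := Finset.le_sup (f := List.length) hw
        simp [trunc, this]
    _ ≤ _ := ENNReal.sum_le_tsum _

/-- sum over words of length exactly `n` -/
noncomputable def FN (n : ℕ) (s : S) (f : List Bool → ℝ≥0∞) : ℝ≥0∞ :=
  match n with
  | 0 => f []
  | n + 1 => ENNReal.ofReal (c.p s true) * FN n (c.nx s true) (fun w => f (true :: w)) +
      ENNReal.ofReal (c.p s false) * FN n (c.nx s false) (fun w => f (false :: w))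

lemma FN_mono (n : ℕ) (s : S) {f g : List Bool → ℝ≥0∞} (h : ∀ w, w.length = n → f w ≤ g w) :
    c.FN n s f ≤ c.FN n s g := by
  induction n generalizing s f g with
  | zero => exact h [] rfl
  | succ n ih =>
    simp only [FN]
    gcongr
    · exact ih _ fun w hw => h _ (by simp [hw])
    · exact ih _ fun w hw => h _ (by simp [hw])

lemma FN_const (n : ℕ) (s : S) (a : ℝ≥0∞) : c.FN n s (fun _ => a) = a := by
  induction n generalizing s with
  | zero => rfl
  | succ n ih =>
    simp only [FN, ih]
    rw [← add_mul, c.ofReal_sum, one_mul]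

lemma FN_mul_left (n : ℕ) (s : S) (a : ℝ≥0∞) (f : List Bool → ℝ≥0∞) :
    c.FN n s (fun w => a * f w) = a * c.FN n s f := by
  induction n generalizing s f with
  | zero => rfl
  | succ n ih => simp only [FN, ih]; ring

lemma FN_add (n : ℕ) (s : S) (f g : List Bool → ℝ≥0∞) :
    c.FN n s (fun w => f w + g w) = c.FN n s f + c.FN n s g := by
  induction n generalizing s f g with
  | zero => rfl
  | succ n ih => simp only [FN, ih]; ring

lemma FN_append (m n : ℕ) (s : S) (f : List Bool → ℝ≥0∞) :
    c.FN (m + n) s f = c.FN m s (fun u => c.FN n (c.run s u) (fun v => f (u ++ v))) := by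
  induction m generalizing s f with
  | zero => simp [FN]
  | succ m ih =>
    have : m + 1 + n = (m + n) + 1 := by ring
    rw [this]
    simp only [FN, ih]
    rfl

end Chain

/-! ### Stopping rules -/

section Stop

variable {S T : Type*} (c : Chain S) (nt : T → Bool → T) (π : T → S)

/-- words accepted by a stopping rule: all proper initial states are unresolved and the last one
is successful -/
def acc (fin suc : T → Prop) : List Bool → T → Prop
  | [], t => suc t
  | b :: w, t => ¬ fin t ∧ acc fin suc w (nt t b)

open Classical in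
/-- indicator of a predicate, as an extended nonnegative real -/
noncomputable def ind (P : Prop) : ℝ≥0∞ := if P then 1 else 0

lemma ind_le_one (P : Prop) : ind P ≤ 1 := by
  unfold ind; split_ifs <;> simp

lemma ind_true {P : Prop} (h : P) : ind P = 1 := by simp [ind, h]
lemma ind_false {P : Prop} (h : ¬ P) : ind P = 0 := by simp [ind, h]
lemma ind_mono {P Q : Prop} (h : P → Q) : ind P ≤ ind Q := by
  by_cases hP : P
  · rw [ind_true hP, ind_true (h hP)]
  · rw [ind_false hP]; simp

open Classical in
/-- probability of being unresolved after `n` flips -/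
noncomputable def unres (fin : T → Prop) : ℕ → T → ℝ
  | 0, t => if fin t then 0 else 1
  | n + 1, t => if fin t then 0 else
      c.p (π t) true * unres fin n (nt t true) + c.p (π t) false * unres fin n (nt t false)

variable {c nt π}

lemma unres_nonneg (fin : T → Prop) (n : ℕ) (t : T) : 0 ≤ unres c nt π fin n t := by
  induction n generalizing t with
  | zero => simp only [unres]; split_ifs <;> norm_num
  | succ n ih =>
    simp only [unres]
    split_ifs
    · exact le_rfl
    · have := c.p_nonneg (π t) true
      have := c.p_nonneg (π t) false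
      have := ih (nt t true)
      have := ih (nt t false)
      positivity

lemma unres_le_one (fin : T → Prop) (n : ℕ) (t : T) : unres c nt π fin n t ≤ 1 := by
  induction n generalizing t with
  | zero => simp only [unres]; split_ifs <;> norm_num
  | succ n ih =>
    simp only [unres]
    split_ifs
    · norm_num
    · have h1 := c.p_nonneg (π t) true
      have h2 := c.p_nonneg (π t) false
      have h3 := ih (nt t true)
      have h4 := ih (nt t false)
      have h5 := c.p_sum (π t)
      nlinarith

/-- Kraft inequality for stopping rules -/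
lemma kraft (hπ : ∀ t b, π (nt t b) = c.nx (π t) b) (fin suc : T → Prop)
    (hs : ∀ t, suc t → fin t) (t : T) : c.E (π t) (fun w => ind (acc nt fin suc w t)) ≤ 1 := by
  apply c.E_le_of_trunc
  intro n
  induction n generalizing t with
  | zero => rw [c.E_trunc_zero]; exact ind_le_one _
  | succ n ih =>
    rw [c.E_trunc_succ]
    by_cases hf : fin t
    · have h1 : ∀ b, (fun w => ind (acc nt fin suc (b :: w) t)) = fun _ => 0 := by
        intro b; ext w; apply ind_false; simp [acc, hf]
      rw [h1, h1]
      have h2 : ∀ s, c.E s (Chain.trunc n (fun _ => 0)) = 0 := by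
        intro s
        refine le_antisymm ((c.E_mono s (Chain.trunc_le n _)).trans ?_) (by simp)
        rw [c.E_zero]
      rw [h2, h2]
      simpa using ind_le_one _
    · have h1 : ∀ b, (fun w => ind (acc nt fin suc (b :: w) t)) =
          fun w => ind (acc nt fin suc w (nt t b)) := by
        intro b; ext w; simp [acc, hf]
      rw [h1, h1]
      have h2 : ind (acc nt fin suc [] t) = 0 := ind_false fun h => hf (hs t h)
      rw [h2, zero_add, ← hπ, ← hπ]
      calc _ ≤ ENNReal.ofReal (c.p (π t) true) * 1 + ENNReal.ofReal (c.p (π t) false) * 1 := by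
            gcongr
            · exact ih _
            · exact ih _
        _ = 1 := by rw [mul_one, mul_one, c.ofReal_sum]

/-- recursion for the success probability -/
lemma acc_rec (hπ : ∀ t b, π (nt t b) = c.nx (π t) b) (fin suc : T → Prop)
    (hs : ∀ t, suc t → fin t) (t : T) (hf : ¬ fin t) :
    c.E (π t) (fun w => ind (acc nt fin suc w t)) =
      ENNReal.ofReal (c.p (π t) true) *
        c.E (π (nt t true)) (fun w => ind (acc nt fin suc w (nt t true))) +
      ENNReal.ofReal (c.p (π t) false) *
        c.E (π (nt t false)) (fun w => ind (acc nt fin suc w (nt t false))) := by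
  rw [c.E_cons]
  have h1 : ∀ b, (fun w => ind (acc nt fin suc (b :: w) t)) =
      fun w => ind (acc nt fin suc w (nt t b)) := by
    intro b; ext w; simp [acc, hf]
  have h2 : ind (acc nt fin suc [] t) = 0 := ind_false fun h => hf (hs t h)
  rw [h1, h1, h2, zero_add, ← hπ, ← hπ]

lemma acc_suc (fin suc : T → Prop) (hs : ∀ t, suc t → fin t) (t : T) (ht : suc t) :
    c.E (π t) (fun w => ind (acc nt fin suc w t)) = 1 := by
  rw [c.E_cons]
  have hf := hs t ht
  have h1 : ∀ b, (fun w => ind (acc nt fin suc (b :: w) t)) = fun _ => 0 := by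
    intro b; ext w; apply ind_false; simp [acc, hf]
  rw [h1, h1, c.E_zero, c.E_zero, ind_true (by simpa [acc] using ht)]
  simp

/-- **Potential lemma**: lower bound for the success probability. -/
lemma potential (hπ : ∀ t b, π (nt t b) = c.nx (π t) b) (fin suc Inv : T → Prop)
    (hs : ∀ t, suc t → fin t) (U : T → ℝ) (C : ℝ) (hC : 0 ≤ C)
    (h_le : ∀ t, Inv t → (suc t ∨ ¬ fin t) → U t ≤ C)
    (h_fail : ∀ t, Inv t → fin t → ¬ suc t → U t ≤ 0)
    (h_sub : ∀ t, Inv t → ¬ fin t →
      U t ≤ c.p (π t) true * U (nt t true) + c.p (π t) false * U (nt t false))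
    (h_inv : ∀ t b, Inv t → ¬ fin t → Inv (nt t b)) (n : ℕ) (t : T) (ht : Inv t) :
    U t ≤ C * (c.E (π t) (fun w => ind (acc nt fin suc w t))).toReal +
      C * unres c nt π fin n t := by
  induction n generalizing t with
  | zero =>
    by_cases hf : fin t
    · by_cases hsu : suc t
      · rw [acc_suc fin suc hs t hsu]
        simp only [unres, if_pos hf]
        simpa using h_le t ht (Or.inl hsu)
      · have := h_fail t ht hf hsu
        have h0 := unres_nonneg (c := c) (nt := nt) (π := π) fin 0 t
        have : 0 ≤ C * (c.E (π t) (fun w => ind (acc nt fin suc w t))).toReal := by positivity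
        nlinarith
    · simp only [unres, if_neg hf]
      have := h_le t ht (Or.inr hf)
      have : 0 ≤ C * (c.E (π t) (fun w => ind (acc nt fin suc w t))).toReal := by positivity
      linarith
  | succ n ih =>
    by_cases hf : fin t
    · by_cases hsu : suc t
      · rw [acc_suc fin suc hs t hsu]
        simp only [unres, if_pos hf]
        simpa using h_le t ht (Or.inl hsu)
      · have := h_fail t ht hf hsu
        have h0 := unres_nonneg (c := c) (nt := nt) (π := π) fin (n+1) t
        have : 0 ≤ C * (c.E (π t) (fun w => ind (acc nt fin suc w t))).toReal := by positivity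
        nlinarith
    · rw [acc_rec hπ fin suc hs t hf]
      simp only [unres, if_neg hf]
      have k1 := kraft hπ fin suc hs (nt t true)
      have k2 := kraft hπ fin suc hs (nt t false)
      have n1 : c.E (π (nt t true)) (fun w => ind (acc nt fin suc w (nt t true))) ≠ ∞ :=
        ne_top_of_le_ne_top ENNReal.one_ne_top k1
      have n2 : c.E (π (nt t false)) (fun w => ind (acc nt fin suc w (nt t false))) ≠ ∞ :=
        ne_top_of_le_ne_top ENNReal.one_ne_top k2
      rw [ENNReal.toReal_add (ENNReal.mul_ne_top ENNReal.ofReal_ne_top n1)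
        (ENNReal.mul_ne_top ENNReal.ofReal_ne_top n2), ENNReal.toReal_mul, ENNReal.toReal_mul,
        ENNReal.toReal_ofReal (c.p_nonneg _ _), ENNReal.toReal_ofReal (c.p_nonneg _ _)]
      have i1 := ih (nt t true) (h_inv t true ht hf)
      have i2 := ih (nt t false) (h_inv t false ht hf)
      have p1 := c.p_nonneg (π t) true
      have p2 := c.p_nonneg (π t) false
      have := h_sub t ht hf
      have j1 := mul_le_mul_of_nonneg_left i1 p1
      have j2 := mul_le_mul_of_nonneg_left i2 p2
      linarith

/-- exact complement formula when success and resolution coincide -/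
lemma trunc_add_unres (hπ : ∀ t b, π (nt t b) = c.nx (π t) b) (fin : T → Prop) (n : ℕ) (t : T) :
    c.E (π t) (Chain.trunc n (fun w => ind (acc nt fin fin w t))) =
      ENNReal.ofReal (1 - unres c nt π fin n t) := by
  induction n generalizing t with
  | zero =>
    rw [c.E_trunc_zero]
    by_cases hf : fin t
    · simp [unres, hf, acc, ind]
    · simp [unres, hf, acc, ind]
  | succ n ih =>
    rw [c.E_trunc_succ]
    by_cases hf : fin t
    · have h1 : ∀ b, (fun w => ind (acc nt fin fin (b :: w) t)) = fun _ => 0 := by
        intro b; ext w; apply ind_false; simp [acc, hf]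
      rw [h1, h1]
      have h2 : ∀ s, c.E s (Chain.trunc n (fun _ => 0)) = 0 := by
        intro s
        refine le_antisymm ((c.E_mono s (Chain.trunc_le n _)).trans ?_) (by simp)
        rw [c.E_zero]
      rw [h2, h2]
      simp [unres, hf, acc, ind]
    · have h1 : ∀ b, (fun w => ind (acc nt fin fin (b :: w) t)) =
          fun w => ind (acc nt fin fin w (nt t b)) := by
        intro b; ext w; simp [acc, hf]
      rw [h1, h1]
      have h2 : ind (acc nt fin fin [] t) = 0 := ind_false fun h => hf h
      rw [h2, zero_add, ← hπ, ← hπ, ih, ih]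
      simp only [unres, if_neg hf]
      rw [← ENNReal.ofReal_mul (c.p_nonneg _ _), ← ENNReal.ofReal_mul (c.p_nonneg _ _),
        ← ENNReal.ofReal_add]
      · congr 1
        have := c.p_sum (π t)
        linear_combination this
      · exact mul_nonneg (c.p_nonneg _ _) (by linarith [unres_le_one (c := c) (nt := nt) (π := π) fin n (nt t true)])
      · exact mul_nonneg (c.p_nonneg _ _) (by linarith [unres_le_one (c := c) (nt := nt) (π := π) fin n (nt t false)])

/-- accepted words form a prefix code -/
lemma acc_prefix_free (fin suc : T → Prop) (hs : ∀ t, suc t → fin t) (t : T) (u v x y : List Bool)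
    (hu : acc nt fin suc u t) (hv : acc nt fin suc v t) (h : u ++ x = v ++ y) : u = v := by
  induction u generalizing t v with
  | nil =>
    cases v with
    | nil => rfl
    | cons b v => exact absurd (hs t hu) hv.1
  | cons a u ih =>
    cases v with
    | nil => exact absurd (hs t hv) hu.1
    | cons b v =>
      simp only [List.cons_append, List.cons.injEq] at h
      obtain ⟨rfl, h⟩ := h
      rw [ih (nt t a) v hu.2 hv.2 h]

end Stop

end Pool.Agent.BaxterLIS
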